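import Pool.Agent.Lib.MP_7f581e_ntH.AutP
import Pool.Agent.Lib.MP_7f581e_ntL.Y4

/-!
Embedding problems with kernel a power of a projective special unitary group: final form.
-/

set_option autoImplicit false
set_option linter.unusedSectionVars false

universe u

namespace MP7fH

open Matrix MP7fY MP7fW MP7fG MP7fE MP7fU MP7fR MP7fV

variable {p m N : ℕ} [Fact p.Prime] {F : Type} [Field F] [CharP F p] [Finite F]

/-- Embedding problems with kernel a power of `PSU(N, F)` over Hilbertian fields, where the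
automorphism group is known and the diagonal automorphisms split. -/
theorem solves_psu (hm : 0 < m) (hcard : Nat.card F = p ^ (2 * m)) (h4 : 4 ≤ N)
    (hd : DiagCond N (p ^ m + 1))
    [IsSimpleGroup (PSG (sF p m F) (1 : Matrix (Fin N) (Fin N) F))]
    (hz : ∃ a b : PSG (sF p m F) (1 : Matrix (Fin N) (Fin N) F), a * b ≠ b * a)
    {κ : Type} [Finite κ] {E : Type} [Group E] [Finite E] (N0 : Subgroup E) [N0.Normal]
    (θ : N0 ≃* (κ → PSG (sF p m F) (1 : Matrix (Fin N) (Fin N) F))) {K : Type u} [Field K]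
    [CharP K p] (hK : MP7fR.IsHilbertian K) : Solves K (QuotientGroup.mk' N0) := by
  obtain ⟨n, rfl⟩ : ∃ n, N = n + 1 := ⟨N - 1, by omega⟩
  have hs := sF_sF (p := p) (m := m) hcard
  have hne := sF_ne (p := p) hm hcard
  obtain ⟨c, hc⟩ := exists_c0 (sF p m F) hs hne
  obtain ⟨P, hP⟩ := exists_P (sF p m F) hs hc (MP7fY.norm_surj hm hcard)
    (Jm_herm (N := n + 1) (sF p m F)) Jm_det
  haveI : IsSimpleGroup (PSG (sF p m F) (Jm (n + 1) F)) := (ptr hP).isSimpleGroup
  have hne' : ∃ x, sF p m F x ≠ x := by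
    by_contra hcon
    push Not at hcon
    exact hne (RingHom.ext hcon)
  refine solves_of_psu_kernel hm hcard hd (Jm_herm _) Jm_det Jm_map
    (autP_J (sF p m F) hs hne' h4) (rigP_J (sF p m F) hs hne' (by omega) sF_comm) ?_ N0
    (θ.trans (MulEquiv.piCongrRight fun _ => (ptr hP).symm)) hK
  obtain ⟨a, b, hab⟩ := hz
  refine ⟨(ptr hP).symm a, (ptr hP).symm b, fun h => hab ?_⟩
  apply (ptr hP).symm.injective
  rw [map_mul, map_mul, h]

/-- The same over a rational function field, without a Hilbertian hypothesis. -/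
theorem solvesOver_psu (hm : 0 < m) (hcard : Nat.card F = p ^ (2 * m)) (h4 : 4 ≤ N)
    (hd : DiagCond N (p ^ m + 1))
    [IsSimpleGroup (PSG (sF p m F) (1 : Matrix (Fin N) (Fin N) F))]
    (hz : ∃ a b : PSG (sF p m F) (1 : Matrix (Fin N) (Fin N) F), a * b ≠ b * a)
    {κ : Type} [Finite κ] {E : Type} [Group E] [Finite E] (N0 : Subgroup E) [N0.Normal]
    (θ : N0 ≃* (κ → PSG (sF p m F) (1 : Matrix (Fin N) (Fin N) F))) {K : Type u} [Field K]
    [CharP K p] :
    ∃ r : ℕ, SolvesOver K (FractionRing (MvPolynomial (Fin r) K)) (QuotientGroup.mk' N0) := by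
  obtain ⟨n, rfl⟩ : ∃ n, N = n + 1 := ⟨N - 1, by omega⟩
  have hs := sF_sF (p := p) (m := m) hcard
  have hne := sF_ne (p := p) hm hcard
  obtain ⟨c, hc⟩ := exists_c0 (sF p m F) hs hne
  obtain ⟨P, hP⟩ := exists_P (sF p m F) hs hc (MP7fY.norm_surj hm hcard)
    (Jm_herm (N := n + 1) (sF p m F)) Jm_det
  haveI : IsSimpleGroup (PSG (sF p m F) (Jm (n + 1) F)) := (ptr hP).isSimpleGroup
  have hne' : ∃ x, sF p m F x ≠ x := by
    by_contra hcon
    push Not at hcon
    exact hne (RingHom.ext hcon)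
  refine solvesOver_of_psu_kernel hm hcard hd (Jm_herm _) Jm_det Jm_map
    (autP_J (sF p m F) hs hne' h4) (rigP_J (sF p m F) hs hne' (by omega) sF_comm) ?_ N0
    (θ.trans (MulEquiv.piCongrRight fun _ => (ptr hP).symm))
  obtain ⟨a, b, hab⟩ := hz
  refine ⟨(ptr hP).symm a, (ptr hP).symm b, fun h => hab ?_⟩
  apply (ptr hP).symm.injective
  rw [map_mul, map_mul, h]

end MP7fH
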