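import Pool.Agent.Lib.MP_7f581e_ntH.PerfP
import Pool.Agent.Lib.MP_7f581e_ntH.Fin1

/-!
Embedding problems with kernel a power of a projective special unitary group: final form,
without the hypothesis that the group is not abelian.
-/

set_option autoImplicit false
set_option linter.unusedSectionVars false

universe u

namespace MP7fH

open Matrix MP7fY MP7fW MP7fG MP7fE MP7fU MP7fR MP7fV

variable {p m N : ℕ} [Fact p.Prime] {F : Type} [Field F] [CharP F p] [Finite F]

/-- An isometry from the standard form to the antidiagonal form. -/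
theorem exists_PJ (hm : 0 < m) (hcard : Nat.card F = p ^ (2 * m)) (N : ℕ) :
    ∃ P : GL (Fin N) F, (P.1.map (sF p m F))ᵀ * Jm N F * P.1 = 1 := by
  have hs := sF_sF (p := p) (m := m) hcard
  have hne := sF_ne (p := p) hm hcard
  obtain ⟨c, hc⟩ := exists_c0 (sF p m F) hs hne
  exact exists_P (sF p m F) hs hc (MP7fY.norm_surj hm hcard) (Jm_herm (N := N) (sF p m F)) Jm_det

theorem sF_ne' (hm : 0 < m) (hcard : Nat.card F = p ^ (2 * m)) : ∃ x : F, sF p m F x ≠ x := by
  by_contra hcon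
  push Not at hcon
  exact sF_ne (p := p) hm hcard (RingHom.ext hcon)

theorem noncomm_one (hm : 0 < m) (hcard : Nat.card F = p ^ (2 * m)) (h3 : 3 ≤ N) :
    ∃ a b : PSG (sF p m F) (1 : Matrix (Fin N) (Fin N) F), a * b ≠ b * a := by
  obtain ⟨P, hP⟩ := exists_PJ (F := F) hm hcard N
  exact noncomm_trans hP (noncomm_J _ (sF_sF (p := p) (m := m) hcard) (sF_ne' hm hcard) h3)

/-- `SU(N, F)` is perfect if `PSU(N, F)` is simple. -/
theorem perf_one (hm : 0 < m) (hcard : Nat.card F = p ^ (2 * m)) (h3 : 3 ≤ N)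
    [IsSimpleGroup (PSG (sF p m F) (1 : Matrix (Fin N) (Fin N) F))] :
    commutator (SG (sF p m F) (1 : Matrix (Fin N) (Fin N) F)) = ⊤ := by
  obtain ⟨P, hP⟩ := exists_PJ (F := F) hm hcard N
  haveI : IsSimpleGroup (PSG (sF p m F) (Jm N F)) := (ptr hP).isSimpleGroup
  exact perf_trans hP (perf_J _ (sF_sF (p := p) (m := m) hcard) (sF_ne' hm hcard) h3)

theorem autP_one (hm : 0 < m) (hcard : Nat.card F = p ^ (2 * m)) (h4 : 4 ≤ N)
    [IsSimpleGroup (PSG (sF p m F) (1 : Matrix (Fin N) (Fin N) F))] :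
    AutP (sF p m F) (1 : Matrix (Fin N) (Fin N) F) := by
  obtain ⟨P, hP⟩ := exists_PJ (F := F) hm hcard N
  haveI : IsSimpleGroup (PSG (sF p m F) (Jm N F)) := (ptr hP).isSimpleGroup
  exact (autP_J _ (sF_sF (p := p) (m := m) hcard) (sF_ne' hm hcard) h4).trans hP sF_comm Jm_map
    fun σ => Matrix.map_one σ (map_zero σ) (map_one σ)

theorem rigP_one (hm : 0 < m) (hcard : Nat.card F = p ^ (2 * m)) (h3 : 3 ≤ N) :
    RigP (sF p m F) (1 : Matrix (Fin N) (Fin N) F) := by
  obtain ⟨P, hP⟩ := exists_PJ (F := F) hm hcard N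
  exact (rigP_J _ (sF_sF (p := p) (m := m) hcard) (sF_ne' hm hcard) h3 sF_comm).trans hP sF_comm
    Jm_map fun σ => Matrix.map_one σ (map_zero σ) (map_one σ)

/-- The unitary transvections generate `SU(N, F)` if `PSU(N, F)` is simple. -/
theorem closure_one (hm : 0 < m) (hcard : Nat.card F = p ^ (2 * m)) (h3 : 3 ≤ N)
    [IsSimpleGroup (PSG (sF p m F) (1 : Matrix (Fin N) (Fin N) F))] :
    Subgroup.closure {g : SG (sF p m F) (1 : Matrix (Fin N) (Fin N) F) | ∃ w a,
      (fun i => sF p m F (w i)) ⬝ᵥ w = 0 ∧ sF p m F a = -a ∧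
        g.1.1 = 1 + a • vecMulVec w (fun i => sF p m F (w i))} = ⊤ := by
  obtain ⟨P, hP⟩ := exists_PJ (F := F) hm hcard N
  haveI : IsSimpleGroup (PSG (sF p m F) (Jm N F)) := (ptr hP).isSimpleGroup
  exact closure_tv _ (sF_sF (p := p) (m := m) hcard) (sF_ne' hm hcard) h3 hP

/-- Hyperbolic partners. -/
theorem partner_one (hm : 0 < m) (hcard : Nat.card F = p ^ (2 * m)) {w : Fin N → F}
    (hw : (fun i => sF p m F (w i)) ⬝ᵥ w = 0) (hw0 : w ≠ 0) :
    ∃ w' : Fin N → F, (fun i => sF p m F (w' i)) ⬝ᵥ w' = 0 ∧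
      (fun i => sF p m F (w i)) ⬝ᵥ w' = 1 := by
  have hs := sF_sF (p := p) (m := m) hcard
  obtain ⟨c, hc⟩ := exists_c0 (sF p m F) hs (sF_ne (p := p) hm hcard)
  exact partner hs hc hw hw0

/-- Embedding problems with kernel a power of `PSU(N, F)` over Hilbertian fields, if the
diagonal automorphisms split. -/
theorem solves_psu' (hm : 0 < m) (hcard : Nat.card F = p ^ (2 * m)) (h4 : 4 ≤ N)
    (hd : DiagCond N (p ^ m + 1))
    [IsSimpleGroup (PSG (sF p m F) (1 : Matrix (Fin N) (Fin N) F))]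
    {κ : Type} [Finite κ] {E : Type} [Group E] [Finite E] (N0 : Subgroup E) [N0.Normal]
    (θ : N0 ≃* (κ → PSG (sF p m F) (1 : Matrix (Fin N) (Fin N) F))) {K : Type u} [Field K]
    [CharP K p] (hK : MP7fR.IsHilbertian K) : Solves K (QuotientGroup.mk' N0) :=
  solves_psu hm hcard h4 hd (noncomm_one hm hcard (by omega)) N0 θ hK

end MP7fH
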