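import Pool.Agent.Lib.MP_7f581e_ntH.Three3
import Pool.Agent.Lib.MP_7f581e_ntH.Fin2

/-!
Automorphisms of `PSU(N, F)` and embedding problems with kernel a power of `PSU(N, F)`, for all
`N` at least three.
-/

set_option autoImplicit false
set_option linter.unusedSectionVars false

universe u

namespace MP7fH

open Matrix MP7fY MP7fW MP7fG MP7fE MP7fU MP7fR MP7fV

section bar

variable {F : Type*} [Field F] [HInv F] {N : ℕ}

/-- **Automorphisms of the projective special unitary groups.** -/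
theorem aut_psu_all [Finite F] [h : IsSimpleGroup (PSU N F)] (h3 : 3 ≤ N)
    (hq : N = 3 → ∃ t : F, bar t = t ∧ t ≠ 0 ∧ t ≠ 1) (α : PSU N F ≃* PSU N F) :
    ∃ (g : UU N F) (σ : F ≃+* F) (hσ : ∀ x, σ (bar x) = bar (σ x)), ∀ A : SU N F,
      α (mkU N F A) = mkU N F (cjU g (mapU hσ A)) := by
  rcases Nat.lt_or_ge 3 N with h4 | h4
  · exact aut_psu h4 α
  · obtain rfl : N = 3 := le_antisymm h4 h3
    exact aut_psu3 (hq rfl) α

theorem autP_bar' [Finite F] [IsSimpleGroup (PSG (bar : F →+* F) (Jm N F))] (h3 : 3 ≤ N)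
    (hq : N = 3 → ∃ t : F, (bar : F →+* F) t = t ∧ t ≠ 0 ∧ t ≠ 1) :
    AutP (bar : F →+* F) (Jm N F) := by
  intro α
  haveI : IsSimpleGroup (PSU N F) := (isoPJ (N := N) (F := F)).isSimpleGroup
  obtain ⟨g, σ, hσ, hα⟩ := aut_psu_all h3 hq ((isoPJ.trans α).trans isoPJ.symm)
  refine ⟨g.1, (J_iff _).mpr g.2, σ, ?_⟩
  intro A B hAB
  obtain ⟨A, rfl⟩ := isoJ.surjective A
  obtain ⟨B, rfl⟩ := isoJ.surjective B
  have h1 := hα A
  have h2 : B = cjU g (mapU hσ A) := by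
    apply Subtype.ext
    apply Subtype.ext
    exact hAB
  rw [← isoPJ_mk, ← isoPJ_mk, h2, ← h1]
  exact (isoPJ.apply_symm_apply _).symm

end bar

/-- **Automorphisms of the projective special unitary groups.** -/
theorem autP_J' {F : Type*} [Field F] [Finite F] {N : ℕ} (s : F →+* F) (hs : ∀ x, s (s x) = x)
    (hne : ∃ x, s x ≠ x) [h : IsSimpleGroup (PSG s (Jm N F))] (h3 : 3 ≤ N)
    (hq : N = 3 → ∃ t : F, s t = t ∧ t ≠ 0 ∧ t ≠ 1) :
    AutP s (Jm N F) :=
  @autP_bar' F _ ⟨s, hs, hne⟩ N _ h h3 hq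

variable {p m N : ℕ} [Fact p.Prime] {F : Type} [Field F] [CharP F p] [Finite F]

/-- The fixed field has more than two elements. -/
theorem exists_t (hm : 0 < m) (hcard : Nat.card F = p ^ (2 * m)) (hq : 2 < p ^ m) :
    ∃ t : F, sF p m F t = t ∧ t ≠ 0 ∧ t ≠ 1 := by
  obtain ⟨g, hg⟩ := IsCyclic.exists_generator (α := Fˣ)
  have h2 : Nat.card Fˣ = (p ^ m + 1) * (p ^ m - 1) := by
    rw [Nat.card_units, hcard, two_mul, pow_add, ← Nat.mul_self_sub_mul_self_eq (p ^ m) 1, one_mul]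
  refine ⟨((g ^ (p ^ m + 1) : Fˣ) : F), ?_, (g ^ (p ^ m + 1)).ne_zero, ?_⟩
  · rw [sF_apply, ← Units.val_pow_eq_pow_val]
    congr 1
    have h3 : (g ^ (p ^ m + 1)) ^ (p ^ m - 1) = 1 := by
      rw [← pow_mul, ← h2]
      exact pow_card_eq_one'
    have h4 : p ^ m = (p ^ m - 1) + 1 := by omega
    conv_lhs => rw [h4, pow_succ, ← h4, h3, one_mul]
  · intro h
    have h3 : g ^ (p ^ m + 1) = 1 := Units.ext h
    have h4 := orderOf_dvd_of_pow_eq_one h3
    rw [orderOf_eq_card_of_forall_mem_zpowers hg, h2] at h4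
    have h5 := Nat.le_of_dvd (by omega) h4
    have h6 : (p ^ m + 1) * 2 ≤ (p ^ m + 1) * (p ^ m - 1) := Nat.mul_le_mul_left _ (by omega)
    omega

theorem autP_all (hm : 0 < m) (hcard : Nat.card F = p ^ (2 * m)) (h3 : 3 ≤ N)
    (hq : N = 3 → 2 < p ^ m) [IsSimpleGroup (PSG (sF p m F) (1 : Matrix (Fin N) (Fin N) F))] :
    AutP (sF p m F) (1 : Matrix (Fin N) (Fin N) F) := by
  obtain ⟨P, hP⟩ := exists_PJ (F := F) hm hcard N
  haveI : IsSimpleGroup (PSG (sF p m F) (Jm N F)) := (ptr hP).isSimpleGroup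
  exact (autP_J' _ (sF_sF (p := p) (m := m) hcard) (sF_ne' hm hcard) h3
    (fun h => exists_t hm hcard (hq h))).trans hP sF_comm Jm_map
    fun σ => Matrix.map_one σ (map_zero σ) (map_one σ)

/-- Embedding problems with kernel a power of `PSU(N, F)` over Hilbertian fields, if the
diagonal automorphisms split. -/
theorem solves_psu_all (hm : 0 < m) (hcard : Nat.card F = p ^ (2 * m)) (h3 : 3 ≤ N)
    (hq : N = 3 → 2 < p ^ m) (hd : DiagCond N (p ^ m + 1))
    [IsSimpleGroup (PSG (sF p m F) (1 : Matrix (Fin N) (Fin N) F))]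
    {κ : Type} [Finite κ] {E : Type} [Group E] [Finite E] (N0 : Subgroup E) [N0.Normal]
    (θ : N0 ≃* (κ → PSG (sF p m F) (1 : Matrix (Fin N) (Fin N) F))) {K : Type u} [Field K]
    [CharP K p] (hK : MP7fR.IsHilbertian K) : Solves K (QuotientGroup.mk' N0) := by
  obtain ⟨n, rfl⟩ : ∃ n, N = n + 1 := ⟨N - 1, by omega⟩
  obtain ⟨P, hP⟩ := exists_PJ (F := F) hm hcard (n + 1)
  haveI : IsSimpleGroup (PSG (sF p m F) (Jm (n + 1) F)) := (ptr hP).isSimpleGroup
  exact solves_of_psu_kernel hm hcard hd (Jm_herm _) Jm_det Jm_map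
    (autP_J' (sF p m F) (sF_sF (p := p) (m := m) hcard) (sF_ne' hm hcard) h3
      (fun h => exists_t hm hcard (hq h)))
    (rigP_J (sF p m F) (sF_sF (p := p) (m := m) hcard) (sF_ne' hm hcard) h3 sF_comm)
    (noncomm_J _ (sF_sF (p := p) (m := m) hcard) (sF_ne' hm hcard) h3) N0
    (θ.trans (MulEquiv.piCongrRight fun _ => (ptr hP).symm)) hK

/-- The same over rational function fields. -/
theorem solvesOver_psu_all (hm : 0 < m) (hcard : Nat.card F = p ^ (2 * m)) (h3 : 3 ≤ N)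
    (hq : N = 3 → 2 < p ^ m) (hd : DiagCond N (p ^ m + 1))
    [IsSimpleGroup (PSG (sF p m F) (1 : Matrix (Fin N) (Fin N) F))]
    {κ : Type} [Finite κ] {E : Type} [Group E] [Finite E] (N0 : Subgroup E) [N0.Normal]
    (θ : N0 ≃* (κ → PSG (sF p m F) (1 : Matrix (Fin N) (Fin N) F))) {K : Type u} [Field K]
    [CharP K p] :
    ∃ r : ℕ, SolvesOver K (FractionRing (MvPolynomial (Fin r) K)) (QuotientGroup.mk' N0) := by
  obtain ⟨n, rfl⟩ : ∃ n, N = n + 1 := ⟨N - 1, by omega⟩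
  obtain ⟨P, hP⟩ := exists_PJ (F := F) hm hcard (n + 1)
  haveI : IsSimpleGroup (PSG (sF p m F) (Jm (n + 1) F)) := (ptr hP).isSimpleGroup
  exact solvesOver_of_psu_kernel hm hcard hd (Jm_herm _) Jm_det Jm_map
    (autP_J' (sF p m F) (sF_sF (p := p) (m := m) hcard) (sF_ne' hm hcard) h3
      (fun h => exists_t hm hcard (hq h)))
    (rigP_J (sF p m F) (sF_sF (p := p) (m := m) hcard) (sF_ne' hm hcard) h3 sF_comm)
    (noncomm_J _ (sF_sF (p := p) (m := m) hcard) (sF_ne' hm hcard) h3) N0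
    (θ.trans (MulEquiv.piCongrRight fun _ => (ptr hP).symm))

end MP7fH
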