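import Pool.Agent.Lib.MP_7f581e_ntH.Pair

/-!
Every automorphism of a simple group `PSU(N, F)`, `F` finite, `4 ≤ N`, is induced by the product
of a conjugation by a unitary matrix and a field automorphism.
-/

set_option autoImplicit false

namespace MP7fH

open Matrix

variable {F : Type*} [Field F] [HInv F] {N : ℕ}

section map

variable (σ : F ≃+* F)

/-- Field automorphisms on vectors. -/
def sv (x : Fin N → F) : Fin N → F := fun i => σ (x i)

omit [HInv F] in
theorem sv_add (x y : Fin N → F) : sv σ (x + y) = sv σ x + sv σ y := by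
  funext i
  exact map_add σ _ _

omit [HInv F] in
theorem sv_sub (x y : Fin N → F) : sv σ (x - y) = sv σ x - sv σ y := by
  funext i
  exact map_sub σ _ _

omit [HInv F] in
theorem sv_smul (c : F) (x : Fin N → F) : sv σ (c • x) = σ c • sv σ x := by
  funext i
  exact map_mul σ _ _

theorem sv_bb (i : Fin N) : sv σ (bb i) = bb i := by
  funext j
  rw [sv, bb_apply]
  split_ifs
  · exact map_one σ
  · exact map_zero σ

omit [HInv F] in
theorem sv_zero : sv σ (0 : Fin N → F) = 0 := by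
  funext j
  exact map_zero σ

omit [HInv F] in
theorem sv_symm (x : Fin N → F) : sv σ (sv σ.symm x) = x := by
  funext j
  exact σ.apply_symm_apply _

variable {σ}

theorem hf_sv (hσ : ∀ x, σ (bar x) = bar (σ x)) (x y : Fin N → F) :
    hf (sv σ x) (sv σ y) = σ (hf x y) := by
  rw [hf, hf, map_sum]
  apply Finset.sum_congr rfl
  intro i _
  rw [map_mul, hσ]
  rfl

theorem sm_map_mulVec (A : SpecialLinearGroup (Fin N) F) (x : Fin N → F) :
    sm (SpecialLinearGroup.map (σ : F →+* F) A) *ᵥ (sv σ x) = sv σ (sm A *ᵥ x) := by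
  funext i
  exact (RingHom.map_mulVec (σ : F →+* F) (sm A) x i).symm

/-- Field automorphisms on the unitary group. -/
def mapU (hσ : ∀ x, σ (bar x) = bar (σ x)) : SU N F →* SU N F where
  toFun A := ⟨SpecialLinearGroup.map (σ : F →+* F) A.1, by
    intro x y
    rw [← sv_symm σ x, ← sv_symm σ y, sm_map_mulVec, sm_map_mulVec, hf_sv hσ, hf_sv hσ]
    exact congrArg σ (A.2 _ _)⟩
  map_one' := Subtype.ext (map_one _)
  map_mul' A B := Subtype.ext (map_mul _ _ _)

theorem mapU_coe (hσ : ∀ x, σ (bar x) = bar (σ x)) (A : SU N F) :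
    (mapU hσ A).1 = SpecialLinearGroup.map (σ : F →+* F) A.1 := rfl

theorem ap_mapU (hσ : ∀ x, σ (bar x) = bar (σ x)) (A : SU N F) (x : Fin N → F) :
    ap (mapU hσ A) (sv σ x) = sv σ (ap A x) := sm_map_mulVec A.1 x

theorem EC.sv (hσ : ∀ x, σ (bar x) = bar (σ x)) {e w : Fin N → F} {k : F} :
    EC (sv σ e) (sv σ w) (σ k) ↔ EC e w k := by
  rw [EC, EC, hf_sv hσ, hf_sv hσ, hf_sv hσ, ← hσ, ← map_add, ← map_neg, map_eq_zero,
    map_eq_zero, EmbeddingLike.apply_eq_iff_eq]

theorem mapU_E (hσ : ∀ x, σ (bar x) = bar (σ x)) (e w : Fin N → F) (k : F) :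
    mapU hσ (E e w k) = E (sv σ e) (sv σ w) (σ k) := by
  by_cases H : EC e w k
  · apply su_ext
    intro x
    rw [← sv_symm σ x, ap_mapU, ap_E H, ap_E ((EC.sv hσ).mpr H), hf_sv hσ, hf_sv hσ, sv_add,
      sv_sub, sv_add, sv_smul, sv_smul, sv_smul, map_mul]
  · have H' : ¬ EC (MP7fH.sv σ e) (MP7fH.sv σ w) (σ k) := fun h => H ((EC.sv hσ).mp h)
    rw [E, dif_neg H, E, dif_neg H', map_one]

theorem mapU_T (hσ : ∀ x, σ (bar x) = bar (σ x)) (v : Fin N → F) (t : F) :
    mapU hσ (T v t) = T (sv σ v) (σ t) := by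
  rw [T, mapU_E, sv_zero]
  rfl

theorem Sk.map (hσ : ∀ x, σ (bar x) = bar (σ x)) {t : F} (ht : Sk t) : Sk (σ t) := by
  rw [Sk, ← hσ, ht, map_neg]

end map

section diag

/-- Diagonal unitary matrices. -/
theorem exists_diag (d : Fin N → F) (hd : ∀ a, d a * bar (d (Fin.rev a)) = 1) :
    ∃ D : UU N F, ∀ i, au D (bb i : Fin N → F) = d i • (bb i : Fin N → F) := by
  obtain ⟨D, hD⟩ := exists_frame (fun i => d i • (bb i : Fin N → F)) (by
    intro i j
    rw [hf_smul_left, hf_smul_right, hf_bb]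
    split_ifs with h
    · rw [h, mul_one, hd]
    · rw [mul_zero, mul_zero])
  exact ⟨D, hD⟩

theorem au_diag {d : Fin N → F} {D : UU N F}
    (hD : ∀ i, au D (bb i : Fin N → F) = d i • (bb i : Fin N → F))
    (x : Fin N → F) : au D x = fun a => d a * x a := by
  have h : Matrix.mulVecLin D.1.1 = LinearMap.pi (fun a => d a • LinearMap.proj a) := by
    apply lin_ext
    intro i
    change au D (bb i) = _
    rw [hD]
    funext a
    change d i * (bb i : Fin N → F) a = d a * (bb i : Fin N → F) a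
    rw [bb_apply]
    split_ifs with h
    · rw [h]
    · rw [mul_zero, mul_zero]
  exact congrArg (fun f => f x) h

end diag

section

variable {β : PSU N F ≃* PSU N F} {S : F → F} {κ : Fin N → F}

/-- The semilinear map which belongs to a normalized automorphism. -/
theorem Nm.exists_diag [Finite F] (h4 : 4 ≤ N) (h : Nm β S κ) :
    ∃ (σ : F ≃+* F) (_ : ∀ x, σ (bar x) = bar (σ x)) (d : Fin N → F),
      (∀ a, a ≠ Fin.rev a → d a * bar (d (Fin.rev a)) = 1) ∧
      (∀ i, i ≠ Fin.rev i → ∀ t, Sk t →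
        β (mkU N F (T (bb i) t)) = mkU N F (T (d i • bb i) (σ t))) ∧
      (∀ k, k < Fin.rev k → k ≠ ⟨0, by omega⟩ → ∀ m : F,
        β (mkU N F (E (bb ⟨0, by omega⟩) (m • bb k) 0)) =
          mkU N F (E (d ⟨0, by omega⟩ • bb ⟨0, by omega⟩) ((σ m * d k) • bb k) 0)) ∧
      ∀ t, Sk t → S t * σ th = S th * σ t := by
  have h3 : 3 ≤ N := by omega
  set o : Fin N := ⟨0, by omega⟩ with ho'
  set i1 : Fin N := ⟨1, by omega⟩ with hi1'
  have hro : (Fin.rev o).val = N - 1 := by rw [Fin.val_rev]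
  have holt : o < Fin.rev o := by
    rw [Fin.lt_def, hro]
    simp only [ho']
    omega
  have hi1lt : i1 < Fin.rev i1 := by
    rw [Fin.lt_def, Fin.val_rev]
    simp only [hi1']
    omega
  have ho : o ≠ Fin.rev o := holt.ne
  have hi1 : i1 ≠ Fin.rev i1 := hi1lt.ne
  have h1o : i1 ≠ o := by
    intro h
    have := congrArg Fin.val h
    simp [hi1', ho'] at this
  have hfo : ∀ k : Fin N, k < Fin.rev k → k ≠ Fin.rev o := by
    rintro k hk rfl
    rw [Fin.rev_rev] at hk
    exact absurd hk (not_lt_of_gt holt)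
  obtain ⟨ρ1, σ, hρ1, hσ, hσ1, hσS, hn1⟩ := h.exists_sigma h3 ho hi1 h1o (hfo i1 hi1lt)
  have hth : (th : F) ≠ 0 := th_ne
  have hσt : σ th ≠ 0 := fun h0 => hth ((map_eq_zero σ).mp h0)
  have hSt : S th ≠ 0 := (h.bs o ho).2.S_ne_zero h3 (bb_iso ho) (bb_ne_zero o) Sk.th th_ne
  have hS : ∀ t, Sk t → Sk (S t) := fun t ht => h.skS ho ht
  -- the other root groups
  have hall : ∀ k, k < Fin.rev k → k ≠ o → ∃ ρ : F, ρ ≠ 0 ∧
      (∀ m, β (mkU N F (E (bb o) (m • bb k) 0)) = mkU N F (E (bb o) ((ρ * σ m) • bb k) 0)) ∧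
      nr ρ * σ th ^ 2 = nr (κ o) * nr (κ k) * S th ^ 2 := by
    intro k hk hko
    obtain ⟨ρ, σ', hρ, -, hσ', -, hn⟩ := h.exists_sigma h3 ho hk.ne hko (hfo k hk)
    by_cases hk1 : k = i1
    · subst hk1
      exact ⟨ρ1, hρ1, hσ1, hn1⟩
    · have hk1' : k ≠ Fin.rev i1 := by
        intro h'
        rw [h', Fin.rev_rev] at hk
        exact absurd hk (not_lt_of_gt hi1lt)
      have hss : σ = σ' := h.same h3 ho hi1 hk.ne h1o (hfo i1 hi1lt) hko (hfo k hk) hk1 hk1' hρ1 hρ
        hσ1 hσ'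
      rw [hss]
      exact ⟨ρ, hρ, hσ', hn⟩
  choose! ρ hρ0 hρ hρn using hall
  set C : Fin N → F := fun i => nr (κ i) * (S th / σ th) with hC
  have hq : bar (S th / σ th) = S th / σ th := (hS _ Sk.th).div (Sk.th.map hσ)
  have hCb : ∀ i, bar (C i) = C i := by
    intro i
    rw [hC]
    simp only
    rw [map_mul, bar_nr, hq]
  have hC0 : ∀ i, i ≠ Fin.rev i → C i ≠ 0 := fun i hi =>
    mul_ne_zero (nr_ne (h.bs i hi).1) (div_ne_zero hSt hσt)
  have hCS : ∀ i t, Sk t → C i * σ t = nr (κ i) * S t := by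
    intro i t ht
    have h1 := hσS t ht
    rw [hC]
    simp only
    field_simp
    linear_combination -nr (κ i) * h1
  have hCC : ∀ i, i ≠ Fin.rev i → C i * C (Fin.rev i) = 1 := by
    intro i hi
    have h1 := h.pair h3 hi Sk.th th_ne
    have h2 := hσS (-th⁻¹) Sk.th.inv.neg
    rw [map_neg, map_inv₀] at h2
    have h5 : S (-th⁻¹) = -(S th / σ th ^ 2) := by
      field_simp
      field_simp at h2
      linear_combination h2
    rw [h5] at h1
    rw [hC]
    simp only
    field_simp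
    field_simp at h1
    linear_combination -h1
  obtain ⟨d0, hd0⟩ := norm_surj (hCb o) (hC0 o ho)
  have hd0n : d0 ≠ 0 := by
    rintro rfl
    rw [zero_mul] at hd0
    exact hC0 o ho hd0.symm
  set dd : Fin N → F := fun a => if a = o then d0 else ρ a / bar d0 with hdd
  have hddn : ∀ a, a < Fin.rev a → nr (dd a) = C a := by
    intro a ha
    by_cases hao : a = o
    · rw [hdd, hao]
      simp only [if_pos]
      exact hd0
    · rw [hdd]
      simp only [if_neg hao]
      have h1 := hρn a ha hao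
      have h2 : nr (ρ a / bar d0) = nr (ρ a) / C o := by
        rw [← hd0, nr, nr, map_div₀, bar_bar]
        have := bar_ne_zero hd0n
        field_simp
      have hCo := hC0 o ho
      rw [h2, div_eq_iff hCo, hC]
      simp only
      field_simp
      linear_combination h1
  have hdd0 : ∀ a, a < Fin.rev a → dd a ≠ 0 := by
    intro a ha h0
    have h1 := hddn a ha
    rw [h0, nr, zero_mul] at h1
    exact hC0 a ha.ne h1.symm
  set d : Fin N → F := fun a => if a < Fin.rev a then dd a else (bar (dd (Fin.rev a)))⁻¹ with hd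
  have hdlt : ∀ a, a < Fin.rev a → d a = dd a := by
    intro a ha
    rw [hd]
    simp only [if_pos ha]
  have hdgt : ∀ a, Fin.rev a < a → d a = (bar (dd (Fin.rev a)))⁻¹ := by
    intro a ha
    rw [hd]
    simp only [if_neg (not_lt_of_gt ha)]
  have hdu : ∀ a, a ≠ Fin.rev a → d a * bar (d (Fin.rev a)) = 1 := by
    intro a ha
    rcases lt_or_gt_of_ne ha with h1 | h1
    · rw [hdlt a h1, hdgt (Fin.rev a) (by rwa [Fin.rev_rev]), Fin.rev_rev, map_inv₀, bar_bar,
        mul_inv_cancel₀ (hdd0 a h1)]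
    · rw [hdgt a h1, hdlt (Fin.rev a) (by rwa [Fin.rev_rev]),
        inv_mul_cancel₀ (bar_ne_zero (hdd0 _ (by rwa [Fin.rev_rev])))]
  have hdn : ∀ a, a ≠ Fin.rev a → nr (d a) = C a := by
    intro a ha
    rcases lt_or_gt_of_ne ha with h1 | h1
    · rw [hdlt a h1, hddn a h1]
    · have h2 : Fin.rev a < Fin.rev (Fin.rev a) := by rwa [Fin.rev_rev]
      have h5 : nr ((bar (dd (Fin.rev a)))⁻¹) = (nr (dd (Fin.rev a)))⁻¹ := by
        rw [nr, nr, map_inv₀, bar_bar, mul_inv, mul_comm]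
      rw [hdgt a h1, h5, hddn _ h2]
      exact (eq_inv_of_mul_eq_one_left (hCC a ha)).symm
  refine ⟨σ, hσ, d, hdu, ?_, ?_, hσS⟩
  · intro i hi t ht
    rw [h.tr hi ht, T_smul _ (bb_iso hi) (ht.map hσ), ← hCS i t ht, ← hdn i hi]
    rfl
  · intro k hk hko m
    have hk0 : hf (bb o) (bb k : Fin N → F) = 0 := by rw [hf_bb, if_neg (hfo k hk)]
    rw [hρ k hk hko m, E_scal (bb_iso ho) (bb_iso hk.ne) hk0, hdlt o holt, hdlt k hk, hdd]
    simp only [if_pos, if_neg hko]
    have h5 : bar d0 * (σ m * (ρ k / bar d0)) = ρ k * σ m := by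
      have := bar_ne_zero hd0n
      field_simp
    rw [h5]

end

end MP7fH
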