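import Pool.Agent.Lib.MP_7f581e_ntH.Aut

/-!
Rigidity of semilinear conjugations of the special unitary groups.
-/

set_option autoImplicit false

namespace MP7fH

open Matrix

variable {F : Type*} [Field F] [HInv F] {N : ℕ}

/-- Isometries for which all isotropic vectors are eigenvectors are scalar. -/
theorem scalar_of_iso (h3 : 3 ≤ N) {g : UU N F}
    (h1 : ∀ v : Fin N → F, hf v v = 0 → ∃ c : F, au g v = c • v) :
    ∃ c : F, c ≠ 0 ∧ ∀ x, au g x = c • x := by
  set o : Fin N := ⟨0, by omega⟩ with ho
  have hro : (Fin.rev o).val = N - 1 := by rw [Fin.val_rev]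
  have hoo : o ≠ Fin.rev o := by
    intro h
    have := congrArg Fin.val h
    rw [hro] at this
    simp only [ho] at this
    omega
  have hoo' : Fin.rev o ≠ Fin.rev (Fin.rev o) := by rw [Fin.rev_rev]; exact hoo.symm
  obtain ⟨c, hc⟩ := h1 (bb o) (bb_iso hoo)
  have hc0 : c ≠ 0 := by
    rintro rfl
    apply au_ne_zero g (bb_ne_zero o)
    rw [hc, zero_smul]
  have hfo : hf (bb (Fin.rev o)) (bb o : Fin N → F) = 1 := by
    rw [hf_bb, if_pos (Fin.rev_rev o).symm]
  have hof : hf (bb o) (bb (Fin.rev o) : Fin N → F) = 1 := by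
    rw [hf_bb, if_pos rfl]
  -- isotropic basis vectors
  have h2 : ∀ i, i ≠ Fin.rev i → au g (bb i) = c • bb i := by
    intro i hi
    by_cases hio : i = o
    · rw [hio, hc]
    · obtain ⟨e, he⟩ := h1 (bb i) (bb_iso hi)
      have h4 : ∀ l : F, l ≠ 0 → hf (bb o + l • bb i) (bb o + l • bb i : Fin N → F) = 0 →
          e = c := by
        intro l hl h
        obtain ⟨d, hd⟩ := h1 _ h
        rw [au_add, au_smul, hc, he] at hd
        have h5 := congrFun hd o
        have h6 := congrFun hd i
        simp only [Pi.add_apply, Pi.smul_apply, smul_eq_mul, bb_self, bb_apply, if_neg hio,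
          if_neg (Ne.symm hio)] at h5 h6
        have h7 : l * (e - c) = 0 := by linear_combination h6 - l * h5
        exact sub_eq_zero.mp ((mul_eq_zero.mp h7).resolve_left hl)
      have h5 : e = c := by
        by_cases hir : i = Fin.rev o
        · apply h4 th th_ne
          rw [hir]
          simp only [hf_add_left, hf_add_right, hf_smul_left, hf_smul_right, bb_iso hoo,
            bb_iso hoo', hfo, hof, bar_th]
          ring
        · apply h4 1 one_ne_zero
          have h6 : hf (bb o) (bb i : Fin N → F) = 0 := by rw [hf_bb, if_neg hir]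
          simp only [hf_add_left, hf_add_right, hf_smul_left, hf_smul_right, bb_iso hoo,
            bb_iso hi, h6, hf_zero_symm h6]
          ring
      rw [he, h5]
  have h4 : ∀ i, au g (bb i) = c • bb i := by
    intro i
    by_cases hi : i = Fin.rev i
    · obtain ⟨k, hk⟩ := exists_skew_one (F := F)
      have hk0 : k ≠ 0 := by
        rintro rfl
        rw [map_zero, add_zero] at hk
        exact one_ne_zero (neg_eq_zero.mp hk.symm)
      have hio : i ≠ o := by
        rintro rfl
        exact hoo hi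
      have hir : i ≠ Fin.rev o := by
        intro h
        rw [h, Fin.rev_rev] at hi
        exact hoo hi.symm
      have e1 : hf (bb i) (bb i : Fin N → F) = 1 := by rw [hf_bb, if_pos hi]
      have e2 : hf (bb o) (bb i : Fin N → F) = 0 := by rw [hf_bb, if_neg hir]
      have e3 : hf (bb (Fin.rev o)) (bb i : Fin N → F) = 0 := by
        rw [hf_bb, Fin.rev_rev, if_neg hio]
      have h5 : hf (bb o + bb i + k • bb (Fin.rev o)) (bb o + bb i + k • bb (Fin.rev o) :
          Fin N → F) = 0 := by
        simp only [hf_add_left, hf_add_right, hf_smul_left, hf_smul_right, bb_iso hoo,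
          bb_iso hoo', hfo, hof, e1, e2, e3, hf_zero_symm e2, hf_zero_symm e3]
        linear_combination hk
      obtain ⟨d, hd⟩ := h1 _ h5
      rw [au_add, au_add, au_smul, hc, h2 _ hoo'] at hd
      have h6 : au g (bb i) = ((d - c) • bb o + ((d - c) * k) • bb (Fin.rev o)) + d • bb i := by
        have h7 := sub_eq_zero.mpr hd
        rw [← sub_eq_zero, ← h7]
        module
      have h7 := au_hf g (bb i) (bb o)
      rw [h6, hc] at h7
      simp only [hf_add_left, hf_smul_left, hf_smul_right, bb_iso hoo, hfo,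
        hf_zero_symm e2] at h7
      have h8 : (d - c) * (k * bar c) = 0 := by linear_combination h7
      have h9 : d = c := by
        rcases mul_eq_zero.mp h8 with h10 | h10
        · exact sub_eq_zero.mp h10
        · exact absurd h10 (mul_ne_zero hk0 (bar_ne_zero hc0))
      rw [h6, h9, sub_self]
      module
    · exact h2 i hi
  refine ⟨c, hc0, fun x => ?_⟩
  have hlin : au g x = ∑ i, x i • au g (bb i) := by
    conv_lhs => rw [sum_bb x]
    change Matrix.mulVec _ _ = _
    rw [Matrix.mulVec_sum]
    apply Finset.sum_congr rfl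
    intro i _
    exact au_smul g _ _
  rw [hlin]
  conv_rhs => rw [sum_bb x, Finset.smul_sum]
  apply Finset.sum_congr rfl
  intro i _
  rw [h4, smul_comm]

/-- The unitary matrix of a special unitary matrix. -/
def toUU (h : SU N F) : UU N F := ⟨SpecialLinearGroup.toGL h.1, h.2⟩

theorem au_toUU (h : SU N F) (x : Fin N → F) : au (toUU h) x = ap h x := rfl

/-- **Rigidity.** -/
theorem rig_vec (h3 : 3 ≤ N) {M : UU N F} {h : SU N F} {σ : F ≃+* F}
    (hσ : ∀ x, σ (bar x) = bar (σ x))
    (H : ∀ A : SU N F, mkU N F (cjU M (mapU hσ A)) = mkU N F (h * A * h⁻¹)) :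
    σ = RingEquiv.refl F ∧ ∃ k : F, ∀ x, au M x = k • ap h x := by
  set g : UU N F := (toUU h)⁻¹ * M with hg
  have hgM : ∀ x, au M x = ap h (au g x) := by
    intro x
    rw [← au_toUU, hg, au_mul, au_au_inv]
  have h1 : ∀ v : Fin N → F, hf v v = 0 → ∃ c : F, au g (sv σ v) = c • v := by
    intro v hv
    by_cases hv0 : v = 0
    · exact ⟨1, by rw [hv0, sv_zero, au_zero, smul_zero]⟩
    · have hsv : hf (sv σ v) (sv σ v) = 0 := by rw [hf_sv hσ, hv, map_zero]
      have hsv0 : sv σ v ≠ 0 := by
        intro h0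
        apply hv0
        funext i
        exact (map_eq_zero σ).mp (congrFun h0 i)
      have h2 := H (T v th)
      rw [mapU_T, cjU_T, conj_T] at h2
      have h4 := mkT_eq h3 (by rw [au_hf, hsv]) (by rw [ap_hf, hv]) (Sk.map hσ Sk.th) Sk.th h2
      obtain ⟨c, -, hc, -⟩ := T_eq (by rw [au_hf, hsv]) (au_ne_zero M hsv0)
        (by rw [ap_hf, hv]) (Sk.map hσ Sk.th) Sk.th ((map_ne_zero σ).mpr th_ne) h4
      refine ⟨c, ?_⟩
      rw [hgM, ← ap_smul] at hc
      exact ap_inj h hc
  have hhf : ∀ x y, hf (au g (sv σ x)) (au g (sv σ y)) = σ (hf x y) := by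
    intro x y
    rw [au_hf, hf_sv hσ]
  set o : Fin N := ⟨0, by omega⟩ with ho
  set m : Fin N := ⟨1, by omega⟩ with hm
  have hro : (Fin.rev o).val = N - 1 := by rw [Fin.val_rev]
  have hrm : (Fin.rev m).val = N - 2 := by rw [Fin.val_rev]
  have hoo : o ≠ Fin.rev o := by
    intro h
    have := congrArg Fin.val h
    rw [hro] at this
    simp only [ho] at this
    omega
  have hoo' : Fin.rev o ≠ Fin.rev (Fin.rev o) := by rw [Fin.rev_rev]; exact hoo.symm
  have hmo : m ≠ o := by
    intro h
    have := congrArg Fin.val h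
    simp only [ho, hm] at this
    omega
  have hmr : m ≠ Fin.rev o := by
    intro h
    have := congrArg Fin.val h
    rw [hro] at this
    simp only [hm] at this
    omega
  have hfo : hf (bb (Fin.rev o)) (bb o : Fin N → F) = 1 := by
    rw [hf_bb, if_pos (Fin.rev_rev o).symm]
  have hof : hf (bb o) (bb (Fin.rev o) : Fin N → F) = 1 := by
    rw [hf_bb, if_pos rfl]
  have e2 : hf (bb o) (bb m : Fin N → F) = 0 := by rw [hf_bb, if_neg hmr]
  have e3 : hf (bb (Fin.rev o)) (bb m : Fin N → F) = 0 := by
    rw [hf_bb, Fin.rev_rev, if_neg hmo]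
  obtain ⟨c0, hc0⟩ := h1 (bb o) (bb_iso hoo)
  obtain ⟨c2, hc2⟩ := h1 (bb (Fin.rev o)) (bb_iso hoo')
  rw [sv_bb] at hc0 hc2
  have hc0' : c0 ≠ 0 := by
    rintro rfl
    apply au_ne_zero g (bb_ne_zero o)
    rw [hc0, zero_smul]
  have hc2' : c2 ≠ 0 := by
    rintro rfl
    apply au_ne_zero g (bb_ne_zero (Fin.rev o))
    rw [hc2, zero_smul]
  have hmm : ∃ c1 : F, au g (bb m) = c1 • bb m := by
    by_cases hmi : m = Fin.rev m
    · have hN : N = 3 := by
        have := congrArg Fin.val hmi
        rw [hrm] at this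
        simp only [hm] at this
        omega
      refine ⟨au g (bb m) m, ?_⟩
      have e4 : hf (au g (bb m)) (bb o) = 0 := by
        have h5 := hhf (bb m) (bb o)
        rw [sv_bb, sv_bb, hc0, hf_smul_right, hf_zero_symm e2, map_zero] at h5
        exact (mul_eq_zero.mp h5).resolve_left (bar_ne_zero hc0')
      have e5 : hf (au g (bb m)) (bb (Fin.rev o)) = 0 := by
        have h5 := hhf (bb m) (bb (Fin.rev o))
        rw [sv_bb, sv_bb, hc2, hf_smul_right, hf_zero_symm e3, map_zero] at h5
        exact (mul_eq_zero.mp h5).resolve_left (bar_ne_zero hc2')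
      rw [hf_bb_right] at e4 e5
      rw [Fin.rev_rev] at e5
      funext a
      rw [Pi.smul_apply, bb_apply]
      by_cases ha : a = m
      · rw [if_pos ha, ha, smul_eq_mul, mul_one]
      · rw [if_neg ha, smul_zero]
        have h6 : a = o ∨ a = Fin.rev o := by
          have h7 : a.val < N := a.2
          have h8 : a.val ≠ 1 := fun h => ha (Fin.ext h)
          by_cases h9 : a.val = 0
          · exact Or.inl (Fin.ext h9)
          · right
            apply Fin.ext
            rw [hro]
            omega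
        rcases h6 with h6 | h6
        · rw [h6]; exact e5
        · rw [h6]; exact e4
    · obtain ⟨c, hc⟩ := h1 (bb m) (bb_iso hmi)
      rw [sv_bb] at hc
      exact ⟨c, hc⟩
  obtain ⟨c1, hc1⟩ := hmm
  have hl : ∀ l : F, σ l * c1 = c0 * l := by
    intro l
    obtain ⟨k, hk⟩ := tr_surj (F := F) (c := -hf (l • bb m) (l • bb m : Fin N → F)) (by
      rw [map_neg, hf_swap])
    have h5 : hf (bb o + l • bb m + k • bb (Fin.rev o)) (bb o + l • bb m + k • bb (Fin.rev o) :
        Fin N → F) = 0 := by
      rw [hf_smul_left, hf_smul_right] at hk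
      simp only [hf_add_left, hf_add_right, hf_smul_left, hf_smul_right, bb_iso hoo,
        bb_iso hoo', hfo, hof, e2, e3, hf_zero_symm e2, hf_zero_symm e3]
      linear_combination hk
    obtain ⟨d, hd⟩ := h1 _ h5
    rw [sv_add, sv_add, sv_smul, sv_smul, sv_bb, sv_bb, sv_bb, au_add, au_add, au_smul, au_smul,
      hc0, hc1, hc2] at hd
    have h6 := congrFun hd o
    have h7 := congrFun hd m
    simp only [Pi.add_apply, Pi.smul_apply, smul_eq_mul, bb_self, bb_apply, if_neg hmo,
      if_neg (Ne.symm hmo), if_neg hmr, if_neg hoo, mul_one, mul_zero, add_zero, zero_add] at h6 h7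
    rw [h7, h6]
  have h11 := hl 1
  rw [map_one, one_mul, mul_one] at h11
  have hσ1 : ∀ l, σ l = l := by
    intro l
    have h5 := hl l
    rw [h11, mul_comm c0] at h5
    exact mul_right_cancel₀ hc0' h5
  refine ⟨RingEquiv.ext hσ1, ?_⟩
  have hsv : ∀ v : Fin N → F, sv σ v = v := fun v => funext fun i => hσ1 _
  obtain ⟨c, -, hc⟩ := scalar_of_iso h3 (g := g) (fun v hv => by
    obtain ⟨c, hc⟩ := h1 v hv
    rw [hsv] at hc
    exact ⟨c, hc⟩)
  exact ⟨c, fun x => by rw [hgM, hc, ap_smul]⟩

end MP7fH
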