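import Pool.Agent.Lib.MP_7f581e_ntH.AutPSU
import Pool.Agent.Lib.MP_7f581e_ntH.Rig
import Pool.Agent.Lib.MP_7f581e_ntL.Y1

/-!
Automorphisms and rigidity of the projective special unitary group of the antidiagonal form.
-/

set_option autoImplicit false

namespace MP7fH

open Matrix MP7fY

/-- The antidiagonal matrix. -/
def Jm (N : ℕ) (F : Type*) [Field F] : Matrix (Fin N) (Fin N) F :=
  fun i j => if j = Fin.rev i then 1 else 0

section J

variable {F : Type*} [Field F] {N : ℕ}

theorem Jm_apply (i j : Fin N) : Jm N F i j = if j = Fin.rev i then 1 else 0 := rfl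

theorem Jm_herm (s : F →+* F) : ((Jm N F).map s)ᵀ = Jm N F := by
  ext i j
  rw [transpose_apply, map_apply, Jm_apply, Jm_apply]
  by_cases h : j = Fin.rev i
  · rw [if_pos h, if_pos (by rw [h, Fin.rev_rev]), map_one]
  · rw [if_neg h, if_neg (fun h' => h (by rw [h', Fin.rev_rev])), map_zero]

theorem Jm_map (σ : F ≃+* F) : (Jm N F).map σ = Jm N F := by
  ext i j
  rw [map_apply, Jm_apply]
  split_ifs
  · exact map_one σ
  · exact map_zero σ

theorem Jm_sq : Jm N F * Jm N F = 1 := by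
  ext i j
  rw [mul_apply, Finset.sum_eq_single (Fin.rev i)]
  · rw [Jm_apply, Jm_apply, if_pos rfl, one_mul, Fin.rev_rev, one_apply]
    by_cases h : i = j
    · rw [if_pos h, if_pos h.symm]
    · rw [if_neg h, if_neg (Ne.symm h)]
  · intro b _ hb
    rw [Jm_apply, if_neg hb, zero_mul]
  · intro h
    exact absurd (Finset.mem_univ _) h

theorem Jm_det : (Jm N F).det ≠ 0 := by
  intro h
  have h1 : (Jm N F * Jm N F).det = 1 := by rw [Jm_sq, det_one]
  rw [det_mul, h, mul_zero] at h1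
  exact zero_ne_one h1

end J

section bar

variable {F : Type*} [Field F] [HInv F] {N : ℕ}

/-- Preservation of the antidiagonal form. -/
theorem J_iff (M : Matrix (Fin N) (Fin N) F) :
    (M.map (bar : F →+* F))ᵀ * Jm N F * M = Jm N F ↔
      ∀ x y, hf (M *ᵥ x) (M *ᵥ y) = hf x y := by
  have h0 : ∀ x y : Fin N → F, hf x y = (fun i => bar (y i)) ⬝ᵥ (Jm N F *ᵥ x) := by
    intro x y
    rw [hf, dotProduct, ← Equiv.sum_comp Fin.revPerm]
    apply Finset.sum_congr rfl
    intro i _
    rw [Fin.revPerm_apply, Fin.rev_rev, mul_comm]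
    congr 1
    rw [mulVec, dotProduct, Finset.sum_eq_single (Fin.rev i)]
    · rw [Jm_apply, if_pos rfl, one_mul]
    · intro b _ hb
      rw [Jm_apply, if_neg hb, zero_mul]
    · intro h
      exact absurd (Finset.mem_univ _) h
  have h1 : ∀ x y : Fin N → F, hf (M *ᵥ x) (M *ᵥ y) =
      (fun i => bar (y i)) ⬝ᵥ (((M.map (bar : F →+* F))ᵀ * Jm N F * M) *ᵥ x) := by
    intro x y
    rw [h0, ← mulVec_mulVec, ← mulVec_mulVec, dotProduct_mulVec _ (M.map (bar : F →+* F))ᵀ,
      vecMul_transpose]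
    congr 1
    funext i
    exact RingHom.map_mulVec (bar : F →+* F) M y i
  constructor
  · intro h x y
    rw [h1, h, h0]
  · intro h
    have hb : ∀ i : Fin N, (fun k => bar ((bb i : Fin N → F) k)) = Pi.single i 1 := by
      intro i
      funext k
      rw [bb_apply, Pi.single_apply]
      split_ifs
      · exact map_one bar
      · exact map_zero bar
    ext i j
    have h2 := h (bb j) (bb i)
    rw [h1, hf_bb, hb, bb, mulVec_single_one, single_one_dotProduct] at h2
    rw [Jm_apply]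
    refine h2.trans ?_
    by_cases h : j = Fin.rev i
    · rw [if_pos h, if_pos (by rw [h, Fin.rev_rev])]
    · rw [if_neg h, if_neg (fun h' => h (by rw [h', Fin.rev_rev]))]

/-- The special unitary groups agree. -/
def isoJ : SU N F ≃* SG (bar : F →+* F) (Jm N F) where
  toFun A := ⟨SpecialLinearGroup.toGL A.1, (J_iff _).mpr A.2, A.1.2⟩
  invFun g := ⟨⟨g.1.1, g.2.2⟩, (J_iff _).mp g.2.1⟩
  left_inv A := rfl
  right_inv g := by
    apply Subtype.ext
    apply Units.ext
    rfl
  map_mul' A B := by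
    apply Subtype.ext
    apply Units.ext
    rfl

theorem isoJ_coe (A : SU N F) : (isoJ A).1.1 = A.1.1 := rfl

/-- The projective special unitary groups agree. -/
def isoPJ : PSU N F ≃* PSG (bar : F →+* F) (Jm N F) :=
  QuotientGroup.congr _ _ isoJ (by
    ext x
    constructor
    · rintro ⟨y, hy, rfl⟩
      rw [Subgroup.mem_center_iff]
      intro g
      obtain ⟨h, rfl⟩ := isoJ.surjective g
      change isoJ h * isoJ y = isoJ y * isoJ h
      rw [← map_mul, Subgroup.mem_center_iff.mp hy, map_mul]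
    · intro hx
      refine ⟨isoJ.symm x, ?_, isoJ.apply_symm_apply x⟩
      change isoJ.symm x ∈ Subgroup.center (SU N F)
      rw [Subgroup.mem_center_iff]
      intro g
      apply isoJ.injective
      rw [map_mul, map_mul, isoJ.apply_symm_apply, Subgroup.mem_center_iff.mp hx])

theorem isoPJ_mk (A : SU N F) : isoPJ (mkU N F A) = mk bar (Jm N F) (isoJ A) := rfl

theorem autP_bar [Finite F] [IsSimpleGroup (PSG (bar : F →+* F) (Jm N F))] (h4 : 4 ≤ N) :
    AutP (bar : F →+* F) (Jm N F) := by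
  intro α
  haveI : IsSimpleGroup (PSU N F) := (isoPJ (N := N) (F := F)).isSimpleGroup
  obtain ⟨g, σ, hσ, hα⟩ := aut_psu h4 ((isoPJ.trans α).trans isoPJ.symm)
  refine ⟨g.1, (J_iff _).mpr g.2, σ, ?_⟩
  intro A B hAB
  obtain ⟨A, rfl⟩ := isoJ.surjective A
  obtain ⟨B, rfl⟩ := isoJ.surjective B
  have h1 := hα A
  have h2 : B = cjU g (mapU hσ A) := by
    apply Subtype.ext
    apply Subtype.ext
    exact hAB
  rw [← isoPJ_mk, ← isoPJ_mk, h2, ← h1]
  exact (isoPJ.apply_symm_apply _).symm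

theorem rigP_bar (h3 : 3 ≤ N) (hcomm : ∀ σ : F ≃+* F, ∀ x : F, σ (bar x) = bar (σ x)) :
    RigP (bar : F →+* F) (Jm N F) := by
  intro M hM h σ H
  obtain ⟨h, rfl⟩ := isoJ.surjective h
  set M' : UU N F := ⟨M, (J_iff _).mp hM⟩ with hM'
  have h1 := rig_vec h3 (M := M') (h := h) (hcomm σ) (by
    intro A
    have h2 := H (isoJ A) (isoJ (cjU M' (mapU (hcomm σ) A))) rfl
    apply isoPJ.injective
    rw [isoPJ_mk, h2, isoPJ_mk, map_mul isoJ, map_mul isoJ, map_inv isoJ])
  obtain ⟨h1, k, hk⟩ := h1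
  refine ⟨h1, k, ?_⟩
  apply Matrix.mulVec_injective
  funext x
  rw [smul_mulVec]
  exact hk x

end bar

/-- **Automorphisms of the projective special unitary groups.** -/
theorem autP_J {F : Type*} [Field F] [Finite F] {N : ℕ} (s : F →+* F) (hs : ∀ x, s (s x) = x)
    (hne : ∃ x, s x ≠ x) [h : IsSimpleGroup (PSG s (Jm N F))] (h4 : 4 ≤ N) :
    AutP s (Jm N F) :=
  @autP_bar F _ ⟨s, hs, hne⟩ N _ h h4

/-- **Rigidity of the projective special unitary groups.** -/
theorem rigP_J {F : Type*} [Field F] {N : ℕ} (s : F →+* F) (hs : ∀ x, s (s x) = x)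
    (hne : ∃ x, s x ≠ x) (h3 : 3 ≤ N) (hcomm : ∀ σ : F ≃+* F, ∀ x : F, σ (s x) = s (σ x)) :
    RigP s (Jm N F) :=
  @rigP_bar F _ ⟨s, hs, hne⟩ N h3 hcomm

end MP7fH
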