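import Pool.Agent.Lib.MP_7f581e_ntH.Aut

/-!
Every automorphism of a simple group `PSU(N, F)`, `F` finite, `4 ≤ N`, is induced by the product
of a conjugation by a unitary matrix and a field automorphism.
-/

set_option autoImplicit false

namespace MP7fH

open Matrix

variable {F : Type*} [Field F] [HInv F] {N : ℕ}

section

variable {β : PSU N F ≃* PSU N F} {S : F → F} {κ : Fin N → F}

/-- The subgroup where the automorphism is induced by a semilinear map. -/
def Hq (β : PSU N F ≃* PSU N F) (D : UU N F) {σ : F ≃+* F} (hσ : ∀ x, σ (bar x) = bar (σ x)) :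
    Subgroup (SU N F) :=
  MonoidHom.eqLocus ((β : PSU N F →* PSU N F).comp (mkU N F))
    ((mkU N F).comp ((cjU D : SU N F →* SU N F).comp (mapU hσ)))

theorem mem_Hq {D : UU N F} {σ : F ≃+* F} {hσ : ∀ x, σ (bar x) = bar (σ x)} {A : SU N F} :
    A ∈ Hq β D hσ ↔ β (mkU N F A) = mkU N F (cjU D (mapU hσ A)) := Iff.rfl

theorem T_zero_vec (t : F) : T (0 : Fin N → F) t = 1 := by
  by_cases H : EC (0 : Fin N → F) 0 t
  · apply su_ext
    intro x
    rw [T, ap_E H, ap_one]
    simp
  · rw [T, E, dif_neg H]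

theorem Nm.final [Finite F] (h4 : 4 ≤ N) (h : Nm β S κ) :
    ∃ (g : UU N F) (σ : F ≃+* F) (hσ : ∀ x, σ (bar x) = bar (σ x)), ∀ v, hf v v = 0 → ∀ t, Sk t →
      β (mkU N F (T v t)) = mkU N F (cjU g (mapU hσ (T v t))) := by
  obtain ⟨σ, hσ, d, hdu, hdT, hdE, hσS⟩ := h.exists_diag h4
  have h3 : 3 ≤ N := by omega
  set o : Fin N := ⟨0, by omega⟩ with ho'
  set i1 : Fin N := ⟨1, by omega⟩ with hi1'
  have hro : (Fin.rev o).val = N - 1 := by rw [Fin.val_rev]
  have holt : o < Fin.rev o := by
    rw [Fin.lt_def, hro]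
    simp only [ho']
    omega
  have hi1lt : i1 < Fin.rev i1 := by
    rw [Fin.lt_def, Fin.val_rev]
    simp only [hi1']
    omega
  have ho : o ≠ Fin.rev o := holt.ne
  have hi1 : i1 ≠ Fin.rev i1 := hi1lt.ne
  have h1o : i1 ≠ o := by
    intro h
    have := congrArg Fin.val h
    simp [hi1', ho'] at this
  have hfo : ∀ k : Fin N, k < Fin.rev k → k ≠ Fin.rev o := by
    rintro k hk rfl
    rw [Fin.rev_rev] at hk
    exact absurd hk (not_lt_of_gt holt)
  have h1o' : i1 ≠ Fin.rev o := hfo i1 hi1lt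
  have hth : (th : F) ≠ 0 := th_ne
  have hσt : σ th ≠ 0 := fun h0 => hth ((map_eq_zero σ).mp h0)
  have hSt : S th ≠ 0 := (h.bs o ho).2.S_ne_zero h3 (bb_iso ho) (bb_ne_zero o) Sk.th th_ne
  have hS : ∀ t, Sk t → Sk (S t) := fun t ht => h.skS ho ht
  have hd0 : ∀ a, a ≠ Fin.rev a → d a ≠ 0 := fun a ha h0 => by
    have := hdu a ha
    rw [h0, zero_mul] at this
    exact zero_ne_one this
  -- the diagonal matrices
  let dd : F → Fin N → F := fun e a => if a = Fin.rev a then e else d a
  have hdd : ∀ e : F, e * bar e = 1 → ∃ D : UU N F,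
      ∀ i, au D (bb i : Fin N → F) = dd e i • (bb i : Fin N → F) := by
    intro e he
    apply MP7fH.exists_diag
    intro a
    by_cases ha : a = Fin.rev a
    · simp only [dd, if_pos ha, Fin.rev_rev, if_pos ha.symm]
      exact he
    · simp only [dd, if_neg ha, if_neg (rev_ne ha)]
      exact hdu a ha
  have hG : ∀ (e : F) (D : UU N F), (∀ i, au D (bb i : Fin N → F) = dd e i • (bb i : Fin N → F)) →
      Gn (Hq β D hσ) o := by
    intro e D hD
    apply gn_of ho
    · intro i hi t ht
      rw [mem_Hq, hdT i hi t ht, mapU_T, cjU_T, sv_bb, hD]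
      simp only [dd, if_neg hi]
    · intro k hk hko _ m
      rw [mem_Hq, hdE k hk hko m, mapU_E, cjU_E, sv_smul, sv_bb, sv_bb, au_smul, hD, hD, map_zero]
      simp only [dd, if_neg ho, if_neg hk.ne, smul_smul]
  -- vectors without middle coordinate
  have hmd : ∀ (e : F) (D : UU N F), (∀ i, au D (bb i : Fin N → F) = dd e i • (bb i : Fin N → F)) →
      ∀ v, hf v v = 0 → md v = 0 → ∀ t, Sk t → T v t ∈ Hq β D hσ := by
    intro e D hD v hv hmv t ht
    by_cases hv0 : v = 0
    · rw [hv0, T_zero_vec]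
      exact one_mem _
    obtain ⟨i, hi⟩ : ∃ i, v i ≠ 0 := by
      by_contra hcon
      push Not at hcon
      exact hv0 (funext hcon)
    have hir : i ≠ Fin.rev i := by
      intro h'
      have := congrFun hmv i
      rw [md, if_pos h'] at this
      exact hi this
    have h1 := rch_all ho (hG e D hD) hi1 h1o h1o' hir hi (c := 0) (by
      rw [hmv, zero_smul, add_zero, add_zero, bb_iso ho, hv])
    rw [hmv, zero_smul, add_zero, add_zero] at h1
    exact T_mem_of h1 ((hG e D hD).hT o ho t ht)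
  by_cases hm : ∃ m : Fin N, m = Fin.rev m
  · obtain ⟨m, hm⟩ := hm
    have hmo : m ≠ o := ne_of_mid ho hm
    have hmo' : m ≠ Fin.rev o := ne_of_mid (rev_ne ho) hm
    obtain ⟨c, hc⟩ := exists_skew_one (F := F)
    have e1 : hf (bb o) (bb (Fin.rev o) : Fin N → F) = 1 := by rw [hf_bb, if_pos rfl]
    have e2 : hf (bb (Fin.rev o)) (bb o : Fin N → F) = 1 := by
      rw [hf_bb, if_pos (Fin.rev_rev o).symm]
    have e3 : hf (bb o) (bb m : Fin N → F) = 0 := by rw [hf_bb, if_neg hmo']
    have e4 : hf (bb (Fin.rev o)) (bb m : Fin N → F) = 0 := by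
      rw [hf_bb, Fin.rev_rev, if_neg hmo]
    have e5 : hf (bb m) (bb m : Fin N → F) = 1 := by rw [hf_bb, if_pos hm]
    set v0 : Fin N → F := bb o + c • bb (Fin.rev o) + bb m with hv0
    have hv0i : hf v0 v0 = 0 := by
      rw [hv0]
      simp only [hf_add_left, hf_add_right, hf_smul_left, hf_smul_right, e1, e2, e3, e4, e5,
        hf_zero_symm e3, hf_zero_symm e4, bb_iso ho, bb_iso (rev_ne ho)]
      linear_combination hc
    have hv0n : v0 ≠ 0 := by
      intro h'
      have := congrFun h' o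
      rw [hv0, Pi.add_apply, Pi.add_apply, Pi.smul_apply, bb_self, bb_apply, bb_apply, if_neg ho,
        if_neg hmo.symm] at this
      simp at this
    obtain ⟨D1, hD1⟩ := hdd 1 (by rw [map_one, mul_one])
    obtain ⟨w0, hw0⟩ := h.im v0 hv0n hv0i
    have hdd1 : ∀ a, dd 1 a ≠ 0 := by
      intro a
      simp only [dd]
      split_ifs with ha
      · exact one_ne_zero
      · exact hd0 a ha
    set v1 : Fin N → F := fun a => σ.symm ((dd 1 a)⁻¹ * w0 a) with hv1
    have hv1w : au D1 (sv σ v1) = w0 := by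
      rw [au_diag hD1]
      funext a
      change dd 1 a * σ (σ.symm ((dd 1 a)⁻¹ * w0 a)) = w0 a
      rw [σ.apply_symm_apply, mul_inv_cancel_left₀ (hdd1 a)]
    -- orthogonality
    have horth : ∀ w, w ≠ 0 → hf w w = 0 → md w = 0 → hf v0 w = 0 → hf v1 w = 0 := by
      intro w hw hww hmw hvw
      have h1 := hmd 1 D1 hD1 w hww hmw th Sk.th
      rw [mem_Hq, mapU_T, cjU_T] at h1
      have hw'i : hf (au D1 (sv σ w)) (au D1 (sv σ w)) = 0 := by
        rw [au_hf, hf_sv hσ, hww, map_zero]
      have hw'0 : au D1 (sv σ w) ≠ 0 := by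
        apply au_ne_zero
        intro h'
        apply hw
        funext a
        exact (map_eq_zero σ).mp (congrFun h' a)
      have h2 : hf w0 (au D1 (sv σ w)) = 0 := by
        apply hf_of_comm h3 hw'i hw0.iso hw'0 hw0.ne (Sk.th.map hσ) (hw0.sk Sk.th) hσt hSt
        rw [← h1, ← hw0.eq Sk.th, ← map_mul, ← map_mul, ← map_mul, ← map_mul,
          T_comm hww (hf_zero_symm hvw) Sk.th]
      rw [← hv1w, au_hf, hf_sv hσ] at h2
      exact (map_eq_zero σ).mp h2
    -- coordinates of `v1`
    have hmdb : ∀ i : Fin N, i ≠ Fin.rev i → md (bb i : Fin N → F) = 0 := by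
      intro i hi
      funext a
      rw [md]
      split_ifs with ha
      · rw [bb_apply, if_neg (ne_of_mid hi ha)]
        rfl
      · rfl
    have hc1 : ∀ a, a ≠ Fin.rev a → a ≠ o → a ≠ Fin.rev o → v1 a = 0 := by
      intro a ha hao hao'
      have h1 := horth (bb (Fin.rev a)) (bb_ne_zero _) (bb_iso (rev_ne ha)) (hmdb _ (rev_ne ha)) (by
        rw [hf_bb_right, Fin.rev_rev, hv0, Pi.add_apply, Pi.add_apply, Pi.smul_apply, bb_apply,
          bb_apply, bb_apply, if_neg hao, if_neg hao', if_neg (ne_of_mid ha hm).symm]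
        simp)
      rwa [hf_bb_right, Fin.rev_rev] at h1
    have hc2 : v1 (Fin.rev o) = c * v1 o := by
      have g1 : hf (bb i1) (bb (Fin.rev i1) : Fin N → F) = 1 := by rw [hf_bb, if_pos rfl]
      have g2 : hf (bb (Fin.rev i1)) (bb i1 : Fin N → F) = 1 := by
        rw [hf_bb, if_pos (Fin.rev_rev i1).symm]
      have g3 : hf (bb o) (bb i1 : Fin N → F) = 0 := by rw [hf_bb, if_neg h1o']
      have g4 : hf (bb (Fin.rev o)) (bb i1 : Fin N → F) = 0 := by
        rw [hf_bb, Fin.rev_rev, if_neg h1o]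
      have g5 : hf (bb o) (bb (Fin.rev i1) : Fin N → F) = 0 := by
        rw [hf_bb, if_neg (rev_ne_rev h1o)]
      have g6 : hf (bb (Fin.rev o)) (bb (Fin.rev i1) : Fin N → F) = 0 := by
        rw [hf_bb, Fin.rev_rev, if_neg (ne_rev h1o')]
      have g7 : hf (bb m) (bb i1 : Fin N → F) = 0 := by
        rw [hf_bb, ← hm, if_neg (ne_of_mid hi1 hm).symm]
      have g8 : hf (bb m) (bb (Fin.rev i1) : Fin N → F) = 0 := by
        rw [hf_bb, ← hm, if_neg (ne_of_mid (rev_ne hi1) hm).symm]
      set w : Fin N → F := bb o + (-bar c) • bb (Fin.rev o) + bb i1 + c • bb (Fin.rev i1) with hw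
      have hww : hf w w = 0 := by
        rw [hw]
        simp only [hf_add_left, hf_add_right, hf_smul_left, hf_smul_right, e1, e2, g1, g2, g3, g4,
          g5, g6, hf_zero_symm g3, hf_zero_symm g4, hf_zero_symm g5, hf_zero_symm g6, bb_iso ho,
          bb_iso (rev_ne ho), bb_iso hi1, bb_iso (rev_ne hi1), map_neg, bar_bar]
        ring
      have hw0' : w ≠ 0 := by
        intro h'
        have := congrFun h' o
        rw [hw, Pi.add_apply, Pi.add_apply, Pi.add_apply, Pi.smul_apply, Pi.smul_apply, bb_self,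
          bb_apply, bb_apply, bb_apply, if_neg ho, if_neg h1o.symm, if_neg (ne_rev h1o').symm]
          at this
        simp at this
      have hmw : md w = 0 := by
        funext a
        rw [md]
        split_ifs with ha
        · rw [hw, Pi.add_apply, Pi.add_apply, Pi.add_apply, Pi.smul_apply, Pi.smul_apply,
            bb_apply, bb_apply, bb_apply, bb_apply, if_neg (ne_of_mid ho ha),
            if_neg (ne_of_mid (rev_ne ho) ha), if_neg (ne_of_mid hi1 ha),
            if_neg (ne_of_mid (rev_ne hi1) ha)]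
          simp
        · rfl
      have h1 := horth w hw0' hww hmw (by
        rw [hv0, hw]
        simp only [hf_add_left, hf_add_right, hf_smul_left, hf_smul_right, e1, e2, e3, e4, g3, g4,
          g5, g6, g7, g8, hf_zero_symm e3, hf_zero_symm e4, bb_iso ho,
          bb_iso (rev_ne ho), map_neg, bar_bar]
        ring)
      rw [hw] at h1
      simp only [hf_add_right, hf_smul_right, hf_bb_right, Fin.rev_rev, map_neg, bar_bar,
        hc1 i1 hi1 h1o h1o', hc1 (Fin.rev i1) (rev_ne hi1) (ne_rev h1o') (rev_ne_rev h1o)] at h1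
      linear_combination h1
    set k := v1 o with hk
    have hv1d : v1 = k • bb o + (k * c) • bb (Fin.rev o) + v1 m • bb m := by
      funext a
      rw [Pi.add_apply, Pi.add_apply, Pi.smul_apply, Pi.smul_apply, Pi.smul_apply, bb_apply,
        bb_apply, bb_apply]
      by_cases ham : a = m
      · rw [ham, if_neg hmo, if_neg hmo', if_pos rfl]
        simp
      · have ha : a ≠ Fin.rev a := fun h' => ham (mid_unique h' hm)
        by_cases hao : a = o
        · rw [hao, if_pos rfl, if_neg ho, if_neg hmo.symm]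
          simp [hk]
        · by_cases hao' : a = Fin.rev o
          · rw [hao', if_neg ho.symm, if_pos rfl, if_neg hmo'.symm, hc2]
            simp [mul_comm]
          · rw [if_neg hao, if_neg hao', if_neg ham, hc1 a ha hao hao']
            simp
    have hv1i : hf v1 v1 = 0 := by
      have h1 := hw0.iso
      rw [← hv1w, au_hf, hf_sv hσ] at h1
      exact (map_eq_zero σ).mp h1
    have hv1i' : k * bar (k * c) + k * c * bar k + v1 m * bar (v1 m) = 0 := by
      rw [hv1d] at hv1i
      simp only [hf_add_left, hf_add_right, hf_smul_left, hf_smul_right, e1, e2, e3, e4, e5,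
        hf_zero_symm e3, hf_zero_symm e4, bb_iso ho, bb_iso (rev_ne ho)] at hv1i
      linear_combination hv1i
    have hk0 : k ≠ 0 := by
      intro h0
      rw [h0] at hv1i' hv1d
      have h1 : v1 m = 0 := by
        apply norm_zero_iff.mp
        linear_combination hv1i'
      apply hw0.ne
      rw [← hv1w, hv1d, h1]
      simp only [zero_smul, zero_mul, add_zero, sv_zero, au_zero]
    set e : F := v1 m / k with he
    have hee : e * bar e = 1 := by
      have := bar_ne_zero hk0
      rw [he, map_div₀]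
      field_simp
      rw [map_mul] at hv1i'
      linear_combination hv1i' - k * bar k * hc
    have hse : σ e * bar (σ e) = 1 := by rw [← hσ, ← map_mul, hee, map_one]
    obtain ⟨D, hD⟩ := hdd (σ e) hse
    have hv0' : au D (sv σ v0) = (σ k)⁻¹ • w0 := by
      have hσk : σ k ≠ 0 := fun h0 => hk0 ((map_eq_zero σ).mp h0)
      rw [← hv1w, au_diag hD, au_diag hD1]
      funext a
      rw [Pi.smul_apply]
      simp only [smul_eq_mul, sv]
      rw [hv1d, hv0]
      simp only [Pi.add_apply, Pi.smul_apply, smul_eq_mul, map_add, map_mul]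
      by_cases ham : a = m
      · rw [ham]
        simp only [dd, if_pos hm, bb_apply, if_neg hmo, if_neg hmo', if_pos, map_zero, map_one,
          mul_zero, zero_add, mul_one, one_mul]
        rw [he, map_div₀]
        field_simp
      · have ha : a ≠ Fin.rev a := fun h' => ham (mid_unique h' hm)
        simp only [dd, if_neg ha, bb_apply, if_neg ham, map_zero, mul_zero, add_zero]
        field_simp
    have hσk : σ k ≠ 0 := fun h0 => hk0 ((map_eq_zero σ).mp h0)
    -- the parameter
    have hbt : ∀ t, Sk t → β (mkU N F (T (bb (Fin.rev o)) t)) =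
        mkU N F (T (au D (sv σ (bb (Fin.rev o)))) (σ t)) := by
      intro t ht
      have h1 := (hG (σ e) D hD).hT _ (rev_ne ho) t ht
      rw [mem_Hq, mapU_T, cjU_T] at h1
      exact h1
    have hkn : ∀ t, Sk t → Sk (nr (σ k) * S t) := fun t ht => (hS t ht).smul (bar_nr _)
    have hw0' : ∀ t, Sk t → T w0 t = T (au D (sv σ v0)) (nr (σ k) * t) := by
      intro t ht
      rw [hv0', T_smul _ hw0.iso (ht.smul (bar_nr _))]
      congr 1
      rw [nr, map_inv₀]
      have := bar_ne_zero hσk
      field_simp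
    have hat : ∀ t, Sk t → β (mkU N F (T v0 t)) =
        mkU N F (T (au D (sv σ v0)) (nr (σ k) * S t)) := by
      intro t ht
      rw [hw0.eq ht, hw0' _ (hS t ht)]
    have hpar : ∀ t, Sk t → nr (σ k) * S t = σ t := by
      intro t ht
      by_cases ht0 : t = 0
      · rw [ht0, map_zero, (h.bs o ho).2.S_zero h3 (bb_iso ho), mul_zero]
      have f1 : hf v0 (bb (Fin.rev o)) = 1 := by
        rw [hv0, hf_add_left, hf_add_left, hf_smul_left, e1, bb_iso (rev_ne ho), hf_bb, ← hm,
          if_neg hmo'.symm]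
        ring
      have h1 := pair_eq h3 hv0i (bb_iso (rev_ne ho)) (v' := au D (sv σ v0))
        (w' := au D (sv σ (bb (Fin.rev o)))) (by rw [au_hf, hf_sv hσ, hv0i, map_zero])
        (by rw [au_hf, hf_sv hσ, bb_iso (rev_ne ho), map_zero]) f1
        (by rw [au_hf, hf_sv hσ, f1, map_one]) (a := fun t => nr (σ k) * S t)
        (b := fun t => σ t) (fun t ht => ⟨hkn t ht, hat t ht⟩)
        (fun t ht => ⟨ht.map hσ, hbt t ht⟩) (mul_ne_zero (nr_ne hσk) hSt) ht ht0
      simp only [map_neg, map_inv₀] at h1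
      have hσt' : σ t ≠ 0 := fun h0 => ht0 ((map_eq_zero σ).mp h0)
      field_simp at h1
      linear_combination -h1
    have hv0H : ∀ t, Sk t → T v0 t ∈ Hq β D hσ := by
      intro t ht
      rw [mem_Hq, mapU_T, cjU_T, hat t ht, hpar t ht]
    refine ⟨D, σ, hσ, fun v hv t ht => mem_Hq.mp ?_⟩
    by_cases hmv : md v = 0
    · exact hmd _ D hD v hv hmv t ht
    have hvm : v m ≠ 0 := by
      intro h0
      apply hmv
      rw [md_eq hm, h0, zero_smul]
    set u : Fin N → F := (v m)⁻¹ • v with hu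
    have huv : v = v m • u := by rw [hu, smul_smul, mul_inv_cancel₀ hvm, one_smul]
    have hui : hf u u = 0 := by rw [hu, hf_smul_left, hf_smul_right, hv, mul_zero, mul_zero]
    have hmu : md u = bb m := by
      rw [md_eq hm, hu, Pi.smul_apply, smul_eq_mul, inv_mul_cancel₀ hvm, one_smul]
    obtain ⟨i, hir, hi⟩ : ∃ i, i ≠ Fin.rev i ∧ u i ≠ 0 := by
      by_contra hcon
      push Not at hcon
      have h1 : u = md u := by
        funext a
        by_cases ha : a = Fin.rev a
        · rw [md, if_pos ha]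
        · rw [md, if_neg ha, hcon a ha]
      rw [h1, hmu, e5] at hui
      exact one_ne_zero hui
    have h1 := rch_all ho (hG _ D hD) hi1 h1o h1o' hir hi (c := c) (by
      rw [hmu, hui]
      exact hv0i)
    rw [hmu] at h1
    rw [huv, T_smul _ hui ht]
    exact T_mem_of h1 (hv0H _ (ht.norm _))
  · push Not at hm
    obtain ⟨D, hD⟩ := hdd 1 (by rw [map_one, mul_one])
    refine ⟨D, σ, hσ, fun v hv t ht => mem_Hq.mp ?_⟩
    apply hmd 1 D hD v hv _ t ht
    funext a
    rw [md, if_neg (hm a)]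
    rfl

end

/-- The transvections generate a simple group. -/
theorem gen_simple [IsSimpleGroup (PSU N F)] (h4 : 4 ≤ N) {K : Subgroup (PSU N F)}
    (hK : ∀ v, hf v v = 0 → ∀ t, Sk t → mkU N F (T v t) ∈ K) : K = ⊤ := by
  have ho : (⟨0, by omega⟩ : Fin N) ≠ Fin.rev ⟨0, by omega⟩ := by
    intro h
    have := congrArg Fin.val h
    rw [Fin.val_rev] at this
    simp only at this
    omega
  let R : Set (PSU N F) := {x | ∃ v t, hf v v = 0 ∧ Sk t ∧ x = mkU N F (T v t)}
  have hR : Subgroup.closure R ≤ K := by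
    rw [Subgroup.closure_le]
    rintro _ ⟨v, t, hv, ht, rfl⟩
    exact hK v hv t ht
  have hn : (Subgroup.closure R).Normal := by
    have h1 : ∀ g x, x ∈ R → g * x * g⁻¹ ∈ R := by
      rintro g _ ⟨v, t, hv, ht, rfl⟩
      obtain ⟨g, rfl⟩ := mkU_surj g
      exact ⟨ap g v, t, by rw [ap_hf, hv], ht, by rw [← conj_T, map_mul, map_mul, map_inv]⟩
    constructor
    intro x hx g
    induction hx using Subgroup.closure_induction with
    | mem x hx => exact Subgroup.subset_closure (h1 g x hx)
    | one => rw [mul_one, mul_inv_cancel]; exact one_mem _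
    | mul x y _ _ hx hy =>
      have : g * (x * y) * g⁻¹ = (g * x * g⁻¹) * (g * y * g⁻¹) := by group
      rw [this]
      exact mul_mem hx hy
    | inv x _ hx =>
      have : g * x⁻¹ * g⁻¹ = (g * x * g⁻¹)⁻¹ := by group
      rw [this]
      exact inv_mem hx
  rcases hn.eq_bot_or_eq_top with h | h
  · exfalso
    have h1 : mkU N F (T (bb ⟨0, by omega⟩) th) ∈ Subgroup.closure R :=
      Subgroup.subset_closure ⟨_, _, bb_iso ho, Sk.th, rfl⟩
    rw [h, Subgroup.mem_bot] at h1
    have h2 : mkU N F (T (bb ⟨0, by omega⟩) th) = mkU N F (T (bb ⟨0, by omega⟩) 0) := by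
      rw [h1, T_zero, map_one]
    have h5 := T_inj (bb_iso ho) (bb_ne_zero _) Sk.th Sk.zero
      (mkT_eq (by omega) (bb_iso ho) (bb_iso ho) Sk.th Sk.zero h2)
    exact th_ne h5
  · rw [eq_top_iff, ← h]
    exact hR

/-- **Automorphisms of the projective special unitary groups.** -/
theorem aut_psu [Finite F] [IsSimpleGroup (PSU N F)] (h4 : 4 ≤ N) (α : PSU N F ≃* PSU N F) :
    ∃ (g : UU N F) (σ : F ≃+* F) (hσ : ∀ x, σ (bar x) = bar (σ x)), ∀ A : SU N F,
      α (mkU N F A) = mkU N F (cjU g (mapU hσ A)) := by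
  obtain ⟨g0, S, κ, h1, h2⟩ := exists_norm h4 α
  obtain ⟨g, σ, hσ, hg⟩ := Nm.final h4 (⟨h1, h2⟩ : Nm (cj g0 α) S κ)
  have h5 : ((pm (cjU g0⁻¹)).symm : PSU N F ≃* PSU N F) = pm (cjU g0) := by
    ext x
    obtain ⟨A, rfl⟩ := mkU_surj x
    rw [MulEquiv.symm_apply_eq, pm_mk, pm_mk]
    congr 1
    have := cjU_inv g0⁻¹ A
    rw [inv_inv] at this
    exact this.symm
  refine ⟨g0 * g, σ, hσ, ?_⟩
  -- the locus where the two maps agree
  let Kq : PSU N F →* PSU N F := (((pm (cjU (g0 * g)) : PSU N F ≃* PSU N F) : PSU N F →* PSU N F))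
  have hcen : ∀ A ∈ Subgroup.center (SU N F), mkU N F (cjU (g0 * g) (mapU hσ A)) = 1 := by
    intro A hA
    rw [mkU_eq_one]
    obtain ⟨c, hc0, hc⟩ := scalar_of_center (by omega) hA
    apply center_of_scalar (c := σ c)
    intro x
    have h6 : ∀ y, ap (mapU hσ A) y = σ c • y := by
      intro y
      rw [← sv_symm σ y, ap_mapU, hc, sv_smul]
    rw [ap_cjU, h6, au_smul, au_au_inv]
  let φ : PSU N F →* PSU N F := QuotientGroup.lift (Subgroup.center (SU N F))
    ((mkU N F).comp ((cjU (g0 * g) : SU N F →* SU N F).comp (mapU hσ))) hcen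
  have hφ : ∀ A, φ (mkU N F A) = mkU N F (cjU (g0 * g) (mapU hσ A)) := fun A => rfl
  have hK : MonoidHom.eqLocus (α : PSU N F →* PSU N F) φ = ⊤ := by
    apply gen_simple h4
    intro v hv t ht
    change α (mkU N F (T v t)) = φ (mkU N F (T v t))
    rw [hφ, cjU_mul, ← pm_mk (cjU g0), ← hg v hv t ht, ← h5]
    exact ((pm (cjU g0⁻¹)).symm_apply_apply _).symm
  intro A
  rw [← hφ]
  have h6 : mkU N F A ∈ MonoidHom.eqLocus (α : PSU N F →* PSU N F) φ := hK ▸ Subgroup.mem_top _
  exact h6

end MP7fH
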