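import Mathlib

/-!
Hermitian forms (antidiagonal Gram matrix) over a field with involution, and Eichler
transformations.
-/

set_option autoImplicit false

namespace MP7fH

open Matrix

/-- Fields with a non trivial involution. -/
class HInv (F : Type*) [Field F] where
  /-- the involution -/
  s : F →+* F
  ss : ∀ x, s (s x) = x
  ne : ∃ x, s x ≠ x

section field

variable {F : Type*} [Field F] [HInv F]

/-- The involution. -/
def bar : F →+* F := HInv.s

theorem bar_bar (x : F) : bar (bar x) = x := HInv.ss x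

theorem bar_zero_iff {x : F} : bar x = 0 ↔ x = 0 := map_eq_zero bar

theorem bar_ne_zero {x : F} (h : x ≠ 0) : bar x ≠ 0 := fun h' => h (bar_zero_iff.mp h')

theorem exists_th : ∃ t : F, bar t = -t ∧ t ≠ 0 := by
  obtain ⟨x, hx⟩ := HInv.ne (F := F)
  refine ⟨x - bar x, ?_, sub_ne_zero.mpr (Ne.symm hx)⟩
  rw [map_sub, bar_bar]
  ring

/-- A skew element. -/
noncomputable def th : F := exists_th.choose

theorem bar_th : bar (th : F) = -th := exists_th.choose_spec.1

theorem th_ne : (th : F) ≠ 0 := exists_th.choose_spec.2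

theorem exists_tr_ne : ∃ y : F, y + bar y ≠ 0 := by
  by_contra hcon
  push Not at hcon
  obtain ⟨x, hx⟩ := HInv.ne (F := F)
  apply hx
  have h2 := hcon 1
  rw [map_one] at h2
  have h3 := hcon x
  change bar x = x
  have h4 : bar x = -x := by linear_combination h3
  rw [h4]
  linear_combination -x * h2

theorem tr_surj {c : F} (hc : bar c = c) : ∃ k : F, k + bar k = c := by
  obtain ⟨y, hy⟩ := exists_tr_ne (F := F)
  refine ⟨c * y / (y + bar y), ?_⟩
  rw [map_div₀, map_mul, map_add, bar_bar, hc, add_comm (bar y) y, ← add_div, ← mul_add,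
    mul_div_cancel_right₀ _ hy]

theorem bar_norm (x : F) : bar (x * bar x) = x * bar x := by
  rw [map_mul, bar_bar, mul_comm]

theorem norm_ne {x : F} (h : x ≠ 0) : x * bar x ≠ 0 := mul_ne_zero h (bar_ne_zero h)

theorem norm_zero_iff {x : F} : x * bar x = 0 ↔ x = 0 := by
  constructor
  · intro h
    by_contra h'
    exact norm_ne h' h
  · rintro rfl
    rw [zero_mul]

/-- Hilbert 90. -/
theorem hilbert90 {x : F} (hx : x * bar x = 1) : ∃ k : F, k ≠ 0 ∧ k = x * bar k := by
  have h1 : ∃ y : F, y + x * bar y ≠ 0 := by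
    by_contra hcon
    push Not at hcon
    have h2 := hcon 1
    rw [map_one, mul_one] at h2
    obtain ⟨t, ht⟩ := HInv.ne (F := F)
    apply ht
    change bar t = t
    have h3 := hcon t
    have h4 : x = -1 := by linear_combination h2
    rw [h4] at h3
    linear_combination -h3
  obtain ⟨y, hy⟩ := h1
  refine ⟨y + x * bar y, hy, ?_⟩
  rw [map_add, map_mul, bar_bar]
  linear_combination (-y) * hx

theorem norm_surj [Finite F] {a : F} (ha : bar a = a) (h0 : a ≠ 0) : ∃ k : F, k * bar k = a := by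
  classical
  let b : Fˣ →* Fˣ := Units.map ((bar : F →+* F) : F →* F)
  let Nm : Fˣ →* Fˣ := MonoidHom.mk' (fun u => u * b u) (fun u v => by
    rw [map_mul]; exact mul_mul_mul_comm _ _ _ _)
  let D : Fˣ →* Fˣ := MonoidHom.mk' (fun u => u * (b u)⁻¹) (fun u v => by
    rw [map_mul, mul_inv]; exact mul_mul_mul_comm _ _ _ _)
  have h1 : Nm.ker ≤ D.range := by
    intro u hu
    have hu' : u * b u = 1 := hu
    have h2 : (u : F) * bar (u : F) = 1 := by
      have := congrArg (Units.val) hu'
      exact this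
    obtain ⟨k, hk, hk1⟩ := hilbert90 h2
    refine ⟨Units.mk0 k hk, ?_⟩
    change Units.mk0 k hk * (b (Units.mk0 k hk))⁻¹ = u
    rw [mul_inv_eq_iff_eq_mul]
    apply Units.ext
    exact hk1
  have h3 : Nm.range ≤ D.ker := by
    rintro _ ⟨u, rfl⟩
    change u * b u * (b (u * b u))⁻¹ = 1
    rw [mul_inv_eq_one]
    apply Units.ext
    exact (bar_norm (u : F)).symm
  have h4 : Nat.card Nm.ker * Nat.card Nm.range = Nat.card Fˣ := by
    rw [← Subgroup.index_ker]
    exact Subgroup.card_mul_index _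
  have h5 : Nat.card D.ker * Nat.card D.range = Nat.card Fˣ := by
    rw [← Subgroup.index_ker]
    exact Subgroup.card_mul_index _
  have h6 : Nat.card Nm.ker ≤ Nat.card D.range := Subgroup.card_le_of_le h1
  have h7 : Nat.card D.ker ≤ Nat.card Nm.range := by
    by_contra hcon
    rw [not_le] at hcon
    have h8 : 0 < Nat.card Nm.ker := Nat.card_pos
    have h9 : 0 < Nat.card Nm.range := Nat.card_pos
    have : Nat.card Nm.ker * Nat.card Nm.range < Nat.card D.ker * Nat.card D.range :=
      calc Nat.card Nm.ker * Nat.card Nm.range < Nat.card Nm.ker * Nat.card D.ker :=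
            Nat.mul_lt_mul_of_pos_left hcon h8
        _ ≤ Nat.card D.range * Nat.card D.ker := Nat.mul_le_mul_right _ h6
        _ = _ := mul_comm _ _
    omega
  have h8 : Nm.range = D.ker := Subgroup.eq_of_le_of_card_ge h3 h7
  have h9 : Units.mk0 a h0 ∈ D.ker := by
    change Units.mk0 a h0 * (b (Units.mk0 a h0))⁻¹ = 1
    rw [mul_inv_eq_one]
    apply Units.ext
    exact ha.symm
  rw [← h8] at h9
  obtain ⟨u, hu⟩ := h9
  exact ⟨u, congrArg Units.val hu⟩

/-- Skew elements. -/
def Sk (t : F) : Prop := bar t = -t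

theorem Sk.zero : Sk (0 : F) := by rw [Sk, map_zero, neg_zero]

theorem Sk.add {s t : F} (hs : Sk s) (ht : Sk t) : Sk (s + t) := by
  rw [Sk] at *; rw [map_add, hs, ht]; ring

theorem Sk.neg {t : F} (ht : Sk t) : Sk (-t) := by
  rw [Sk] at *; rw [map_neg, ht]

theorem Sk.smul {u t : F} (hu : bar u = u) (ht : Sk t) : Sk (u * t) := by
  rw [Sk] at *; rw [map_mul, hu, ht]; ring

theorem Sk.norm {t : F} (u : F) (ht : Sk t) : Sk (u * bar u * t) := ht.smul (bar_norm u)

theorem Sk.inv {t : F} (ht : Sk t) : Sk t⁻¹ := by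
  rw [Sk] at *; rw [map_inv₀, ht, inv_neg]

theorem Sk.th : Sk (th : F) := bar_th

theorem Sk.div {s t : F} (hs : Sk s) (ht : Sk t) : bar (s / t) = s / t := by
  rw [Sk] at *; rw [map_div₀, hs, ht, neg_div_neg_eq]

theorem Sk.mul {s t : F} (hs : Sk s) (ht : Sk t) : bar (s * t) = s * t := by
  rw [Sk] at *; rw [map_mul, hs, ht, neg_mul_neg]

end field

section form

variable {F : Type*} [Field F] [HInv F] {N : ℕ}

/-- The hermitian form. -/
def hf (x y : Fin N → F) : F := ∑ i, x i * bar (y (Fin.rev i))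

theorem hf_swap (x y : Fin N → F) : bar (hf x y) = hf y x := by
  rw [hf, hf, map_sum, ← Equiv.sum_comp Fin.revPerm]
  apply Finset.sum_congr rfl
  intro i _
  rw [map_mul, bar_bar, Fin.revPerm_apply, Fin.rev_rev, mul_comm]

theorem hf_add_left (x x' y : Fin N → F) : hf (x + x') y = hf x y + hf x' y := by
  simp only [hf, Pi.add_apply, add_mul, Finset.sum_add_distrib]

theorem hf_smul_left (c : F) (x y : Fin N → F) : hf (c • x) y = c * hf x y := by
  simp only [hf, Pi.smul_apply, smul_eq_mul, Finset.mul_sum, mul_assoc]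

theorem hf_neg_left (x y : Fin N → F) : hf (-x) y = -hf x y := by
  have := hf_smul_left (-1) x y
  rwa [neg_smul, one_smul, neg_one_mul] at this

theorem hf_sub_left (x x' y : Fin N → F) : hf (x - x') y = hf x y - hf x' y := by
  rw [sub_eq_add_neg, hf_add_left, hf_neg_left, sub_eq_add_neg]

theorem hf_zero_left (y : Fin N → F) : hf 0 y = 0 := by
  have := hf_smul_left 0 0 y
  rwa [zero_smul, zero_mul] at this

theorem hf_add_right (x y y' : Fin N → F) : hf x (y + y') = hf x y + hf x y' := by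
  rw [← hf_swap, hf_add_left, map_add, hf_swap, hf_swap]

theorem hf_smul_right (c : F) (x y : Fin N → F) : hf x (c • y) = bar c * hf x y := by
  rw [← hf_swap, hf_smul_left, map_mul, hf_swap]

theorem hf_neg_right (x y : Fin N → F) : hf x (-y) = -hf x y := by
  rw [← hf_swap, hf_neg_left, map_neg, hf_swap]

theorem hf_sub_right (x y y' : Fin N → F) : hf x (y - y') = hf x y - hf x y' := by
  rw [← hf_swap, hf_sub_left, map_sub, hf_swap, hf_swap]

theorem hf_zero_right (y : Fin N → F) : hf y 0 = 0 := by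
  rw [← hf_swap, hf_zero_left, map_zero]

theorem hf_zero_symm {x y : Fin N → F} (h : hf x y = 0) : hf y x = 0 := by
  rw [← hf_swap, h, map_zero]

/-- Basis vectors. -/
def bb (i : Fin N) : Fin N → F := Pi.single i 1

theorem bb_apply (i j : Fin N) : (bb i : Fin N → F) j = if j = i then 1 else 0 := by
  rw [bb, Pi.single_apply]

theorem bb_self (i : Fin N) : (bb i : Fin N → F) i = 1 := by rw [bb_apply, if_pos rfl]

theorem bb_ne_zero (i : Fin N) : (bb i : Fin N → F) ≠ 0 := by
  intro h
  have := congrFun h i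
  rw [bb_self] at this
  exact one_ne_zero this

theorem hf_bb_left (i : Fin N) (y : Fin N → F) : hf (bb i) y = bar (y (Fin.rev i)) := by
  rw [hf, Finset.sum_eq_single i]
  · rw [bb_self, one_mul]
  · intro j _ hj
    rw [bb_apply, if_neg hj, zero_mul]
  · intro h
    exact absurd (Finset.mem_univ _) h

theorem hf_bb_right (i : Fin N) (x : Fin N → F) : hf x (bb i) = x (Fin.rev i) := by
  rw [← hf_swap, hf_bb_left, bar_bar]

theorem hf_bb (i j : Fin N) : hf (bb i : Fin N → F) (bb j) = if j = Fin.rev i then 1 else 0 := by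
  rw [hf_bb_left, bb_apply]
  by_cases h : j = Fin.rev i
  · rw [if_pos h, if_pos h.symm, map_one]
  · rw [if_neg h, if_neg (Ne.symm h), map_zero]

theorem ext_hf {x y : Fin N → F} (h : ∀ i, hf x (bb i) = hf y (bb i)) : x = y := by
  funext i
  have := h (Fin.rev i)
  rwa [hf_bb_right, hf_bb_right, Fin.rev_rev] at this

theorem eq_zero_of_hf {x : Fin N → F} (h : ∀ y, hf x y = 0) : x = 0 :=
  ext_hf fun i => by rw [h, hf_zero_left]

theorem bb_iso {i : Fin N} (h : i ≠ Fin.rev i) : hf (bb i : Fin N → F) (bb i) = 0 := by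
  rw [hf_bb, if_neg h]

theorem sum_bb (x : Fin N → F) : x = ∑ i, x i • bb i := by
  funext j
  rw [Finset.sum_apply, Finset.sum_eq_single j]
  · rw [Pi.smul_apply, bb_self, smul_eq_mul, mul_one]
  · intro i _ hi
    rw [Pi.smul_apply, bb_apply, if_neg hi.symm, smul_zero]
  · intro h
    exact absurd (Finset.mem_univ _) h

end form

section group

variable {F : Type*} [Field F] [HInv F] {N : ℕ}

/-- The matrix of an element of the special linear group. -/
def sm (A : SpecialLinearGroup (Fin N) F) : Matrix (Fin N) (Fin N) F := A.1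

omit [HInv F] in
theorem sm_mul (A B : SpecialLinearGroup (Fin N) F) : sm (A * B) = sm A * sm B := rfl

omit [HInv F] in
theorem sm_one : sm (1 : SpecialLinearGroup (Fin N) F) = 1 := rfl

/-- The special unitary group. -/
def SUg (N : ℕ) (F : Type*) [Field F] [HInv F] : Subgroup (SpecialLinearGroup (Fin N) F) where
  carrier := {A | ∀ x y, hf (sm A *ᵥ x) (sm A *ᵥ y) = hf x y}
  one_mem' := fun x y => by
    rw [sm_one, Matrix.one_mulVec, Matrix.one_mulVec]
  mul_mem' := by
    intro A B hA hB x y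
    rw [sm_mul, ← Matrix.mulVec_mulVec, ← Matrix.mulVec_mulVec, hA, hB]
  inv_mem' := by
    intro A hA x y
    have h1 : ∀ z, sm A *ᵥ (sm A⁻¹ *ᵥ z) = z := by
      intro z
      rw [Matrix.mulVec_mulVec, ← sm_mul, mul_inv_cancel, sm_one, Matrix.one_mulVec]
    rw [← hA, h1, h1]

/-- The special unitary group. -/
abbrev SU (N : ℕ) (F : Type*) [Field F] [HInv F] := ↥(SUg N F)

/-- The action on vectors. -/
def ap (g : SU N F) (x : Fin N → F) : Fin N → F := sm g.1 *ᵥ x

theorem ap_hf (g : SU N F) (x y : Fin N → F) : hf (ap g x) (ap g y) = hf x y := g.2 x y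

theorem ap_mul (g h : SU N F) (x : Fin N → F) : ap (g * h) x = ap g (ap h x) := by
  rw [ap, ap, ap, Matrix.mulVec_mulVec]
  rfl

theorem ap_one (x : Fin N → F) : ap (1 : SU N F) x = x := Matrix.one_mulVec x

theorem ap_add (g : SU N F) (x y : Fin N → F) : ap g (x + y) = ap g x + ap g y :=
  Matrix.mulVec_add _ _ _

theorem ap_sub (g : SU N F) (x y : Fin N → F) : ap g (x - y) = ap g x - ap g y :=
  Matrix.mulVec_sub _ _ _

theorem ap_smul (g : SU N F) (c : F) (x : Fin N → F) : ap g (c • x) = c • ap g x :=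
  Matrix.mulVec_smul _ _ _

theorem ap_zero (g : SU N F) : ap g (0 : Fin N → F) = 0 := Matrix.mulVec_zero _

theorem ap_inv_ap (g : SU N F) (x : Fin N → F) : ap g⁻¹ (ap g x) = x := by
  rw [← ap_mul, inv_mul_cancel, ap_one]

theorem ap_ap_inv (g : SU N F) (x : Fin N → F) : ap g (ap g⁻¹ x) = x := by
  rw [← ap_mul, mul_inv_cancel, ap_one]

theorem ap_inj (g : SU N F) {x y : Fin N → F} (h : ap g x = ap g y) : x = y := by
  rw [← ap_inv_ap g x, h, ap_inv_ap]

theorem ap_ne_zero (g : SU N F) {x : Fin N → F} (h : x ≠ 0) : ap g x ≠ 0 := by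
  intro h0
  apply h
  apply ap_inj g
  rw [h0, ap_zero]

theorem su_ext {g h : SU N F} (H : ∀ x, ap g x = ap h x) : g = h := by
  apply Subtype.ext
  apply Subtype.ext
  exact Matrix.mulVec_injective (funext H)

theorem entry_eq (g : SU N F) (a b : Fin N) : g.1.1 a b = ap g (bb b) a := by
  rw [ap, bb, Matrix.mulVec_single_one]
  rfl

/-- Rank one updates. -/
def r1 (a b : Fin N → F) : Matrix (Fin N) (Fin N) F :=
  1 + replicateCol Unit a * replicateRow Unit (fun i => bar (b (Fin.rev i)))

theorem r1_mulVec (a b x : Fin N → F) : r1 a b *ᵥ x = x + hf x b • a := by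
  rw [r1, Matrix.add_mulVec, Matrix.one_mulVec, ← Matrix.mulVec_mulVec]
  congr 1
  funext i
  simp only [Matrix.mulVec, dotProduct, Matrix.replicateCol_apply, Matrix.replicateRow_apply,
    Finset.univ_unique, Finset.sum_singleton, Pi.smul_apply, smul_eq_mul, hf]
  rw [mul_comm]
  congr 1
  apply Finset.sum_congr rfl
  intro j _
  rw [mul_comm]

theorem r1_det (a b : Fin N → F) : (r1 a b).det = 1 + hf a b := by
  rw [r1, Matrix.det_one_add_replicateCol_mul_replicateRow]
  congr 1
  rw [hf, dotProduct]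
  apply Finset.sum_congr rfl
  intro j _
  rw [mul_comm]

/-- The matrix of an Eichler transformation. -/
def em (e w : Fin N → F) (k : F) : Matrix (Fin N) (Fin N) F := r1 (w + k • e) e * r1 (-e) w

theorem em_mulVec {e : Fin N → F} (he : hf e e = 0) (w : Fin N → F) (k : F) (x : Fin N → F) :
    em e w k *ᵥ x = x + hf x e • w - hf x w • e + (k * hf x e) • e := by
  rw [em, ← Matrix.mulVec_mulVec, r1_mulVec, r1_mulVec, hf_add_left, hf_smul_left, hf_neg_left, he]
  module

theorem em_det {e w : Fin N → F} {k : F} (he : hf e e = 0) (hw : hf w e = 0) :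
    (em e w k).det = 1 := by
  rw [em, Matrix.det_mul, r1_det, r1_det, hf_add_left, hf_smul_left, hf_neg_left, he, hw,
    hf_zero_symm hw]
  ring

/-- The conditions for Eichler transformations. -/
def EC (e w : Fin N → F) (k : F) : Prop := hf e e = 0 ∧ hf w e = 0 ∧ k + bar k = -hf w w

open Classical in
/-- Eichler transformations. -/
noncomputable def E (e w : Fin N → F) (k : F) : SU N F :=
  if H : EC e w k then ⟨⟨em e w k, em_det H.1 H.2.1⟩, by
    intro x y
    obtain ⟨h1, h2, h3⟩ := H
    change hf (em e w k *ᵥ x) (em e w k *ᵥ y) = hf x y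
    rw [em_mulVec h1, em_mulVec h1]
    simp only [hf_add_left, hf_sub_left, hf_smul_left, hf_add_right, hf_sub_right, hf_smul_right,
      h1, h2, hf_zero_symm h2, map_mul, hf_swap]
    linear_combination hf x e * hf e y * h3⟩
  else 1

theorem ap_E {e w : Fin N → F} {k : F} (H : EC e w k) (x : Fin N → F) :
    ap (E e w k) x = x + hf x e • w - hf x w • e + (k * hf x e) • e := by
  rw [E, dif_pos H]
  exact em_mulVec H.1 w k x

theorem EC.ap {e w : Fin N → F} {k : F} (g : SU N F) :
    EC (ap g e) (ap g w) k ↔ EC e w k := by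
  rw [EC, EC, ap_hf, ap_hf, ap_hf]

theorem conj_E (g : SU N F) (e w : Fin N → F) (k : F) :
    g * E e w k * g⁻¹ = E (ap g e) (ap g w) k := by
  by_cases H : EC e w k
  · rw [mul_inv_eq_iff_eq_mul]
    apply su_ext
    intro x
    rw [ap_mul, ap_mul, ap_E H, ap_E ((EC.ap g).mpr H), ap_hf, ap_hf, ap_add, ap_sub, ap_add,
      ap_smul, ap_smul, ap_smul]
  · have H' : ¬ EC (MP7fH.ap g e) (MP7fH.ap g w) k := fun h => H ((EC.ap g).mp h)
    rw [E, dif_neg H, E, dif_neg H', mul_one, mul_inv_cancel]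

theorem EC.add {e w w' : Fin N → F} {k k' : F} (h : EC e w k) (h' : EC e w' k') :
    EC e (w + w') (k + k' - hf w' w) := by
  refine ⟨h.1, by rw [hf_add_left, h.2.1, h'.2.1, add_zero], ?_⟩
  rw [map_sub, map_add, hf_swap, hf_add_left, hf_add_right, hf_add_right]
  linear_combination h.2.2 + h'.2.2

theorem E_mul {e w w' : Fin N → F} {k k' : F} (h : EC e w k) (h' : EC e w' k') :
    E e w k * E e w' k' = E e (w + w') (k + k' - hf w' w) := by
  apply su_ext
  intro x
  rw [ap_mul, ap_E (h.add h'), ap_E h', ap_E h]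
  simp only [hf_add_left, hf_sub_left, hf_smul_left, hf_add_right, h.1, h'.2.1,
    hf_zero_symm h.2.1]
  module

theorem E_zero (e : Fin N → F) : E e 0 0 = 1 := by
  by_cases H : EC e 0 0
  · apply su_ext
    intro x
    rw [ap_E H, hf_zero_right, ap_one, smul_zero, zero_smul, zero_mul, zero_smul]
    simp
  · rw [E, dif_neg H]

/-- Transvections. -/
noncomputable def T (v : Fin N → F) (t : F) : SU N F := E v 0 t

theorem ec_T {v : Fin N → F} (hv : hf v v = 0) {t : F} (ht : Sk t) : EC v 0 t :=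
  ⟨hv, hf_zero_left _, by rw [hf_zero_left, neg_zero, ht, add_neg_cancel]⟩

theorem ap_T {v : Fin N → F} (hv : hf v v = 0) {t : F} (ht : Sk t) (x : Fin N → F) :
    ap (T v t) x = x + (t * hf x v) • v := by
  rw [T, ap_E (ec_T hv ht), hf_zero_right, smul_zero, zero_smul, add_zero, sub_zero]

theorem T_zero (v : Fin N → F) : T v 0 = 1 := E_zero v

theorem T_add {v : Fin N → F} (hv : hf v v = 0) {s t : F} (hs : Sk s) (ht : Sk t) :
    T v (s + t) = T v s * T v t := by
  rw [T, T, T, E_mul (ec_T hv hs) (ec_T hv ht), hf_zero_left, sub_zero, add_zero]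

theorem T_neg {v : Fin N → F} (hv : hf v v = 0) {t : F} (ht : Sk t) : T v (-t) = (T v t)⁻¹ := by
  apply eq_inv_of_mul_eq_one_left
  rw [← T_add hv ht.neg ht, neg_add_cancel, T_zero]

theorem T_smul (c : F) {v : Fin N → F} (hv : hf v v = 0) {t : F} (ht : Sk t) :
    T (c • v) t = T v (c * bar c * t) := by
  apply su_ext
  intro x
  rw [ap_T (by rw [hf_smul_left, hf_smul_right, hv]; ring) ht, ap_T hv (ht.norm c),
    hf_smul_right, smul_smul]
  congr 2
  ring

theorem conj_T (g : SU N F) (v : Fin N → F) (t : F) :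
    g * T v t * g⁻¹ = T (ap g v) t := by
  rw [T, conj_E, ap_zero]
  rfl

theorem T_comm {v w : Fin N → F} (hv : hf v v = 0) (h : hf v w = 0) {s : F} (hs : Sk s) (t : F) :
    T v s * T w t = T w t * T v s := by
  have h1 := conj_T (T v s) w t
  rw [ap_T hv hs, hf_zero_symm h, mul_zero, zero_smul, add_zero] at h1
  exact mul_inv_eq_iff_eq_mul.mp h1

theorem T_fix {v x : Fin N → F} (hv : hf v v = 0) (h : hf x v = 0) {t : F} (ht : Sk t) :
    ap (T v t) x = x := by
  rw [ap_T hv ht, h, mul_zero, zero_smul, add_zero]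

/-- A transvection determines its centre and its parameter. -/
theorem T_eq {v w : Fin N → F} (hv : hf v v = 0) (hv0 : v ≠ 0) (hw : hf w w = 0) {s t : F}
    (hs : Sk s) (ht : Sk t) (hs0 : s ≠ 0) (h : T v s = T w t) :
    ∃ c : F, c ≠ 0 ∧ v = c • w ∧ t = c * bar c * s := by
  obtain ⟨u, hu⟩ : ∃ u, hf u v ≠ 0 := by
    by_contra hcon
    push Not at hcon
    exact hv0 (eq_zero_of_hf fun y => hf_zero_symm (hcon y))
  have h1 : ∀ x, (s * hf x v) • v = (t * hf x w) • w := by
    intro x
    have h2 : ap (T v s) x = ap (T w t) x := by rw [h]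
    rw [ap_T hv hs, ap_T hw ht] at h2
    exact add_left_cancel h2
  have h2 : v = ((s * hf u v)⁻¹ * (t * hf u w)) • w := by
    rw [mul_smul, ← h1, smul_smul, inv_mul_cancel₀ (mul_ne_zero hs0 hu), one_smul]
  set c := (s * hf u v)⁻¹ * (t * hf u w) with hc
  have hc0 : c ≠ 0 := by
    intro h0
    rw [h0, zero_smul] at h2
    exact hv0 h2
  refine ⟨c, hc0, h2, ?_⟩
  have hw0 : w ≠ 0 := by
    rintro rfl
    rw [smul_zero] at h2
    exact hv0 h2
  have h3 := h1 u
  rw [h2, hf_smul_right, smul_smul] at h3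
  have h4 : (s * (bar c * hf u w) * c - t * hf u w) • w = 0 := by
    rw [sub_smul, h3, sub_self]
  have h5 := (smul_eq_zero.mp h4).resolve_right hw0
  have h6 : hf u w ≠ 0 := by
    intro h0
    rw [h2, hf_smul_right, h0, mul_zero] at hu
    exact hu rfl
  apply mul_right_cancel₀ h6
  linear_combination -h5

theorem T_ne_one {v : Fin N → F} (hv : hf v v = 0) (hv0 : v ≠ 0) {t : F} (ht : Sk t)
    (ht0 : t ≠ 0) : T v t ≠ 1 := by
  intro h
  rw [← T_zero v] at h
  obtain ⟨c, hc0, -, hc⟩ := T_eq hv hv0 hv ht Sk.zero ht0 h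
  exact mul_ne_zero (norm_ne hc0) ht0 hc.symm

end group

end MP7fH
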