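import Pool.Agent.Lib.MP_7f581e_ntH.AutPSU

/-!
The projective special unitary groups of the standard hermitian form `∑ x_i s(y_i)`.
-/

set_option autoImplicit false

namespace MP7fH

open Matrix

section defs

variable {F : Type*} [Field F] {N : ℕ}

/-- The special unitary group `{A ∈ SL(N, F) | A * s(A)ᵀ = 1}`. -/
def SUi (N : ℕ) (F : Type*) [Field F] (s : F →+* F) : Subgroup (SpecialLinearGroup (Fin N) F) where
  carrier := {A | sm A * ((sm A).map s)ᵀ = 1}
  one_mem' := by
    change sm 1 * ((sm 1).map s)ᵀ = 1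
    rw [sm_one, Matrix.map_one s (map_zero s) (map_one s), Matrix.transpose_one, mul_one]
  mul_mem' := by
    intro A B hA hB
    change sm (A * B) * ((sm (A * B)).map s)ᵀ = 1
    change sm A * ((sm A).map s)ᵀ = 1 at hA
    change sm B * ((sm B).map s)ᵀ = 1 at hB
    rw [sm_mul, Matrix.map_mul, Matrix.transpose_mul]
    calc sm A * sm B * (((sm B).map s)ᵀ * ((sm A).map s)ᵀ) =
        sm A * (sm B * ((sm B).map s)ᵀ) * ((sm A).map s)ᵀ := by simp only [mul_assoc]
      _ = 1 := by rw [hB, mul_one, hA]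
  inv_mem' := by
    intro A hA
    change sm A⁻¹ * ((sm A⁻¹).map s)ᵀ = 1
    change sm A * ((sm A).map s)ᵀ = 1 at hA
    have h1 : sm A⁻¹ * sm A = 1 := by rw [← sm_mul, inv_mul_cancel, sm_one]
    have h2 : ((sm A).map s)ᵀ * ((sm A⁻¹).map s)ᵀ = 1 := by
      rw [← Matrix.transpose_mul, ← Matrix.map_mul, h1, Matrix.map_one s (map_zero s) (map_one s),
        Matrix.transpose_one]
    have h3 : sm A⁻¹ = ((sm A).map s)ᵀ := by
      calc sm A⁻¹ = sm A⁻¹ * (sm A * ((sm A).map s)ᵀ) := by rw [hA, mul_one]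
        _ = ((sm A).map s)ᵀ := by rw [← mul_assoc, h1, one_mul]
    rw [h3] at h2 ⊢
    exact h2

theorem mem_SUi {s : F →+* F} {A : SpecialLinearGroup (Fin N) F} :
    A ∈ SUi N F s ↔ sm A * ((sm A).map s)ᵀ = 1 := Iff.rfl

/-- The projective special unitary group. -/
abbrev PSUi (N : ℕ) (F : Type*) [Field F] (s : F →+* F) :=
  SUi N F s ⧸ Subgroup.center (SUi N F s)

/-- The projection. -/
def mkI (N : ℕ) (F : Type*) [Field F] (s : F →+* F) : SUi N F s →* PSUi N F s :=
  QuotientGroup.mk' _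

theorem mkI_surj {s : F →+* F} : Function.Surjective (mkI N F s) := QuotientGroup.mk'_surjective _

/-- The unitary group. -/
def Ui (N : ℕ) (F : Type*) [Field F] (s : F →+* F) : Set (GL (Fin N) F) :=
  {g | g.1 * (g.1.map s)ᵀ = 1}

/-- Conjugation by a unitary matrix and a field automorphism. -/
def cjI {s : F →+* F} {g : GL (Fin N) F} (hg : g ∈ Ui N F s) {σ : F ≃+* F}
    (hσ : ∀ x, σ (s x) = s (σ x)) (A : SUi N F s) : SUi N F s :=
  ⟨⟨g.1 * (sm A.1).map σ * (g⁻¹).1, by
    rw [Matrix.det_units_conj]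
    change (Matrix.map (sm A.1) (σ : F →+* F)).det = 1
    have h1 : (sm A.1).det = 1 := A.1.2
    rw [← RingHom.mapMatrix_apply, ← RingHom.map_det, h1, map_one]⟩, by
    rw [mem_SUi]
    change g.1 * (sm A.1).map σ * (g⁻¹).1 * ((g.1 * (sm A.1).map σ * (g⁻¹).1).map s)ᵀ = 1
    have h1 : (sm A.1) * ((sm A.1).map s)ᵀ = 1 := A.2
    have h2 : (sm A.1).map σ * (((sm A.1).map σ).map s)ᵀ = 1 := by
      have h3 := congrArg (fun M => Matrix.map M (σ : F →+* F)) h1
      simp only [Matrix.map_mul, Matrix.map_one _ (map_zero (σ : F →+* F))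
        (map_one (σ : F →+* F))] at h3
      rw [← h3]
      congr 1
      ext i j
      exact (hσ _).symm
    have hg' : g.1 * (g.1.map s)ᵀ = 1 := hg
    have h4 : (g⁻¹).1 = (g.1.map s)ᵀ := by
      calc (g⁻¹).1 = (g⁻¹).1 * (g.1 * (g.1.map s)ᵀ) := by rw [hg', mul_one]
        _ = (g.1.map s)ᵀ := by rw [← mul_assoc, Units.inv_mul, one_mul]
    have h5 : (g⁻¹).1 * (((g⁻¹).1).map s)ᵀ = 1 := by
      have h6 : (g.1.map s)ᵀ * (((g⁻¹).1).map s)ᵀ = 1 := by
        rw [← Matrix.transpose_mul, ← Matrix.map_mul, Units.inv_mul,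
          Matrix.map_one s (map_zero s) (map_one s), Matrix.transpose_one]
      rw [h4] at h6 ⊢
      exact h6
    rw [Matrix.map_mul, Matrix.map_mul, Matrix.transpose_mul, Matrix.transpose_mul]
    calc g.1 * (sm A.1).map σ * (g⁻¹).1 * (((g⁻¹).1.map s)ᵀ *
          ((((sm A.1).map σ).map s)ᵀ * (g.1.map s)ᵀ))
        = g.1 * (sm A.1).map σ * ((g⁻¹).1 * ((g⁻¹).1.map s)ᵀ) *
          (((sm A.1).map σ).map s)ᵀ * (g.1.map s)ᵀ := by simp only [mul_assoc]
      _ = g.1 * ((sm A.1).map σ * (((sm A.1).map σ).map s)ᵀ) * (g.1.map s)ᵀ := by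
          rw [h5, mul_one]; simp only [mul_assoc]
      _ = 1 := by rw [h2, mul_one, hg']⟩

theorem cjI_coe {s : F →+* F} {g : GL (Fin N) F} (hg : g ∈ Ui N F s) {σ : F ≃+* F}
    (hσ : ∀ x, σ (s x) = s (σ x)) (A : SUi N F s) :
    sm (cjI hg hσ A).1 = g.1 * (sm A.1).map σ * (g⁻¹).1 := rfl

end defs

section form

variable {F : Type*} [Field F] [HInv F] {N : ℕ}

/-- The standard form. -/
def idf (x y : Fin N → F) : F := ∑ i, x i * bar (y i)

theorem idf_bb (i j : Fin N) : idf (bb i : Fin N → F) (bb j) = if i = j then 1 else 0 := by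
  rw [idf, Finset.sum_eq_single i]
  · rw [bb_self, one_mul, bb_apply]
    split_ifs
    · exact map_one bar
    · exact map_zero bar
  · intro k _ hk
    rw [bb_apply, if_neg hk, zero_mul]
  · intro h
    exact absurd (Finset.mem_univ _) h

/-- Preservation of the standard form. -/
theorem idf_iff (M : Matrix (Fin N) (Fin N) F) :
    M * (M.map (bar : F →+* F))ᵀ = 1 ↔ ∀ x y, idf (M *ᵥ x) (M *ᵥ y) = idf x y := by
  have h0 : ∀ x y, idf (M *ᵥ x) (M *ᵥ y) =
      x ⬝ᵥ ((Mᵀ * M.map (bar : F →+* F)) *ᵥ (fun i => bar (y i))) := by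
    intro x y
    rw [← Matrix.mulVec_mulVec, Matrix.dotProduct_mulVec, Matrix.vecMul_transpose]
    rw [idf, dotProduct]
    apply Finset.sum_congr rfl
    intro i _
    congr 1
    exact RingHom.map_mulVec (bar : F →+* F) M y i
  have hbb : ∀ M : Matrix (Fin N) (Fin N) F, (M.map (bar : F →+* F)).map (bar : F →+* F) = M := by
    intro M
    ext i j
    exact bar_bar _
  constructor
  · intro h x y
    have h1 : Mᵀ * M.map (bar : F →+* F) = 1 := by
      have h2 : (M.map (bar : F →+* F))ᵀ * M = 1 := mul_eq_one_comm.mp h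
      have h3 := congrArg Matrix.transpose h2
      rwa [Matrix.transpose_mul, Matrix.transpose_transpose, Matrix.transpose_one] at h3
    rw [h0, h1, Matrix.one_mulVec]
    rfl
  · intro h
    have h1 : Mᵀ * M.map (bar : F →+* F) = 1 := by
      ext i j
      have h2 := h (bb i) (bb j)
      rw [h0, idf_bb] at h2
      have h3 : (fun k => bar ((bb j : Fin N → F) k)) = Pi.single j 1 := by
        funext k
        rw [bb_apply, Pi.single_apply]
        split_ifs
        · exact map_one bar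
        · exact map_zero bar
      rw [h3, Matrix.mulVec_single_one, bb, single_one_dotProduct] at h2
      rw [Matrix.one_apply]
      exact h2
    have h2 := congrArg Matrix.transpose h1
    rw [Matrix.transpose_mul, Matrix.transpose_transpose, Matrix.transpose_one] at h2
    exact mul_eq_one_comm.mp h2

/-- An isometry between the standard form and the antidiagonal form. -/
theorem exists_isom [Finite F] : ∃ P : GL (Fin N) F, ∀ x y,
    hf (P.1 *ᵥ x) (P.1 *ᵥ y) = idf x y := by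
  obtain ⟨a, ha⟩ := tr_surj (F := F) (c := 1) (map_one bar)
  obtain ⟨x, hx⟩ := norm_surj (F := F) (a := -1) (by rw [map_neg, map_one])
    (neg_ne_zero.mpr one_ne_zero)
  let u : Fin N → Fin N → F := fun i => if i = Fin.rev i then bb i else
    if i < Fin.rev i then bb i + a • bb (Fin.rev i) else
      x • bb (Fin.rev i) + (-(bar a) * x) • bb i
  -- orthogonality of different planes
  have hsup : ∀ i, ∃ c d : F, u i = c • bb i + d • bb (Fin.rev i) := by
    intro i
    simp only [u]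
    split_ifs with h1 h2
    · exact ⟨1, 0, by rw [one_smul, zero_smul, add_zero]⟩
    · exact ⟨1, a, by rw [one_smul]⟩
    · exact ⟨-(bar a) * x, x, by rw [add_comm]⟩
  have hu : ∀ i j, hf (u i) (u j) = if i = j then 1 else 0 := by
    intro i j
    by_cases hij : i = j
    · rw [if_pos hij, ← hij]
      simp only [u]
      split_ifs with h1 h2
      · rw [hf_bb, if_pos h1]
      · have e1 : hf (bb i) (bb (Fin.rev i) : Fin N → F) = 1 := by rw [hf_bb, if_pos rfl]
        have e2 : hf (bb (Fin.rev i)) (bb i : Fin N → F) = 1 := by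
          rw [hf_bb, if_pos (Fin.rev_rev i).symm]
        simp only [hf_add_left, hf_add_right, hf_smul_left, hf_smul_right, bb_iso h1,
          bb_iso (rev_ne h1), e1, e2]
        linear_combination ha
      · have e1 : hf (bb i) (bb (Fin.rev i) : Fin N → F) = 1 := by rw [hf_bb, if_pos rfl]
        have e2 : hf (bb (Fin.rev i)) (bb i : Fin N → F) = 1 := by
          rw [hf_bb, if_pos (Fin.rev_rev i).symm]
        simp only [hf_add_left, hf_add_right, hf_smul_left, hf_smul_right, bb_iso h1,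
          bb_iso (rev_ne h1), e1, e2, map_mul, map_neg, bar_bar]
        linear_combination (-(a + bar a)) * hx + ha
    · rw [if_neg hij]
      by_cases hij' : j = Fin.rev i
      · have hi : i ≠ Fin.rev i := fun h => hij (h.trans hij'.symm)
        have e1 : hf (bb i) (bb (Fin.rev i) : Fin N → F) = 1 := by rw [hf_bb, if_pos rfl]
        have e2 : hf (bb (Fin.rev i)) (bb i : Fin N → F) = 1 := by
          rw [hf_bb, if_pos (Fin.rev_rev i).symm]
        rw [hij']
        rcases lt_or_gt_of_ne hi with h | h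
        · have h' : ¬ (Fin.rev i < i) := not_lt_of_gt h
          simp only [u, if_neg hi, if_pos h, Fin.rev_rev, if_neg hi.symm, if_neg h',
            hf_add_left, hf_add_right, hf_smul_left, hf_smul_right, bb_iso hi,
            bb_iso (rev_ne hi), e1, e2, map_mul, map_neg, bar_bar]
          ring
        · have h' : ¬ (i < Fin.rev i) := not_lt_of_gt h
          simp only [u, if_neg hi, if_pos h, Fin.rev_rev, if_neg hi.symm, if_neg h',
            hf_add_left, hf_add_right, hf_smul_left, hf_smul_right, bb_iso hi,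
            bb_iso (rev_ne hi), e1, e2]
          ring
      · obtain ⟨c, d, hcd⟩ := hsup i
        obtain ⟨c', d', hcd'⟩ := hsup j
        have e1 : hf (bb i) (bb j : Fin N → F) = 0 := by rw [hf_bb, if_neg hij']
        have e2 : hf (bb i) (bb (Fin.rev j) : Fin N → F) = 0 := by
          rw [hf_bb, if_neg (rev_ne_rev (Ne.symm hij))]
        have e3 : hf (bb (Fin.rev i)) (bb j : Fin N → F) = 0 := by
          rw [hf_bb, Fin.rev_rev, if_neg (Ne.symm hij)]
        have e4 : hf (bb (Fin.rev i)) (bb (Fin.rev j) : Fin N → F) = 0 := by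
          rw [hf_bb, Fin.rev_rev, if_neg (ne_rev hij')]
        rw [hcd, hcd']
        simp only [hf_add_left, hf_add_right, hf_smul_left, hf_smul_right, e1, e2, e3, e4]
        ring
  let M : Matrix (Fin N) (Fin N) F := fun a b => u b a
  have hM : ∀ b, M *ᵥ (bb b) = u b := by
    intro b
    rw [bb, Matrix.mulVec_single_one]
    rfl
  have hsum : ∀ x, M *ᵥ x = ∑ i, x i • u i := by
    intro x
    conv_lhs => rw [sum_bb x]
    rw [Matrix.mulVec_sum]
    apply Finset.sum_congr rfl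
    intro i _
    rw [Matrix.mulVec_smul, hM]
  have h1 : ∀ j y, hf (M *ᵥ y) (u j) = y j := by
    intro j y
    have : (hfL (u j)).comp (Matrix.mulVecLin M) = LinearMap.proj j := by
      apply lin_ext
      intro i
      change hf (M *ᵥ (bb i)) (u j) = (bb i : Fin N → F) j
      rw [hM, hu, bb_apply]
      by_cases h : i = j
      · rw [if_pos h, if_pos h.symm]
      · rw [if_neg h, if_neg (Ne.symm h)]
    exact congrArg (fun f => f y) this
  have h2 : ∀ x y, hf (M *ᵥ x) (M *ᵥ y) = idf x y := by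
    intro x y
    let idL : (Fin N → F) →ₗ[F] F :=
      { toFun := fun x => idf x y
        map_add' := fun x x' => by
          simp only [idf, Pi.add_apply, add_mul, Finset.sum_add_distrib]
        map_smul' := fun c x => by
          simp only [idf, Pi.smul_apply, smul_eq_mul, Finset.mul_sum, mul_assoc, RingHom.id_apply] }
    have : (hfL (M *ᵥ y)).comp (Matrix.mulVecLin M) = idL := by
      apply lin_ext
      intro i
      change hf (M *ᵥ (bb i)) (M *ᵥ y) = idf (bb i) y
      rw [hM, ← hf_swap, h1, idf, Finset.sum_eq_single i]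
      · rw [bb_self, one_mul]
      · intro k _ hk
        rw [bb_apply, if_neg hk, zero_mul]
      · intro h
        exact absurd (Finset.mem_univ _) h
    exact congrArg (fun f => f x) this
  have h3 : M.det ≠ 0 := by
    intro h0
    obtain ⟨x, hx, hx0⟩ := Matrix.exists_mulVec_eq_zero_iff.mpr h0
    apply hx
    funext i
    rw [← h1 i x, hx0, hf_zero_left]
    rfl
  exact ⟨Matrix.GeneralLinearGroup.mkOfDetNeZero M h3, h2⟩

theorem gl_mulVec_inv (P : GL (Fin N) F) (x : Fin N → F) : P.1 *ᵥ ((P⁻¹).1 *ᵥ x) = x := by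
  rw [Matrix.mulVec_mulVec, Units.mul_inv, Matrix.one_mulVec]

theorem gl_inv_mulVec (P : GL (Fin N) F) (x : Fin N → F) : (P⁻¹).1 *ᵥ (P.1 *ᵥ x) = x := by
  rw [Matrix.mulVec_mulVec, Units.inv_mul, Matrix.one_mulVec]

/-- The isomorphism between the special unitary groups. -/
def isoI (P : GL (Fin N) F) (hP : ∀ x y, hf (P.1 *ᵥ x) (P.1 *ᵥ y) = idf x y) :
    SUi N F bar ≃* SU N F where
  toFun A := ⟨⟨P.1 * sm A.1 * (P⁻¹).1, by rw [Matrix.det_units_conj]; exact A.1.2⟩, by
    intro x y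
    change hf ((P.1 * sm A.1 * (P⁻¹).1) *ᵥ x) ((P.1 * sm A.1 * (P⁻¹).1) *ᵥ y) = hf x y
    simp only [← Matrix.mulVec_mulVec]
    rw [hP, (idf_iff (sm A.1)).mp A.2, ← hP, gl_mulVec_inv, gl_mulVec_inv]⟩
  invFun A := ⟨⟨(P⁻¹).1 * sm A.1 * P.1, by
    have := Matrix.det_units_conj P⁻¹ (sm A.1)
    rw [inv_inv] at this
    rw [this]
    exact A.1.2⟩, by
    rw [mem_SUi]
    refine (idf_iff _).mpr ?_
    intro x y
    change idf (((P⁻¹).1 * sm A.1 * P.1) *ᵥ x) (((P⁻¹).1 * sm A.1 * P.1) *ᵥ y) = idf x y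
    simp only [← Matrix.mulVec_mulVec]
    rw [← hP, gl_mulVec_inv, gl_mulVec_inv, ← hP x y]
    exact A.2 _ _⟩
  left_inv A := by
    apply Subtype.ext
    apply Subtype.ext
    change (P⁻¹).1 * (P.1 * sm A.1 * (P⁻¹).1) * P.1 = sm A.1
    calc (P⁻¹).1 * (P.1 * sm A.1 * (P⁻¹).1) * P.1 =
        ((P⁻¹).1 * P.1) * sm A.1 * ((P⁻¹).1 * P.1) := by simp only [mul_assoc]
      _ = sm A.1 := by rw [Units.inv_mul, one_mul, mul_one]
  right_inv A := by
    apply Subtype.ext
    apply Subtype.ext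
    change P.1 * ((P⁻¹).1 * sm A.1 * P.1) * (P⁻¹).1 = sm A.1
    calc P.1 * ((P⁻¹).1 * sm A.1 * P.1) * (P⁻¹).1 =
        (P.1 * (P⁻¹).1) * sm A.1 * (P.1 * (P⁻¹).1) := by simp only [mul_assoc]
      _ = sm A.1 := by rw [Units.mul_inv, one_mul, mul_one]
  map_mul' A B := by
    apply Subtype.ext
    apply Subtype.ext
    change P.1 * (sm A.1 * sm B.1) * (P⁻¹).1 =
      (P.1 * sm A.1 * (P⁻¹).1) * (P.1 * sm B.1 * (P⁻¹).1)
    calc P.1 * (sm A.1 * sm B.1) * (P⁻¹).1 = P.1 * sm A.1 * 1 * (sm B.1 * (P⁻¹).1) := by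
          simp only [mul_assoc, mul_one]
      _ = _ := by rw [← Units.inv_mul P]; simp only [mul_assoc]

theorem isoI_coe (P : GL (Fin N) F) (hP : ∀ x y, hf (P.1 *ᵥ x) (P.1 *ᵥ y) = idf x y)
    (A : SUi N F bar) : sm (isoI P hP A).1 = P.1 * sm A.1 * (P⁻¹).1 := rfl

/-- The isomorphism between the projective special unitary groups. -/
def isoP (e : SUi N F bar ≃* SU N F) : PSUi N F bar ≃* PSU N F :=
  QuotientGroup.congr _ _ e (by
    ext x
    constructor
    · rintro ⟨y, hy, rfl⟩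
      rw [Subgroup.mem_center_iff]
      intro g
      obtain ⟨h, rfl⟩ := e.surjective g
      change e h * e y = e y * e h
      rw [← map_mul, Subgroup.mem_center_iff.mp hy, map_mul]
    · intro hx
      refine ⟨e.symm x, ?_, e.apply_symm_apply x⟩
      change e.symm x ∈ Subgroup.center (SUi N F bar)
      rw [Subgroup.mem_center_iff]
      intro g
      apply e.injective
      rw [map_mul, map_mul, e.apply_symm_apply, Subgroup.mem_center_iff.mp hx])

theorem isoP_mk (e : SUi N F bar ≃* SU N F) (A : SUi N F bar) :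
    isoP e (mkI N F bar A) = mkU N F (e A) := rfl

theorem mkI_eq_of {g h : SUi N F bar} (e : SUi N F bar ≃* SU N F)
    (H : mkU N F (e g) = mkU N F (e h)) : mkI N F bar g = mkI N F bar h := by
  apply (isoP e).injective
  rw [isoP_mk, isoP_mk, H]

end form

/-- **Automorphisms of the projective special unitary groups** (standard form). -/
theorem aut_psui_bar {F : Type*} [Field F] [HInv F] [Finite F] {N : ℕ}
    [IsSimpleGroup (PSUi N F bar)] (h4 : 4 ≤ N)
    (α : PSUi N F bar ≃* PSUi N F bar) :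
    ∃ (g : GL (Fin N) F) (hg : g ∈ Ui N F bar) (σ : F ≃+* F)
      (hσ : ∀ x, σ (bar x) = bar (σ x)),
      ∀ A : SUi N F bar, α (mkI N F bar A) = mkI N F bar (cjI hg hσ A) := by
  obtain ⟨P, hP⟩ := exists_isom (F := F) (N := N)
  let e := isoI P hP
  haveI : IsSimpleGroup (PSU N F) := (isoP e).symm.isSimpleGroup
  obtain ⟨g', σ, hσ, hα⟩ := aut_psu h4 (((isoP e).symm.trans α).trans (isoP e))
  have hPm : (P.1.map σ) * ((P⁻¹).1.map σ) = 1 := by
    rw [← Matrix.map_mul, Units.mul_inv, Matrix.map_one _ (map_zero σ) (map_one σ)]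
  have hPm' : ((P⁻¹).1.map σ) * (P.1.map σ) = 1 := by
    rw [← Matrix.map_mul, Units.inv_mul, Matrix.map_one _ (map_zero σ) (map_one σ)]
  let Q : GL (Fin N) F := ⟨P.1.map σ, (P⁻¹).1.map σ, hPm, hPm'⟩
  let g : GL (Fin N) F := P⁻¹ * g'.1 * Q
  have hg : g ∈ Ui N F bar := by
    refine (idf_iff _).mpr ?_
    intro x y
    have h1 : ∀ x, g.1 *ᵥ x = (P⁻¹).1 *ᵥ (au g' (Q.1 *ᵥ x)) := by
      intro x
      change ((P⁻¹).1 * g'.1.1 * Q.1) *ᵥ x = _
      simp only [← Matrix.mulVec_mulVec]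
      rfl
    have h2 : ∀ x, Q.1 *ᵥ x = sv σ (P.1 *ᵥ (sv σ.symm x)) := by
      intro x
      have h3 : x = sv σ (sv σ.symm x) := (sv_symm σ x).symm
      conv_lhs => rw [h3]
      funext i
      exact (RingHom.map_mulVec (σ : F →+* F) P.1 (sv σ.symm x) i).symm
    change idf (g.1 *ᵥ x) (g.1 *ᵥ y) = idf x y
    rw [h1, h1, ← hP, gl_mulVec_inv, gl_mulVec_inv, au_hf, h2, h2, hf_sv hσ, hP]
    change σ (∑ i, σ.symm (x i) * bar (σ.symm (y i))) = ∑ i, x i * bar (y i)
    rw [map_sum]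
    apply Finset.sum_congr rfl
    intro i _
    rw [map_mul, hσ, σ.apply_symm_apply, σ.apply_symm_apply]
  refine ⟨g, hg, σ, hσ, fun A => ?_⟩
  apply (isoP e).injective
  have h1 := hα (e A)
  have h2 : (((isoP e).symm.trans α).trans (isoP e)) (mkU N F (e A)) =
      isoP e (α (mkI N F bar A)) := by
    change isoP e (α ((isoP e).symm (mkU N F (e A)))) = _
    rw [← isoP_mk, MulEquiv.symm_apply_apply]
  rw [h2] at h1
  rw [h1, isoP_mk]
  congr 1
  apply Subtype.ext
  apply Subtype.ext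
  change g'.1.1 * (P.1 * sm A.1 * (P⁻¹).1).map σ * (g'.1⁻¹).1 =
    P.1 * (((P⁻¹).1 * g'.1.1 * Q.1) * (sm A.1).map σ * (g⁻¹).1) * (P⁻¹).1
  have h3 : (g⁻¹).1 = (Q⁻¹).1 * (g'.1⁻¹).1 * P.1 := by
    change ((P⁻¹ * g'.1 * Q)⁻¹).1 = _
    rw [_root_.mul_inv_rev, _root_.mul_inv_rev, inv_inv, Units.val_mul, Units.val_mul, mul_assoc]
  have h4 : (Q⁻¹).1 = (P⁻¹).1.map σ := rfl
  rw [h3, h4, Matrix.map_mul, Matrix.map_mul]
  calc g'.1.1 * (P.1.map σ * (sm A.1).map σ * (P⁻¹).1.map σ) * (g'.1⁻¹).1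
      = 1 * g'.1.1 * (P.1.map σ * (sm A.1).map σ * (P⁻¹).1.map σ) * (g'.1⁻¹).1 * 1 := by
        rw [one_mul, mul_one]
    _ = (P.1 * (P⁻¹).1) * g'.1.1 * (P.1.map σ * (sm A.1).map σ * (P⁻¹).1.map σ) * (g'.1⁻¹).1 *
        (P.1 * (P⁻¹).1) := by rw [Units.mul_inv]
    _ = _ := by
        change _ = P.1 * (((P⁻¹).1 * g'.1.1 * P.1.map σ) * (sm A.1).map σ *
          ((P⁻¹).1.map σ * (g'.1⁻¹).1 * P.1)) * (P⁻¹).1
        simp only [mul_assoc]

/-- **Automorphisms of the projective special unitary groups** (standard form). -/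
theorem aut_psui {F : Type*} [Field F] [Finite F] {N : ℕ} (s : F →+* F) (hs : ∀ x, s (s x) = x)
    (hne : ∃ x, s x ≠ x) [h : IsSimpleGroup (PSUi N F s)] (h4 : 4 ≤ N)
    (α : PSUi N F s ≃* PSUi N F s) :
    ∃ (g : GL (Fin N) F) (hg : g ∈ Ui N F s) (σ : F ≃+* F) (hσ : ∀ x, σ (s x) = s (σ x)),
      ∀ A : SUi N F s, α (mkI N F s A) = mkI N F s (cjI hg hσ A) :=
  @aut_psui_bar F _ ⟨s, hs, hne⟩ _ N h h4 α

end MP7fH
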