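import Pool.Agent.Lib.MP_7f581e_ntH.Unip

/-!
Transitivity of subgroups generated by root elements.
-/

set_option autoImplicit false

namespace MP7fH

open Matrix

variable {F : Type*} [Field F] [HInv F] {N : ℕ}

/-- Two vectors in the same orbit. -/
def Rch (H : Subgroup (SU N F)) (x y : Fin N → F) : Prop := ∃ h ∈ H, ap h x = y

theorem Rch.trans {H : Subgroup (SU N F)} {x y z : Fin N → F} (h : Rch H x y)
    (h' : Rch H y z) : Rch H x z := by
  obtain ⟨g, hg, rfl⟩ := h
  obtain ⟨g', hg', rfl⟩ := h'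
  exact ⟨g' * g, mul_mem hg' hg, ap_mul _ _ _⟩

theorem Rch.refl (H : Subgroup (SU N F)) (x : Fin N → F) : Rch H x x :=
  ⟨1, one_mem _, ap_one x⟩

theorem Rch.hf {H : Subgroup (SU N F)} {x y : Fin N → F} (h : Rch H x y) :
    hf y y = MP7fH.hf x x := by
  obtain ⟨g, hg, rfl⟩ := h
  exact ap_hf g x x

theorem Rch.smul {H : Subgroup (SU N F)} {x y : Fin N → F} (h : Rch H x y) (c : F) :
    Rch H (c • x) (c • y) := by
  obtain ⟨g, hg, rfl⟩ := h
  exact ⟨g, hg, ap_smul g c x⟩

theorem T_mem_of {H : Subgroup (SU N F)} {u v : Fin N → F} (h : Rch H v u) {t : F}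
    (hu : T u t ∈ H) : T v t ∈ H := by
  obtain ⟨g, hg, rfl⟩ := h
  rw [← conj_T] at hu
  have h2 := mul_mem (mul_mem (inv_mem hg) hu) hg
  have h3 : g⁻¹ * (g * T v t * g⁻¹) * g = T v t := by group
  rwa [h3] at h2

theorem rev_ne {i : Fin N} (hi : i ≠ Fin.rev i) : Fin.rev i ≠ Fin.rev (Fin.rev i) := by
  rw [Fin.rev_rev]; exact hi.symm

theorem ne_rev {i k : Fin N} (h : k ≠ Fin.rev i) : Fin.rev k ≠ i := by
  intro h'
  apply h
  rw [← h', Fin.rev_rev]

theorem rev_ne_rev {i k : Fin N} (h : k ≠ i) : Fin.rev k ≠ Fin.rev i := fun h' =>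
  h (Fin.rev_injective h')

theorem ap_X {o k : Fin N} (ho : o ≠ Fin.rev o) (hk : k ≠ Fin.rev k) (hko : k ≠ Fin.rev o) (l : F)
    (x : Fin N → F) : ap (E (bb o) (l • bb k) 0) x =
      x + (l * x (Fin.rev o)) • bb k - (bar l * x (Fin.rev k)) • bb o := by
  rw [ap_E (ec_bb0 ho hko hk l), hf_smul_right, hf_bb_right, hf_bb_right, smul_smul]
  module

theorem E_swap {a b : Fin N → F} (ha : hf a a = 0) (hb : hf b b = 0) (hab : hf a b = 0) (l : F) :
    E b (l • a) 0 = E a (-(bar l) • b) 0 := by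
  have h1 : EC b (l • a) 0 := ⟨hb, by rw [hf_smul_left, hab, mul_zero], by
    rw [hf_smul_left, hf_smul_right, ha]; simp⟩
  have h2 : EC a (-(bar l) • b) 0 := ⟨ha, by rw [hf_smul_left, hf_zero_symm hab, mul_zero], by
    rw [hf_smul_left, hf_smul_right, hb]; simp⟩
  apply su_ext
  intro x
  rw [ap_E h1, ap_E h2, hf_smul_right, hf_smul_right, map_neg, bar_bar]
  module

theorem E_scal {a b : Fin N → F} (ha : hf a a = 0) (hb : hf b b = 0) (hab : hf a b = 0)
    (c l : F) : E (c • a) (l • b) 0 = E a ((bar c * l) • b) 0 := by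
  have h1 : EC (c • a) (l • b) 0 := ⟨by rw [hf_smul_left, hf_smul_right, ha]; simp,
    by rw [hf_smul_left, hf_smul_right, hf_zero_symm hab]; simp, by
    rw [hf_smul_left, hf_smul_right, hb]; simp⟩
  have h2 : EC a ((bar c * l) • b) 0 := ⟨ha, by rw [hf_smul_left, hf_zero_symm hab, mul_zero], by
    rw [hf_smul_left, hf_smul_right, hb]; simp⟩
  apply su_ext
  intro x
  rw [ap_E h1, ap_E h2, hf_smul_right, hf_smul_right, hf_smul_right, map_mul, bar_bar]
  module

/-- The vector of the middle coordinate. -/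
def md (x : Fin N → F) : Fin N → F := fun a => if a = Fin.rev a then x a else 0

/-- The root elements which we need. -/
structure Gn (H : Subgroup (SU N F)) (o : Fin N) : Prop where
  hT : ∀ i, i ≠ Fin.rev i → ∀ t, Sk t → T (bb i) t ∈ H
  hX : ∀ k, k ≠ Fin.rev k → k ≠ o → k ≠ Fin.rev o → ∀ l : F, E (bb o) (l • bb k) 0 ∈ H
  hY : ∀ k, k ≠ Fin.rev k → k ≠ o → k ≠ Fin.rev o → ∀ l : F,
    E (bb (Fin.rev o)) (l • bb k) 0 ∈ H

section

variable {H : Subgroup (SU N F)} {o : Fin N}

theorem ne_of_mid {i a : Fin N} (hi : i ≠ Fin.rev i) (ha : a = Fin.rev a) : a ≠ i := by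
  rintro rfl
  exact hi ha

theorem rch_one (ho : o ≠ Fin.rev o) (G : Gn H o) {x : Fin N → F} {i : Fin N}
    (hi : i ≠ Fin.rev i) (hx : x i ≠ 0) :
    ∃ y, Rch H x y ∧ y o ≠ 0 ∧ md y = md x := by
  by_cases hxo : x o = 0
  · by_cases hio : i = Fin.rev o
    · refine ⟨_, ⟨_, G.hT o ho th Sk.th, rfl⟩, ?_, ?_⟩
      · rw [ap_T (bb_iso ho) Sk.th, Pi.add_apply, Pi.smul_apply, bb_self, hf_bb_right, hxo,
          ← hio, zero_add, smul_eq_mul, mul_one]
        exact mul_ne_zero th_ne hx
      · funext a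
        by_cases ha : a = Fin.rev a
        · rw [md, md, if_pos ha, if_pos ha, ap_T (bb_iso ho) Sk.th, Pi.add_apply, Pi.smul_apply,
            bb_apply, if_neg (ne_of_mid ho ha), smul_zero, add_zero]
        · rw [md, md, if_neg ha, if_neg ha]
    · by_cases hio' : i = o
      · exact absurd (hio' ▸ hxo) hx
      · refine ⟨_, ⟨_, G.hX (Fin.rev i) (rev_ne hi) (ne_rev hio) (rev_ne_rev hio') (-1), rfl⟩,
          ?_, ?_⟩
        · rw [ap_X ho (rev_ne hi) (rev_ne_rev hio'), Fin.rev_rev, Pi.sub_apply, Pi.add_apply,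
            Pi.smul_apply, Pi.smul_apply, bb_self, bb_apply, if_neg (ne_rev hio).symm, hxo,
            smul_zero, zero_add, zero_sub, map_neg, map_one, smul_eq_mul, mul_one, neg_one_mul,
            neg_neg]
          exact hx
        · funext a
          by_cases ha : a = Fin.rev a
          · rw [md, md, if_pos ha, if_pos ha, ap_X ho (rev_ne hi) (rev_ne_rev hio'), Pi.sub_apply,
              Pi.add_apply, Pi.smul_apply, Pi.smul_apply, bb_apply, bb_apply,
              if_neg (ne_of_mid ho ha), if_neg (ne_of_mid (rev_ne hi) ha), smul_zero, smul_zero,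
              add_zero, sub_zero]
          · rw [md, md, if_neg ha, if_neg ha]
  · exact ⟨x, Rch.refl H x, hxo, rfl⟩

theorem ap_Y {k : Fin N} (ho : o ≠ Fin.rev o) (hk : k ≠ Fin.rev k) (hko : k ≠ o) (l : F)
    (x : Fin N → F) : ap (E (bb (Fin.rev o)) (l • bb k) 0) x =
      x + (l * x o) • bb k - (bar l * x (Fin.rev k)) • bb (Fin.rev o) := by
  rw [ap_X (rev_ne ho) hk (by rwa [Fin.rev_rev]), Fin.rev_rev]

theorem rch_norm (ho : o ≠ Fin.rev o) (G : Gn H o) {i : Fin N} (hi : i ≠ Fin.rev i)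
    (hio : i ≠ o) (hio' : i ≠ Fin.rev o) {x : Fin N → F} (hx : x o ≠ 0) :
    ∃ y, Rch H x y ∧ y o = 1 ∧ md y = md x := by
  set l : F := (1 - x i) / x o with hl
  set y : Fin N → F := ap (E (bb (Fin.rev o)) (l • bb i) 0) x with hy
  have hy' : y = x + (l * x o) • bb i - (bar l * x (Fin.rev i)) • bb (Fin.rev o) := by
    rw [hy, ap_Y ho hi hio]
  have hyi : y i = 1 := by
    rw [hy', Pi.sub_apply, Pi.add_apply, Pi.smul_apply, Pi.smul_apply, bb_self, bb_apply,
      if_neg hio', hl, div_mul_cancel₀ _ hx]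
    simp
  set l' : F := -bar (1 - y o) with hl'
  have hri : Fin.rev i ≠ Fin.rev o := rev_ne_rev hio
  refine ⟨ap (E (bb o) (l' • bb (Fin.rev i)) 0) y, Rch.trans ⟨_, G.hY i hi hio hio' l, rfl⟩
    ⟨_, G.hX _ (rev_ne hi) (ne_rev hio') hri l', rfl⟩, ?_, ?_⟩
  · rw [ap_X ho (rev_ne hi) hri, Fin.rev_rev, hyi, Pi.sub_apply, Pi.add_apply, Pi.smul_apply,
      Pi.smul_apply, bb_self, bb_apply, if_neg (ne_rev hio').symm, hl', map_neg, bar_bar]
    simp
  · funext a
    by_cases ha : a = Fin.rev a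
    · rw [md, md, if_pos ha, if_pos ha, ap_X ho (rev_ne hi) hri, Pi.sub_apply,
        Pi.add_apply, Pi.smul_apply, Pi.smul_apply, bb_apply, bb_apply,
        if_neg (ne_of_mid ho ha), if_neg (ne_of_mid (rev_ne hi) ha), smul_zero, smul_zero,
        add_zero, sub_zero, hy', Pi.sub_apply,
        Pi.add_apply, Pi.smul_apply, Pi.smul_apply, bb_apply, bb_apply,
        if_neg (ne_of_mid hi ha), if_neg (ne_of_mid (rev_ne ho) ha), smul_zero, smul_zero,
        add_zero, sub_zero]
    · rw [md, md, if_neg ha, if_neg ha]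

theorem rch_kill (ho : o ≠ Fin.rev o) (G : Gn H o) {i : Fin N} (hi : i ≠ Fin.rev i)
    (hio : i ≠ o) (hio' : i ≠ Fin.rev o) {x : Fin N → F} (hx : x o = 1) :
    ∃ y, Rch H x y ∧ y o = 1 ∧ y i = 0 ∧ ∀ j, j ≠ Fin.rev o → j ≠ i → y j = x j := by
  refine ⟨_, ⟨_, G.hY i hi hio hio' (-(x i)), rfl⟩, ?_, ?_, ?_⟩
  · rw [ap_Y ho hi hio, Pi.sub_apply, Pi.add_apply, Pi.smul_apply, Pi.smul_apply, bb_apply,
      bb_apply, if_neg hio.symm, if_neg ho, hx]
    simp
  · rw [ap_Y ho hi hio, Pi.sub_apply, Pi.add_apply, Pi.smul_apply, Pi.smul_apply, bb_self,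
      bb_apply, if_neg hio', hx]
    simp
  · intro j hj hji
    rw [ap_Y ho hi hio, Pi.sub_apply, Pi.add_apply, Pi.smul_apply, Pi.smul_apply, bb_apply,
      bb_apply, if_neg hj, if_neg hji]
    simp

theorem hf_md_o (ho : o ≠ Fin.rev o) (x : Fin N → F) : hf (md x) (bb o) = 0 := by
  rw [hf_bb_right, md, if_neg (rev_ne ho)]

theorem rch_all (ho : o ≠ Fin.rev o) (G : Gn H o) {i1 : Fin N} (hi1 : i1 ≠ Fin.rev i1)
    (hio1 : i1 ≠ o) (hio1' : i1 ≠ Fin.rev o) {x : Fin N → F} {i : Fin N} (hi : i ≠ Fin.rev i)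
    (hx : x i ≠ 0) {c : F}
    (hc : hf (bb o + c • bb (Fin.rev o) + md x) (bb o + c • bb (Fin.rev o) + md x) = hf x x) :
    Rch H x (bb o + c • bb (Fin.rev o) + md x) := by
  classical
  obtain ⟨x1, hx1, hx1o, hx1m⟩ := rch_one ho G hi hx
  obtain ⟨y, hy, hyo, hym⟩ := rch_norm ho G hi1 hio1 hio1' hx1o
  have h1 : ∀ S : Finset (Fin N), (∀ i ∈ S, i ≠ Fin.rev i ∧ i ≠ o ∧ i ≠ Fin.rev o) →
      ∃ z, Rch H y z ∧ z o = 1 ∧ (∀ i ∈ S, z i = 0) ∧ md z = md y := by
    intro S
    induction S using Finset.induction_on with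
    | empty => exact fun _ => ⟨y, Rch.refl H y, hyo, fun i hi => absurd hi (Finset.notMem_empty i),
        rfl⟩
    | insert a S ha ih =>
      intro hS
      obtain ⟨z, hz, hzo, hzS, hzm⟩ := ih fun i hi => hS i (Finset.mem_insert_of_mem hi)
      obtain ⟨ha1, ha2, ha3⟩ := hS a (Finset.mem_insert_self _ _)
      obtain ⟨z', hz', hzo', hza, hzj⟩ := rch_kill ho G ha1 ha2 ha3 hzo
      refine ⟨z', hz.trans hz', hzo', ?_, ?_⟩
      · intro i hi
        rcases Finset.mem_insert.mp hi with rfl | hi'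
        · exact hza
        · have hia : i ≠ a := by
            rintro rfl
            exact ha hi'
          rw [hzj i (hS i hi).2.2 hia]
          exact hzS i hi'
      · rw [← hzm]
        funext b
        by_cases hb : b = Fin.rev b
        · rw [md, md, if_pos hb, if_pos hb, hzj b (ne_of_mid (rev_ne ho) hb) (ne_of_mid ha1 hb)]
        · rw [md, md, if_neg hb, if_neg hb]
  obtain ⟨z, hz, hzo, hzS, hzm⟩ := h1
    (Finset.univ.filter fun i => i ≠ Fin.rev i ∧ i ≠ o ∧ i ≠ Fin.rev o) (by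
      intro i hi
      exact (Finset.mem_filter.mp hi).2)
  have hmd : md z = md x := by rw [hzm, hym, hx1m]
  set a := z (Fin.rev o) with ha
  have hz1 : z = bb o + a • bb (Fin.rev o) + md x := by
    funext b
    by_cases hb : b = Fin.rev b
    · have h2 := congrFun hmd b
      rw [md, if_pos hb] at h2
      rw [Pi.add_apply, Pi.add_apply, Pi.smul_apply, bb_apply, bb_apply,
        if_neg (ne_of_mid ho hb), if_neg (ne_of_mid (rev_ne ho) hb), h2]
      simp
    · have h2 : md x b = 0 := by rw [md, if_neg hb]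
      rw [Pi.add_apply, Pi.add_apply, Pi.smul_apply, h2, bb_apply, bb_apply]
      by_cases hbo : b = o
      · rw [hbo, hzo, if_pos rfl, if_neg ho]
        simp
      · by_cases hbo' : b = Fin.rev o
        · rw [hbo', if_neg ho.symm, if_pos rfl]
          simp [ha]
        · rw [if_neg hbo, if_neg hbo',
            hzS b (Finset.mem_filter.mpr ⟨Finset.mem_univ _, hb, hbo, hbo'⟩)]
          simp
  have h3 : hf z z = hf x x := (hx1.trans (hy.trans hz)).hf
  have e1 : hf (bb o) (bb (Fin.rev o) : Fin N → F) = 1 := by rw [hf_bb, if_pos rfl]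
  have e2 : hf (bb (Fin.rev o)) (bb o : Fin N → F) = 1 := by
    rw [hf_bb, if_pos (Fin.rev_rev o).symm]
  have e3 := hf_md_o ho x
  have e4 := hf_md_o (rev_ne ho) x
  rw [← hc, hz1] at h3
  simp only [hf_add_left, hf_add_right, hf_smul_left, hf_smul_right, e1, e2, e3, e4,
    hf_zero_symm e3, hf_zero_symm e4, bb_iso ho, bb_iso (rev_ne ho)] at h3
  have hsk : Sk (c - a) := by
    rw [Sk, map_sub]
    linear_combination -h3
  refine (hx1.trans (hy.trans hz)).trans ⟨_, G.hT _ (rev_ne ho) _ hsk, ?_⟩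
  rw [ap_T (bb_iso (rev_ne ho)) hsk, hf_bb_right, Fin.rev_rev, hzo, hz1]
  module

end

theorem ap_n {v w : Fin N → F} (hv : hf v v = 0) (hw : hf w w = 0) (hvw : hf v w = 1) {x y : F}
    (hx : Sk x) (hy : Sk y) : ap (T v x * T w y * T v x) v = (1 + x * y) • v + y • w := by
  have hwv : hf w v = 1 := by rw [← hf_swap, hvw, map_one]
  rw [ap_mul, ap_mul, ap_T hv hx, ap_T hw hy, ap_T hv hx]
  simp only [hf_add_left, hf_smul_left, hv, hvw, hwv]
  module

theorem ap_n_fix {v w z : Fin N → F} (hv : hf v v = 0) (hw : hf w w = 0) {x y : F}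
    (hx : Sk x) (hy : Sk y) (h1 : hf z v = 0) (h2 : hf z w = 0) :
    ap (T v x * T w y * T v x) z = z := by
  rw [ap_mul, ap_mul, T_fix hv h1 hx, T_fix hw h2 hy, T_fix hv h1 hx]

/-- It is enough to have root elements for the first vector and half of the others. -/
theorem gn_of {H : Subgroup (SU N F)} {o : Fin N} (ho : o ≠ Fin.rev o)
    (hT : ∀ i, i ≠ Fin.rev i → ∀ t, Sk t → T (bb i) t ∈ H)
    (hX : ∀ k, k < Fin.rev k → k ≠ o → k ≠ Fin.rev o → ∀ l : F, E (bb o) (l • bb k) 0 ∈ H) :
    Gn H o := by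
  have hn : ∀ i, i ≠ Fin.rev i →
      T (bb i) (th : F) * T (bb (Fin.rev i)) (-(th : F)⁻¹) * T (bb i) (th : F) ∈ H := fun i hi =>
    mul_mem (mul_mem (hT i hi _ Sk.th) (hT _ (rev_ne hi) _ Sk.th.inv.neg)) (hT i hi _ Sk.th)
  have hni : ∀ i : Fin N, i ≠ Fin.rev i →
      ap (T (bb i) (th : F) * T (bb (Fin.rev i)) (-(th : F)⁻¹) * T (bb i) (th : F)) (bb i) =
        (-th⁻¹ : F) • bb (Fin.rev i) := by
    intro i hi
    rw [ap_n (bb_iso hi) (bb_iso (rev_ne hi)) (by rw [hf_bb, if_pos rfl]) Sk.th Sk.th.inv.neg,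
      mul_neg, mul_inv_cancel₀ th_ne, add_neg_cancel, zero_smul, zero_add]
  have hnf : ∀ i k : Fin N, i ≠ Fin.rev i → k ≠ i → k ≠ Fin.rev i →
      ap (T (bb i) (th : F) * T (bb (Fin.rev i)) (-(th : F)⁻¹) * T (bb i) (th : F)) (bb k : Fin N → F) = bb k := by
    intro i k hi hki hki'
    apply ap_n_fix (bb_iso hi) (bb_iso (rev_ne hi)) Sk.th Sk.th.inv.neg
    · rw [hf_bb, if_neg (ne_rev hki').symm]
    · rw [hf_bb, if_neg (rev_ne_rev hki).symm]
  have hX' : ∀ k, k ≠ Fin.rev k → k ≠ o → k ≠ Fin.rev o → ∀ l : F,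
      E (bb o) (l • bb k) 0 ∈ H := by
    intro k hk hko hko' l
    rcases lt_or_gt_of_ne hk with h | h
    · exact hX k h hko hko' l
    · have hrk : Fin.rev k ≠ Fin.rev (Fin.rev k) := rev_ne hk
      have h1 := hX (Fin.rev k) (by rwa [Fin.rev_rev]) (ne_rev hko') (rev_ne_rev hko)
        (-(th * l))
      have h2 := mul_mem (mul_mem (hn _ hrk) h1) (inv_mem (hn _ hrk))
      rw [conj_E, ap_smul, hni _ hrk, hnf _ o hrk, Fin.rev_rev, smul_smul] at h2
      · have h3 : -(th * l) * -th⁻¹ = l := by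
          have := th_ne (F := F)
          field_simp
        rwa [h3] at h2
      · exact (ne_rev hko').symm
      · rw [Fin.rev_rev]; exact hko.symm
  refine ⟨hT, hX', ?_⟩
  intro k hk hko hko' l
  have h1 := hX' k hk hko hko' (bar (-th)  * l)
  have h2 := mul_mem (mul_mem (hn o ho) h1) (inv_mem (hn o ho))
  rw [conj_E, ap_smul, hni o ho, hnf o k ho hko hko'] at h2
  have e1 : hf (bb (Fin.rev o)) (bb k : Fin N → F) = 0 := by
    rw [hf_bb, Fin.rev_rev, if_neg hko]
  rw [E_scal (bb_iso (rev_ne ho)) (bb_iso hk) e1] at h2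
  have h3 : bar (-th⁻¹) * (bar (-th) * l) = l := by
    rw [← mul_assoc, ← map_mul, neg_mul_neg, inv_mul_cancel₀ th_ne, map_one, one_mul]
  rwa [h3] at h2

/-- The unitary group acts transitively on isotropic vectors. -/
theorem exists_trans (h4 : 4 ≤ N) {v w : Fin N → F} (hv : hf v v = 0) (hw : hf w w = 0)
    (hv0 : v ≠ 0) (hw0 : w ≠ 0) : ∃ g : SU N F, ap g v = w := by
  set o : Fin N := ⟨0, by omega⟩ with ho'
  set i1 : Fin N := ⟨1, by omega⟩ with hi1'
  have ho : o ≠ Fin.rev o := by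
    intro h
    have := congrArg Fin.val h
    rw [Fin.val_rev] at this
    simp only [ho'] at this
    omega
  have hi1 : i1 ≠ Fin.rev i1 := by
    intro h
    have := congrArg Fin.val h
    rw [Fin.val_rev] at this
    simp only [hi1'] at this
    omega
  have h1o : i1 ≠ o := by
    intro h
    have := congrArg Fin.val h
    simp [hi1', ho'] at this
  have h1o' : i1 ≠ Fin.rev o := by
    intro h
    have := congrArg Fin.val h
    rw [Fin.val_rev] at this
    simp only [hi1', ho'] at this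
    omega
  have G : Gn (⊤ : Subgroup (SU N F)) o := ⟨fun _ _ _ _ => Subgroup.mem_top _,
    fun _ _ _ _ _ => Subgroup.mem_top _, fun _ _ _ _ _ => Subgroup.mem_top _⟩
  have e1 : hf (bb o) (bb (Fin.rev o) : Fin N → F) = 1 := by rw [hf_bb, if_pos rfl]
  have e2 : hf (bb (Fin.rev o)) (bb o : Fin N → F) = 1 := by
    rw [hf_bb, if_pos (Fin.rev_rev o).symm]
  -- vectors without middle coordinate
  have key0 : ∀ x : Fin N → F, x ≠ 0 → hf x x = 0 → md x = 0 → Rch ⊤ x (bb o) := by
    intro x hx0 hx hmx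
    obtain ⟨i, hi⟩ : ∃ i, x i ≠ 0 := by
      by_contra hcon
      push Not at hcon
      exact hx0 (funext hcon)
    have hir : i ≠ Fin.rev i := by
      intro h
      have := congrFun hmx i
      rw [md, if_pos h] at this
      exact hi this
    have h1 := rch_all ho G hi1 h1o h1o' hir hi (c := 0) (by
      rw [hmx, zero_smul, add_zero, add_zero, bb_iso ho, hx])
    rwa [hmx, zero_smul, add_zero, add_zero] at h1
  have key : ∀ x : Fin N → F, x ≠ 0 → hf x x = 0 → Rch ⊤ x (bb o) := by
    intro x hx0 hx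
    by_cases hmx : md x = 0
    · exact key0 x hx0 hx hmx
    -- a coordinate outside the middle is not zero
    obtain ⟨i, hir, hi⟩ : ∃ i, i ≠ Fin.rev i ∧ x i ≠ 0 := by
      by_contra hcon
      push Not at hcon
      have h1 : x = md x := by
        funext a
        by_cases ha : a = Fin.rev a
        · rw [md, if_pos ha]
        · rw [md, if_neg ha, hcon a ha]
      obtain ⟨a, ha⟩ : ∃ a, md x a ≠ 0 := by
        by_contra hcon2
        push Not at hcon2
        exact hmx (funext hcon2)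
      have har : a = Fin.rev a := by
        by_contra har
        rw [md, if_neg har] at ha
        exact ha rfl
      have h2 : x = x a • bb a := by
        funext b
        rw [Pi.smul_apply, bb_apply]
        by_cases hba : b = a
        · rw [hba, if_pos rfl, smul_eq_mul, mul_one]
        · rw [if_neg hba, smul_zero, h1, md, if_neg]
          intro hb
          apply hba
          apply Fin.ext
          have h3 := congrArg Fin.val har
          have h4 := congrArg Fin.val hb
          rw [Fin.val_rev] at h3 h4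
          have := a.2
          have := b.2
          omega
      have h5 : x a ≠ 0 := by
        rw [md, if_pos har] at ha
        exact ha
      rw [h2, hf_smul_left, hf_smul_right, hf_bb, if_pos har, mul_one] at hx
      exact norm_ne h5 hx
    obtain ⟨c, hc⟩ := tr_surj (F := F) (c := -hf (md x) (md x)) (by rw [map_neg, hf_swap])
    have e3 := hf_md_o ho x
    have e4 := hf_md_o (rev_ne ho) x
    have hc' : hf (bb o + c • bb (Fin.rev o) + md x) (bb o + c • bb (Fin.rev o) + md x) = 0 := by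
      simp only [hf_add_left, hf_add_right, hf_smul_left, hf_smul_right, e1, e2, e3, e4,
        hf_zero_symm e3, hf_zero_symm e4, bb_iso ho, bb_iso (rev_ne ho)]
      linear_combination hc
    have h1 := rch_all ho G hi1 h1o h1o' hir hi (c := c) (by rw [hc', hx])
    set y := bb o + c • bb (Fin.rev o) + md x with hy
    have hmm : hf (md x) (md x) ≠ 0 := by
      intro h0
      obtain ⟨a, ha⟩ : ∃ a, md x a ≠ 0 := by
        by_contra hcon2
        push Not at hcon2
        exact hmx (funext hcon2)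
      have har : a = Fin.rev a := by
        by_contra har
        rw [md, if_neg har] at ha
        exact ha rfl
      have h2 : md x = x a • bb a := by
        funext b
        rw [Pi.smul_apply, bb_apply]
        by_cases hba : b = a
        · rw [hba, if_pos rfl, smul_eq_mul, mul_one, md, if_pos har]
        · rw [if_neg hba, smul_zero, md, if_neg]
          intro hb
          apply hba
          apply Fin.ext
          have h3 := congrArg Fin.val har
          have h4 := congrArg Fin.val hb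
          rw [Fin.val_rev] at h3 h4
          have := a.2
          have := b.2
          omega
      rw [h2, hf_smul_left, hf_smul_right, hf_bb, if_pos har, mul_one] at h0
      rw [md, if_pos har] at ha
      exact norm_ne ha h0
    have hc0 : c ≠ 0 := by
      rintro rfl
      apply hmm
      rw [map_zero, add_zero] at hc
      exact neg_eq_zero.mp hc.symm
    -- move `y` to a multiple of `bb o`
    set k : F := bar (th / c) with hk
    have hyo : hf y (bb o) = c := by
      rw [hy, hf_add_left, hf_add_left, hf_smul_left, e2, e3, bb_iso ho]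
      ring
    have hz : hf y (k • bb o) = th := by
      rw [hf_smul_right, hyo, hk, bar_bar, div_mul_cancel₀ _ hc0]
    have hz' : hf (k • bb o) y = -th := by rw [← hf_swap, hz, bar_th]
    have hkk : hf (k • bb o) (k • bb o : Fin N → F) = 0 := by
      rw [hf_smul_left, hf_smul_right, bb_iso ho, mul_zero, mul_zero]
    have hu : hf (y - k • bb o) (y - k • bb o) = 0 := by
      rw [hf_sub_left, hf_sub_right, hf_sub_right, hc', hz, hz', hkk]
      ring
    have h2 : Rch ⊤ y (k • bb o) := by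
      refine ⟨T (y - k • bb o) th⁻¹, Subgroup.mem_top _, ?_⟩
      rw [ap_T hu Sk.th.inv, hf_sub_right, hc', hz, zero_sub, mul_neg,
        inv_mul_cancel₀ th_ne]
      module
    have hk0 : k ≠ 0 := bar_ne_zero (div_ne_zero th_ne hc0)
    have h3 : Rch ⊤ (k • bb o) (bb o : Fin N → F) := by
      apply key0 _ _ hkk
      · funext a
        by_cases ha : a = Fin.rev a
        · rw [md, if_pos ha, Pi.smul_apply, bb_apply, if_neg (ne_of_mid ho ha), smul_zero]
          rfl
        · rw [md, if_neg ha]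
          rfl
      · exact smul_ne_zero hk0 (bb_ne_zero o)
    exact h1.trans (h2.trans h3)
  obtain ⟨g, -, hg⟩ := key v hv0 hv
  obtain ⟨g', -, hg'⟩ := key w hw0 hw
  refine ⟨g'⁻¹ * g, ?_⟩
  rw [ap_mul, hg, ← hg', ap_inv_ap]

end MP7fH
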