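import Pool.Agent.Lib.MP_7f581e_ntH.Root
import Pool.Agent.Lib.MP_7f581e_ntH.Rch

/-!
Automorphisms of `PSU(N, F)`: images of the transvections, normalization.
-/

set_option autoImplicit false

namespace MP7fH

open Matrix

variable {F : Type*} [Field F] [HInv F] {N : ℕ}

/-- The form as a linear map. -/
def hfL (y : Fin N → F) : (Fin N → F) →ₗ[F] F where
  toFun x := hf x y
  map_add' x x' := hf_add_left x x' y
  map_smul' c x := hf_smul_left c x y

theorem lin_ext {M : Type*} [AddCommGroup M] [Module F M] {f g : (Fin N → F) →ₗ[F] M}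
    (h : ∀ i, f (bb i) = g (bb i)) : f = g := by
  apply (Pi.basisFun F (Fin N)).ext
  intro i
  rw [Pi.basisFun_apply]
  exact h i

theorem exists_fix (h3 : 3 ≤ N) (a b : Fin N → F) :
    ∃ x : Fin N → F, x ≠ 0 ∧ hf x a = 0 ∧ hf x b = 0 := by
  let φ : (Fin N → F) →ₗ[F] (Fin 2 → F) := LinearMap.pi ![hfL a, hfL b]
  have h1 : LinearMap.ker φ ≠ ⊥ := by
    apply LinearMap.ker_ne_bot_of_finrank_lt
    rw [Module.finrank_fin_fun, Module.finrank_fin_fun]
    omega
  obtain ⟨w, hw, hw0⟩ := Submodule.exists_mem_ne_zero_of_ne_bot h1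
  exact ⟨w, hw0, congrFun hw 0, congrFun hw 1⟩

/-- Elements with a common fixed vector which are equal modulo the centre. -/
theorem eq_of_mk (h3 : 3 ≤ N) {g h : SU N F} (H : mkU N F g = mkU N F h) {x : Fin N → F}
    (hx : x ≠ 0) (hg : ap g x = x) (hh : ap h x = x) : g = h := by
  obtain ⟨c, -, hc⟩ := mkU_eq h3 H
  have h1 := hc x
  rw [hg, hh] at h1
  have h4 : c = 1 := by
    have : (c - 1) • x = 0 := by rw [sub_smul, ← h1, one_smul, sub_self]
    exact sub_eq_zero.mp ((smul_eq_zero.mp this).resolve_right hx)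
  apply su_ext
  intro y
  rw [hc, h4, one_smul]

theorem mkT_eq (h3 : 3 ≤ N) {a b : Fin N → F} (ha : hf a a = 0) (hb : hf b b = 0) {s t : F}
    (hs : Sk s) (ht : Sk t) (h : mkU N F (T a s) = mkU N F (T b t)) : T a s = T b t := by
  obtain ⟨x, hx, hxa, hxb⟩ := exists_fix h3 a b
  exact eq_of_mk h3 h hx (T_fix ha hxa hs) (T_fix hb hxb ht)

theorem X_inj (h3 : 3 ≤ N) {a b : Fin N → F} (ha : hf a a = 0) (hb : hf b b = 0)
    (hab : hf a b = 0) (ha0 : a ≠ 0) (hb0 : b ≠ 0) (hli : ∀ c : F, b ≠ c • a) {k l : F}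
    (h : mkU N F (E a (k • b) 0) = mkU N F (E a (l • b) 0)) : k = l := by
  have ec : ∀ k : F, EC a (k • b) 0 := fun k => ⟨ha, by
    rw [hf_smul_left, hf_zero_symm hab, mul_zero], by
    rw [hf_smul_left, hf_smul_right, hb]; simp⟩
  obtain ⟨x, hx, hxa, hxb⟩ := exists_fix h3 a b
  have hfix : ∀ k : F, ap (E a (k • b) 0) x = x := by
    intro k
    rw [ap_E (ec k), hxa, hf_smul_right, hxb]
    simp
  have h1 := eq_of_mk h3 h hx (hfix k) (hfix l)
  obtain ⟨u, hu⟩ : ∃ u, hf u a ≠ 0 := by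
    by_contra hcon
    push Not at hcon
    exact ha0 (eq_zero_of_hf fun y => hf_zero_symm (hcon y))
  have h2 : ap (E a (k • b) 0) u = ap (E a (l • b) 0) u := by rw [h1]
  rw [ap_E (ec k), ap_E (ec l), hf_smul_right, hf_smul_right] at h2
  have h4 : (hf u a * (k - l)) • b = ((bar k - bar l) * hf u b) • a := by
    have h5 := sub_eq_zero.mpr h2
    rw [← sub_eq_zero, ← h5]
    module
  by_contra hkl
  have h5 : hf u a * (k - l) ≠ 0 := mul_ne_zero hu (sub_ne_zero.mpr hkl)
  apply hli ((hf u a * (k - l))⁻¹ * ((bar k - bar l) * hf u b))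
  rw [mul_smul, ← h4, smul_smul, inv_mul_cancel₀ h5, one_smul]

theorem T_inj {a : Fin N → F} (ha : hf a a = 0) (ha0 : a ≠ 0) {s t : F} (hs : Sk s) (ht : Sk t)
    (h : T a s = T a t) : s = t := by
  by_contra hne
  have h1 : T a (s - t) = 1 := by
    rw [sub_eq_add_neg, T_add ha hs ht.neg, T_neg ha ht, h, mul_inv_cancel]
  refine T_ne_one ha ha0 ?_ (sub_ne_zero.mpr hne) h1
  rw [sub_eq_add_neg]
  exact hs.add ht.neg

theorem hf_of_comm (h3 : 3 ≤ N) {a b : Fin N → F} (ha : hf a a = 0) (hb : hf b b = 0)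
    (ha0 : a ≠ 0) (hb0 : b ≠ 0) {s t : F} (hs : Sk s) (ht : Sk t) (hs0 : s ≠ 0) (ht0 : t ≠ 0)
    (h : mkU N F (T a s) * mkU N F (T b t) = mkU N F (T b t) * mkU N F (T a s)) : hf b a = 0 := by
  have h1 : mkU N F (T (ap (T a s) b) t) = mkU N F (T b t) := by
    rw [← conj_T, map_mul, map_mul, map_inv, h, mul_inv_cancel_right]
  have hTb : hf (ap (T a s) b) (ap (T a s) b) = 0 := by rw [ap_hf, hb]
  have h4 := mkT_eq h3 hTb hb ht ht h1
  obtain ⟨c, -, hc, -⟩ := T_eq hTb (ap_ne_zero _ hb0) hb ht ht ht0 h4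
  rw [ap_T ha hs] at hc
  by_contra h0
  have h4 := congrArg (fun x => hf x a) hc
  simp only [hf_add_left, hf_smul_left, ha, mul_zero, add_zero] at h4
  have h5 : c = 1 := by
    have : (1 - c) * hf b a = 0 := by linear_combination h4
    exact (sub_eq_zero.mp ((mul_eq_zero.mp this).resolve_right h0)).symm
  rw [h5, one_smul, add_eq_left] at hc
  rcases smul_eq_zero.mp hc with h6 | h6
  · exact mul_ne_zero hs0 h0 h6
  · exact ha0 h6

/-- The automorphism maps the transvections with centre `w` to transvections with centre `w'`. -/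
def Im (α : PSU N F ≃* PSU N F) (S : F → F) (w w' : Fin N → F) : Prop :=
  w' ≠ 0 ∧ hf w' w' = 0 ∧ ∀ t, Sk t → Sk (S t) ∧ α (mkU N F (T w t)) = mkU N F (T w' (S t))

theorem exists_im [Finite F] (h4 : 4 ≤ N) (α : PSU N F ≃* PSU N F) :
    ∃ S : F → F, ∀ w, w ≠ 0 → hf w w = 0 → ∃ w', Im α S w w' := by
  obtain ⟨g, hg⟩ := exists_conj_T (by omega) α
  choose! S hSk hS using hg
  have ho : (⟨0, by omega⟩ : Fin N) ≠ Fin.rev ⟨0, by omega⟩ := by
    intro h
    have := congrArg Fin.val h
    rw [Fin.val_rev] at this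
    simp only at this
    omega
  refine ⟨S, fun w hw hww => ?_⟩
  obtain ⟨h, hh⟩ := exists_trans h4 (bb_iso ho) hww (bb_ne_zero _) hw
  obtain ⟨h', hh'⟩ := mkU_surj (α (mkU N F h))
  refine ⟨ap (h' * g) (bb ⟨0, by omega⟩), ap_ne_zero _ (bb_ne_zero _), by
    rw [ap_hf, bb_iso ho], fun t ht => ⟨hSk t ht, ?_⟩⟩
  rw [← hh, ← conj_T, ← conj_T]
  simp only [map_mul, map_inv, hS t ht, hh', _root_.mul_inv_rev]
  group

section

variable {α : PSU N F ≃* PSU N F} {S : F → F} {w w' u u' : Fin N → F}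

theorem Im.ne (h : Im α S w w') : w' ≠ 0 := h.1

theorem Im.iso (h : Im α S w w') : hf w' w' = 0 := h.2.1

theorem Im.sk (h : Im α S w w') {t : F} (ht : Sk t) : Sk (S t) := (h.2.2 t ht).1

theorem Im.eq (h : Im α S w w') {t : F} (ht : Sk t) :
    α (mkU N F (T w t)) = mkU N F (T w' (S t)) := (h.2.2 t ht).2

theorem Im.S_add (h3 : 3 ≤ N) (hw : hf w w = 0) (h : Im α S w w') {s t : F} (hs : Sk s)
    (ht : Sk t) : S (s + t) = S s + S t := by
  apply T_inj h.iso h.ne (h.sk (hs.add ht)) ((h.sk hs).add (h.sk ht))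
  apply mkT_eq h3 h.iso h.iso (h.sk (hs.add ht)) ((h.sk hs).add (h.sk ht))
  rw [← h.eq (hs.add ht), T_add hw hs ht, map_mul, map_mul, h.eq hs, h.eq ht,
    T_add h.iso (h.sk hs) (h.sk ht), map_mul]

theorem Im.S_zero (h3 : 3 ≤ N) (hw : hf w w = 0) (h : Im α S w w') : S 0 = 0 := by
  have := h.S_add h3 hw Sk.zero Sk.zero
  rw [add_zero] at this
  exact left_eq_add.mp this

theorem Im.S_ne_zero (h3 : 3 ≤ N) (hw : hf w w = 0) (hw0 : w ≠ 0) (h : Im α S w w') {t : F}
    (ht : Sk t) (ht0 : t ≠ 0) : S t ≠ 0 := by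
  intro h0
  have h1 := h.eq ht
  rw [h0, T_zero, map_one] at h1
  have h4 : mkU N F (T w t) = mkU N F (T w 0) := by
    apply α.injective
    rw [h1, T_zero, map_one, map_one]
  exact ht0 (T_inj hw hw0 ht Sk.zero (mkT_eq h3 hw hw ht Sk.zero h4))

theorem Im.hf_iff (h3 : 3 ≤ N) (hw : hf w w = 0) (hu : hf u u = 0) (hw0 : w ≠ 0) (hu0 : u ≠ 0)
    (h : Im α S w w') (h' : Im α S u u') : hf w u = 0 ↔ hf w' u' = 0 := by
  have hS := h.S_ne_zero h3 hw hw0 Sk.th th_ne
  constructor
  · intro h0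
    apply hf_of_comm h3 h'.iso h.iso h'.ne h.ne (h'.sk Sk.th) (h.sk Sk.th) hS hS
    rw [← h.eq Sk.th, ← h'.eq Sk.th, ← map_mul, ← map_mul, ← map_mul, ← map_mul,
      T_comm hw h0 Sk.th]
  · intro h0
    apply hf_of_comm h3 hu hw hu0 hw0 Sk.th Sk.th th_ne th_ne
    apply α.injective
    rw [map_mul, map_mul, h.eq Sk.th, h'.eq Sk.th, ← map_mul, ← map_mul,
      T_comm h.iso h0 (h.sk Sk.th)]

end

/-- The unitary group. -/
def UU (N : ℕ) (F : Type*) [Field F] [HInv F] : Subgroup (GL (Fin N) F) where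
  carrier := {g | ∀ x y, hf (g.1 *ᵥ x) (g.1 *ᵥ y) = hf x y}
  one_mem' := fun x y => by
    rw [Units.val_one, Matrix.one_mulVec, Matrix.one_mulVec]
  mul_mem' := by
    intro g h hg hh x y
    rw [Units.val_mul, ← Matrix.mulVec_mulVec, ← Matrix.mulVec_mulVec, hg, hh]
  inv_mem' := by
    intro g hg x y
    have h1 : ∀ x, g.1 *ᵥ ((g⁻¹).1 *ᵥ x) = x := by
      intro x
      rw [Matrix.mulVec_mulVec, Units.mul_inv, Matrix.one_mulVec]
    rw [← hg, h1, h1]

/-- The action on vectors. -/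
def au (g : UU N F) (x : Fin N → F) : Fin N → F := g.1.1 *ᵥ x

theorem au_hf (g : UU N F) (x y : Fin N → F) : hf (au g x) (au g y) = hf x y := g.2 x y

theorem au_mul (g h : UU N F) (x : Fin N → F) : au (g * h) x = au g (au h x) := by
  rw [au, au, au, Matrix.mulVec_mulVec]
  rfl

theorem au_one (x : Fin N → F) : au (1 : UU N F) x = x := Matrix.one_mulVec x

theorem au_add (g : UU N F) (x y : Fin N → F) : au g (x + y) = au g x + au g y :=
  Matrix.mulVec_add _ _ _

theorem au_sub (g : UU N F) (x y : Fin N → F) : au g (x - y) = au g x - au g y :=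
  Matrix.mulVec_sub _ _ _

theorem au_smul (g : UU N F) (c : F) (x : Fin N → F) : au g (c • x) = c • au g x :=
  Matrix.mulVec_smul _ _ _

theorem au_zero (g : UU N F) : au g (0 : Fin N → F) = 0 := Matrix.mulVec_zero _

theorem au_inv_au (g : UU N F) (x : Fin N → F) : au g⁻¹ (au g x) = x := by
  rw [← au_mul, inv_mul_cancel, au_one]

theorem au_au_inv (g : UU N F) (x : Fin N → F) : au g (au g⁻¹ x) = x := by
  rw [← au_mul, mul_inv_cancel, au_one]

theorem au_ne_zero (g : UU N F) {x : Fin N → F} (h : x ≠ 0) : au g x ≠ 0 := by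
  intro h0
  apply h
  rw [← au_inv_au g x, h0, au_zero]

/-- Conjugation by a unitary matrix. -/
def cjF (g : UU N F) (A : SU N F) : SU N F :=
  ⟨⟨g.1.1 * A.1.1 * (g.1⁻¹).1, by rw [Matrix.det_units_conj]; exact A.1.2⟩, by
    intro x y
    change hf ((g.1.1 * A.1.1 * (g.1⁻¹).1) *ᵥ x) ((g.1.1 * A.1.1 * (g.1⁻¹).1) *ᵥ y) = hf x y
    simp only [← Matrix.mulVec_mulVec]
    change hf (au g (ap A (au g⁻¹ x))) (au g (ap A (au g⁻¹ y))) = hf x y
    rw [au_hf, ap_hf, au_hf]⟩

theorem ap_cjF (g : UU N F) (A : SU N F) (x : Fin N → F) :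
    ap (cjF g A) x = au g (ap A (au g⁻¹ x)) := by
  change (g.1.1 * A.1.1 * (g.1⁻¹).1) *ᵥ x = _
  simp only [← Matrix.mulVec_mulVec]
  rfl

theorem cjF_coe (g : UU N F) (A : SU N F) :
    ((cjF g A).1.1 : Matrix (Fin N) (Fin N) F) = g.1.1 * A.1.1 * (g.1⁻¹).1 := rfl

/-- Conjugation by a unitary matrix. -/
def cjU (g : UU N F) : SU N F ≃* SU N F where
  toFun := cjF g
  invFun := cjF g⁻¹
  left_inv A := by
    apply su_ext
    intro x
    rw [ap_cjF, ap_cjF, inv_inv, au_inv_au, au_inv_au]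
  right_inv A := by
    apply su_ext
    intro x
    rw [ap_cjF, ap_cjF, inv_inv, au_au_inv, au_au_inv]
  map_mul' A B := by
    apply su_ext
    intro x
    rw [ap_cjF, ap_mul, ap_mul, ap_cjF, ap_cjF, au_inv_au]

theorem ap_cjU (g : UU N F) (A : SU N F) (x : Fin N → F) :
    ap (cjU g A) x = au g (ap A (au g⁻¹ x)) := ap_cjF g A x

theorem cjU_mul (g h : UU N F) (A : SU N F) : cjU (g * h) A = cjU g (cjU h A) := by
  apply su_ext
  intro x
  rw [ap_cjU, ap_cjU, ap_cjU, _root_.mul_inv_rev, au_mul, au_mul]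

theorem cjU_inv (g : UU N F) (A : SU N F) : cjU g (cjU g⁻¹ A) = A := by
  rw [← cjU_mul, mul_inv_cancel]
  apply su_ext
  intro x
  rw [ap_cjU, inv_one, au_one, au_one]

theorem EC.au {e w : Fin N → F} {k : F} (g : UU N F) :
    EC (au g e) (au g w) k ↔ EC e w k := by
  rw [EC, EC, au_hf, au_hf, au_hf]

theorem cjU_E (g : UU N F) (e w : Fin N → F) (k : F) :
    cjU g (E e w k) = E (au g e) (au g w) k := by
  by_cases H : EC e w k
  · apply su_ext
    intro x
    have h1 : ∀ y, hf (au g⁻¹ x) y = hf x (au g y) := by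
      intro y
      rw [← au_hf g, au_au_inv]
    rw [ap_cjU, ap_E H, ap_E ((EC.au g).mpr H), au_add, au_sub, au_add,
      au_smul, au_smul, au_smul, h1, h1, au_au_inv]
  · have H' : ¬ EC (MP7fH.au g e) (MP7fH.au g w) k := fun h => H ((EC.au g).mp h)
    rw [E, dif_neg H, E, dif_neg H', map_one]

theorem cjU_T (g : UU N F) (v : Fin N → F) (t : F) : cjU g (T v t) = T (au g v) t := by
  rw [T, cjU_E, au_zero]
  rfl

/-- The automorphism of the quotient. -/
def pm (e : SU N F ≃* SU N F) : PSU N F ≃* PSU N F :=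
  QuotientGroup.congr _ _ e (Subgroup.characteristic_iff_map_eq.mp inferInstance e)

theorem pm_mk (e : SU N F ≃* SU N F) (A : SU N F) : pm e (mkU N F A) = mkU N F (e A) := rfl

/-- Conjugation of an automorphism. -/
def cj (g : UU N F) (α : PSU N F ≃* PSU N F) : PSU N F ≃* PSU N F :=
  α.trans (pm (cjU g⁻¹))

theorem cj_apply (g : UU N F) (α : PSU N F ≃* PSU N F) (x : PSU N F) :
    cj g α x = pm (cjU g⁻¹) (α x) := rfl

theorem Im.cj {α : PSU N F ≃* PSU N F} {S : F → F} {w w' : Fin N → F} (h : Im α S w w')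
    (g : UU N F) : Im (cj g α) S w (au g⁻¹ w') := by
  refine ⟨au_ne_zero _ h.ne, by rw [au_hf, h.iso], fun t ht => ⟨h.sk ht, ?_⟩⟩
  rw [cj_apply, h.eq ht, pm_mk, cjU_T]

/-- Frames. -/
theorem exists_frame (v : Fin N → Fin N → F) (hv : ∀ i j, hf (v i) (v j) = hf (bb i) (bb j)) :
    ∃ g : UU N F, ∀ i, au g (bb i) = v i := by
  let M : Matrix (Fin N) (Fin N) F := fun a b => v b a
  have hM : ∀ b, M *ᵥ (bb b) = v b := by
    intro b
    rw [bb, Matrix.mulVec_single_one]
    rfl
  have h1 : ∀ i y, hf (M *ᵥ y) (v i) = hf y (bb i) := by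
    intro i y
    have : (hfL (v i)).comp (Matrix.mulVecLin M) = hfL (bb i) := by
      apply lin_ext
      intro j
      change hf (M *ᵥ (bb j)) (v i) = hf (bb j) (bb i)
      rw [hM, hv]
    exact congrArg (fun f => f y) this
  have h2 : ∀ x y, hf (M *ᵥ x) (M *ᵥ y) = hf x y := by
    intro x y
    have : (hfL (M *ᵥ y)).comp (Matrix.mulVecLin M) = hfL y := by
      apply lin_ext
      intro j
      change hf (M *ᵥ (bb j)) (M *ᵥ y) = hf (bb j) y
      rw [hM, ← hf_swap, h1, hf_swap]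
    exact congrArg (fun f => f x) this
  have h3 : M.det ≠ 0 := by
    intro h0
    obtain ⟨x, hx, hx0⟩ := Matrix.exists_mulVec_eq_zero_iff.mpr h0
    apply hx
    apply eq_zero_of_hf
    intro y
    rw [← h2, hx0, hf_zero_left]
  exact ⟨⟨Matrix.GeneralLinearGroup.mkOfDetNeZero M h3, h2⟩, hM⟩

theorem mid_unique {a b : Fin N} (ha : a = Fin.rev a) (hb : b = Fin.rev b) : a = b := by
  apply Fin.ext
  have h3 := congrArg Fin.val ha
  have h4 := congrArg Fin.val hb
  rw [Fin.val_rev] at h3 h4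
  have := a.2
  have := b.2
  omega

/-- Frames without the middle vector. -/
theorem exists_frame_iso [Finite F] (v : Fin N → Fin N → F)
    (hv : ∀ i j, i ≠ Fin.rev i → j ≠ Fin.rev j → hf (v i) (v j) = hf (bb i) (bb j)) :
    ∃ g : UU N F, ∀ i, i ≠ Fin.rev i → au g (bb i) = v i := by
  by_cases hm : ∃ m : Fin N, m = Fin.rev m
  · obtain ⟨m, hm⟩ := hm
    have hiso : ∀ i, i ≠ m → i ≠ Fin.rev i := fun i hi h => hi (mid_unique h hm)
    have hrev : ∀ i : Fin N, i ≠ m → Fin.rev i ≠ m := by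
      intro i hi h
      apply hi
      rw [hm] at h
      exact Fin.rev_injective h
    -- a vector orthogonal to the others
    let φ : (Fin N → F) →ₗ[F] (Fin N → F) :=
      LinearMap.pi fun i => if i = m then 0 else hfL (v i)
    have hφ : ¬ Function.Injective φ := by
      rw [LinearMap.injective_iff_surjective]
      intro hs
      obtain ⟨x, hx⟩ := hs (bb m)
      have h1 := congrFun hx m
      rw [bb_self] at h1
      have h2 : φ x m = 0 := by
        change (if m = m then (0 : (Fin N → F) →ₗ[F] F) else hfL (v m)) x = 0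
        rw [if_pos rfl]
        rfl
      rw [h2] at h1
      exact zero_ne_one h1
    obtain ⟨y, hy, hy0⟩ : ∃ y, φ y = 0 ∧ y ≠ 0 := by
      by_contra hcon
      push Not at hcon
      exact hφ ((injective_iff_map_eq_zero φ).mpr hcon)
    have hyv : ∀ i, i ≠ m → hf y (v i) = 0 := by
      intro i hi
      have h1 := congrFun hy i
      change (if i = m then (0 : (Fin N → F) →ₗ[F] F) else hfL (v i)) y = 0 at h1
      rw [if_neg hi] at h1
      exact h1
    have hyy : hf y y ≠ 0 := by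
      intro h0
      let w : Fin N → Fin N → F := fun i => if i = m then y else v i
      let M : Matrix (Fin N) (Fin N) F := fun a b => w b a
      have hM : ∀ b, M *ᵥ (bb b) = w b := by
        intro b
        rw [bb, Matrix.mulVec_single_one]
        rfl
      have hyw : ∀ i, hf y (w i) = 0 := by
        intro i
        by_cases hi : i = m
        · simp only [w, if_pos hi, h0]
        · simp only [w, if_neg hi, hyv i hi]
      -- coordinates
      have hc : ∀ j, j ≠ m → ∀ x, hf (M *ᵥ x) (v (Fin.rev j)) = x j := by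
        intro j hj x
        have : (hfL (v (Fin.rev j))).comp (Matrix.mulVecLin M) = hfL (bb (Fin.rev j)) := by
          apply lin_ext
          intro i
          change hf (M *ᵥ (bb i)) (v (Fin.rev j)) = hf (bb i) (bb (Fin.rev j))
          rw [hM]
          by_cases hi : i = m
          · simp only [w, if_pos hi]
            rw [hyv _ (hrev j hj), hf_bb, if_neg]
            intro h
            apply hj
            rw [← hi]
            exact Fin.rev_injective h
          · simp only [w, if_neg hi]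
            exact hv i _ (hiso i hi) (hiso _ (hrev j hj))
        have h1 := congrArg (fun f => f x) this
        change hf (M *ᵥ x) (v (Fin.rev j)) = hf x (bb (Fin.rev j)) at h1
        rw [h1, hf_bb_right, Fin.rev_rev]
      have hinj : Function.Injective (Matrix.mulVecLin M) := by
        rw [injective_iff_map_eq_zero]
        intro x hx
        have hx' : M *ᵥ x = 0 := hx
        have h1 : ∀ j, j ≠ m → x j = 0 := by
          intro j hj
          rw [← hc j hj x, hx', hf_zero_left]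
        have h2 : x = x m • bb m := by
          funext b
          rw [Pi.smul_apply, bb_apply]
          by_cases hb : b = m
          · rw [hb, if_pos rfl, smul_eq_mul, mul_one]
          · rw [if_neg hb, smul_zero, h1 b hb]
        rw [h2, Matrix.mulVec_smul, hM] at hx'
        simp only [w, if_pos rfl] at hx'
        have h3 := (smul_eq_zero.mp hx').resolve_right hy0
        rw [h2, h3, zero_smul]
      have hsurj := (LinearMap.injective_iff_surjective).mp hinj
      apply hy0
      apply eq_zero_of_hf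
      intro z
      obtain ⟨x, rfl⟩ := hsurj z
      have : (hfL y).comp (Matrix.mulVecLin M) = 0 := by
        apply lin_ext
        intro i
        change hf (M *ᵥ (bb i)) y = 0
        rw [hM]
        exact hf_zero_symm (hyw i)
      apply hf_zero_symm
      exact congrArg (fun f => f x) this
    obtain ⟨k, hk⟩ := norm_surj (F := F) (a := (hf y y)⁻¹) (by rw [map_inv₀, hf_swap])
      (inv_ne_zero hyy)
    obtain ⟨g, hg⟩ := exists_frame (fun i => if i = m then k • y else v i) (by
      intro i j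
      by_cases hi : i = m
      · by_cases hj : j = m
        · rw [if_pos hi, if_pos hj, hf_smul_left, hf_smul_right, hi, hj, hf_bb, if_pos hm,
            ← mul_assoc, hk, inv_mul_cancel₀ hyy]
        · rw [if_pos hi, if_neg hj, hf_smul_left, hyv j hj, mul_zero, hf_bb, if_neg]
          rw [hi, ← hm]
          exact hj
      · by_cases hj : j = m
        · rw [if_neg hi, if_pos hj, hf_smul_right, hf_zero_symm (hyv i hi), mul_zero, hf_bb,
            if_neg]
          rw [hj]
          exact (hrev i hi).symm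
        · rw [if_neg hi, if_neg hj]
          exact hv i j (hiso i hi) (hiso j hj))
    refine ⟨g, fun i hi => ?_⟩
    have him : i ≠ m := by
      rintro rfl
      exact hi hm
    have := hg i
    rwa [if_neg him] at this
  · push Not at hm
    obtain ⟨g, hg⟩ := exists_frame v fun i j => hv i j (hm i) (hm j)
    exact ⟨g, fun i _ => hg i⟩

/-- Normalization of an automorphism. -/
theorem exists_norm [Finite F] (h4 : 4 ≤ N) (α : PSU N F ≃* PSU N F) :
    ∃ (g : UU N F) (S : F → F) (κ : Fin N → F),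
      (∀ w, w ≠ 0 → hf w w = 0 → ∃ w', Im (cj g α) S w w') ∧
      ∀ i, i ≠ Fin.rev i → κ i ≠ 0 ∧ Im (cj g α) S (bb i) (κ i • bb i) := by
  obtain ⟨S, hS⟩ := exists_im h4 α
  choose! v hv using hS
  have h3 : 3 ≤ N := by omega
  have hvi : ∀ i, i ≠ Fin.rev i → Im α S (bb i) (v (bb i)) := fun i hi =>
    hv _ (bb_ne_zero i) (bb_iso hi)
  have hiff : ∀ i j, i ≠ Fin.rev i → j ≠ Fin.rev j →
      (hf (bb i : Fin N → F) (bb j) = 0 ↔ hf (v (bb i)) (v (bb j)) = 0) := fun i j hi hj =>
    Im.hf_iff h3 (bb_iso hi) (bb_iso hj) (bb_ne_zero i) (bb_ne_zero j) (hvi i hi) (hvi j hj)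
  have hd : ∀ i, i ≠ Fin.rev i → hf (v (bb i)) (v (bb (Fin.rev i))) ≠ 0 := by
    intro i hi h0
    rw [← hiff i _ hi (rev_ne hi), hf_bb, if_pos rfl] at h0
    exact one_ne_zero h0
  -- the frame
  let k : Fin N → F := fun i => if i < Fin.rev i then 1 else
    (hf (v (bb i)) (v (bb (Fin.rev i))))⁻¹
  have hk : ∀ i, i ≠ Fin.rev i → k i ≠ 0 := by
    intro i hi
    simp only [k]
    split_ifs
    · exact one_ne_zero
    · exact inv_ne_zero (hd i hi)
  obtain ⟨g, hg⟩ := exists_frame_iso (fun i => k i • v (bb i)) (by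
    intro i j hi hj
    rw [hf_smul_left, hf_smul_right]
    by_cases hij : j = Fin.rev i
    · rw [hf_bb, if_pos hij, hij]
      rcases lt_or_gt_of_ne hi with h | h
      · have h1 : ¬ Fin.rev i < Fin.rev (Fin.rev i) := by
          rw [Fin.rev_rev]
          exact not_lt_of_gt h
        simp only [k, if_pos h, if_neg h1, Fin.rev_rev, map_inv₀, hf_swap, one_mul]
        exact inv_mul_cancel₀ (hd i hi)
      · have h1 : Fin.rev i < Fin.rev (Fin.rev i) := by
          rw [Fin.rev_rev]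
          exact h
        simp only [k, if_pos h1, if_neg (not_lt_of_gt h), map_one, one_mul]
        exact inv_mul_cancel₀ (hd i hi)
    · have h1 : hf (bb i) (bb j : Fin N → F) = 0 := by rw [hf_bb, if_neg hij]
      rw [h1, (hiff i j hi hj).mp h1, mul_zero, mul_zero])
  refine ⟨g, S, fun i => (k i)⁻¹, fun w hw hww => ⟨_, (hv w hw hww).cj g⟩, fun i hi =>
    ⟨inv_ne_zero (hk i hi), ?_⟩⟩
  have h5 := (hvi i hi).cj g
  have h6 : au g⁻¹ (v (bb i)) = (k i)⁻¹ • bb i := by
    have h7 : v (bb i) = (k i)⁻¹ • au g (bb i) := by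
      rw [hg i hi, smul_smul, inv_mul_cancel₀ (hk i hi), one_smul]
    rw [h7, au_smul, au_inv_au]
  rwa [h6] at h5

end MP7fH
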