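import Pool.Agent.Lib.MP_7f581e_ntH.Norm

/-!
Automorphisms of `PSU(N, F)`: the field automorphisms of the root groups.
-/

set_option autoImplicit false

namespace MP7fH

open Matrix

variable {F : Type*} [Field F] [HInv F] {N : ℕ}

theorem md_eq {x : Fin N → F} {a : Fin N} (ha : a = Fin.rev a) : md x = x a • bb a := by
  funext b
  rw [Pi.smul_apply, bb_apply]
  by_cases hba : b = a
  · rw [hba, if_pos rfl, smul_eq_mul, mul_one, md, if_pos ha]
  · rw [if_neg hba, smul_zero, md, if_neg]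
    intro hb
    exact hba (mid_unique hb ha)

theorem md_eq_zero {x : Fin N → F} (h : hf (md x) (md x) = 0) : md x = 0 := by
  by_contra h0
  obtain ⟨a, ha⟩ : ∃ a, md x a ≠ 0 := by
    by_contra hcon
    push Not at hcon
    exact h0 (funext hcon)
  have har : a = Fin.rev a := by
    by_contra har
    rw [md, if_neg har] at ha
    exact ha rfl
  rw [md_eq har, hf_smul_left, hf_smul_right, hf_bb, if_pos har, mul_one] at h
  rw [md, if_pos har] at ha
  exact norm_ne ha h

theorem pair_eq (h3 : 3 ≤ N) {α : PSU N F ≃* PSU N F} {v w v' w' : Fin N → F}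
    (hv : hf v v = 0) (hw : hf w w = 0) (hv' : hf v' v' = 0) (hw' : hf w' w' = 0)
    (hvw : hf v w = 1) (hvw' : hf v' w' = 1) {a b : F → F}
    (ha : ∀ t, Sk t → Sk (a t) ∧ α (mkU N F (T v t)) = mkU N F (T v' (a t)))
    (hb : ∀ t, Sk t → Sk (b t) ∧ α (mkU N F (T w t)) = mkU N F (T w' (b t)))
    (ha0 : a th ≠ 0) {x : F} (hx : Sk x) (hx0 : x ≠ 0) : a x * b (-x⁻¹) = -1 := by
  have hx' : Sk (-x⁻¹) := hx.inv.neg
  have hv'0 : v' ≠ 0 := by
    rintro rfl
    rw [hf_zero_left] at hvw'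
    exact zero_ne_one hvw'
  have h1 : T v x * T w (-x⁻¹) * T v x * T v th * (T v x * T w (-x⁻¹) * T v x)⁻¹ =
      T w (-x⁻¹ * bar (-x⁻¹) * th) := by
    rw [conj_T, ap_n hv hw hvw hx hx', mul_neg, mul_inv_cancel₀ hx0, add_neg_cancel, zero_smul,
      zero_add, T_smul _ hw Sk.th]
  have h2 := congrArg (fun X => α (mkU N F X)) h1
  have hsk : Sk (-x⁻¹ * bar (-x⁻¹) * th) := Sk.th.norm _
  simp only [map_mul, map_inv, (ha _ hx).2, (hb _ hx').2, (ha _ Sk.th).2, (hb _ hsk).2] at h2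
  have h4 : mkU N F (T (ap (T v' (a x) * T w' (b (-x⁻¹)) * T v' (a x)) v') (a th)) =
      mkU N F (T w' (b (-x⁻¹ * bar (-x⁻¹) * th))) := by
    rw [← conj_T, ← h2]
    simp only [map_mul, map_inv]
  have hn : hf (ap (T v' (a x) * T w' (b (-x⁻¹)) * T v' (a x)) v')
      (ap (T v' (a x) * T w' (b (-x⁻¹)) * T v' (a x)) v') = 0 := by rw [ap_hf, hv']
  have h5 := mkT_eq h3 hn hw' (ha _ Sk.th).1 (hb _ hsk).1 h4
  obtain ⟨k, -, hk1, -⟩ := T_eq hn (ap_ne_zero _ hv'0) hw' (ha _ Sk.th).1 (hb _ hsk).1 ha0 h5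
  rw [ap_n hv' hw' hvw' (ha _ hx).1 (hb _ hx').1] at hk1
  have h6 := congrArg (fun x => hf x w') hk1
  simp only [hf_add_left, hf_smul_left, hvw', hw', mul_zero, add_zero, mul_one] at h6
  linear_combination h6

/-- Normalized automorphisms. -/
structure Nm (β : PSU N F ≃* PSU N F) (S : F → F) (κ : Fin N → F) : Prop where
  im : ∀ w, w ≠ 0 → hf w w = 0 → ∃ w', Im β S w w'
  bs : ∀ i, i ≠ Fin.rev i → κ i ≠ 0 ∧ Im β S (bb i) (κ i • bb i)

/-- The norm. -/
def nr (x : F) : F := x * bar x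

theorem nr_ne {x : F} (h : x ≠ 0) : nr x ≠ 0 := norm_ne h

theorem bar_nr (x : F) : bar (nr x) = nr x := bar_norm x

section

variable {β : PSU N F ≃* PSU N F} {S : F → F} {κ : Fin N → F}

theorem Nm.skS (h : Nm β S κ) {i : Fin N} (hi : i ≠ Fin.rev i) {t : F} (ht : Sk t) : Sk (S t) :=
  (h.bs i hi).2.sk ht

theorem Nm.tr (h : Nm β S κ) {i : Fin N} (hi : i ≠ Fin.rev i) {t : F} (ht : Sk t) :
    β (mkU N F (T (bb i) t)) = mkU N F (T (bb i) (nr (κ i) * S t)) := by
  rw [(h.bs i hi).2.eq ht, T_smul _ (bb_iso hi) (h.skS hi ht)]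
  rfl

theorem Nm.pair (h3 : 3 ≤ N) (h : Nm β S κ) {i : Fin N} (hi : i ≠ Fin.rev i) {x : F} (hx : Sk x)
    (hx0 : x ≠ 0) : nr (κ i) * S x * (nr (κ (Fin.rev i)) * S (-x⁻¹)) = -1 := by
  have hS : ∀ t, Sk t → Sk (S t) := fun t ht => h.skS hi ht
  refine pair_eq h3 (bb_iso hi) (bb_iso (rev_ne hi)) (bb_iso hi) (bb_iso (rev_ne hi))
    (by rw [hf_bb, if_pos rfl]) (by rw [hf_bb, if_pos rfl])
    (a := fun t => nr (κ i) * S t) (b := fun t => nr (κ (Fin.rev i)) * S t)
    (fun t ht => ⟨(hS t ht).smul (bar_nr _), h.tr hi ht⟩)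
    (fun t ht => ⟨(hS t ht).smul (bar_nr _), h.tr (rev_ne hi) ht⟩) ?_ hx hx0
  exact mul_ne_zero (nr_ne (h.bs i hi).1)
    ((h.bs i hi).2.S_ne_zero h3 (bb_iso hi) (bb_ne_zero i) Sk.th th_ne)

theorem iso_add {i j : Fin N} (hi : i ≠ Fin.rev i) (hj : j ≠ Fin.rev j) (hji : j ≠ Fin.rev i)
    (l : F) : hf (bb i + l • bb j) (bb i + l • bb j : Fin N → F) = 0 := by
  have h1 : hf (bb i) (bb j : Fin N → F) = 0 := by rw [hf_bb, if_neg hji]
  simp only [hf_add_left, hf_add_right, hf_smul_left, hf_smul_right, bb_iso hi, bb_iso hj, h1,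
    hf_zero_symm h1, mul_zero, add_zero]

theorem add_ne_zero' {i j : Fin N} (hji : j ≠ i) (l : F) :
    (bb i + l • bb j : Fin N → F) ≠ 0 := by
  intro h
  have := congrFun h i
  rw [Pi.add_apply, Pi.smul_apply, bb_self, bb_apply, if_neg hji.symm, smul_zero, add_zero] at this
  exact one_ne_zero this

theorem Nm.tau (h3 : 3 ≤ N) (h : Nm β S κ) {i j : Fin N} (hi : i ≠ Fin.rev i)
    (hj : j ≠ Fin.rev j) (hji : j ≠ i) (hji' : j ≠ Fin.rev i) (l : F) :
    ∃ τ : F, (τ = 0 ↔ l = 0) ∧ ∀ t, Sk t → β (mkU N F (T (bb i + l • bb j) t)) =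
      mkU N F (T (bb i + τ • bb j) (nr (κ i) * S t)) := by
  have hv := iso_add hi hj hji' l
  have hv0 := add_ne_zero' hji l
  obtain ⟨w, hw⟩ := h.im _ hv0 hv
  have hS : ∀ t, Sk t → Sk (S t) := fun t ht => h.skS hi ht
  -- coordinates of `w`
  have hc : ∀ a, a ≠ Fin.rev a → ((bb i + l • bb j : Fin N → F) a = 0 ↔ w a = 0) := by
    intro a ha
    have h1 := Im.hf_iff h3 hv (bb_iso (rev_ne ha)) hv0 (bb_ne_zero _) hw (h.bs _ (rev_ne ha)).2
    rw [hf_bb_right, Fin.rev_rev, hf_smul_right, hf_bb_right, Fin.rev_rev, mul_eq_zero,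
      or_iff_right (bar_ne_zero (h.bs _ (rev_ne ha)).1)] at h1
    exact h1
  have hw0 : ∀ a, a ≠ Fin.rev a → a ≠ i → a ≠ j → w a = 0 := by
    intro a ha hai haj
    rw [← hc a ha, Pi.add_apply, Pi.smul_apply, bb_apply, bb_apply, if_neg hai, if_neg haj,
      smul_zero, add_zero]
  have hwi : w i ≠ 0 := by
    rw [Ne, ← hc i hi, Pi.add_apply, Pi.smul_apply, bb_self, bb_apply, if_neg hji.symm, smul_zero,
      add_zero]
    exact one_ne_zero
  have hwj : w j = 0 ↔ l = 0 := by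
    rw [← hc j hj, Pi.add_apply, Pi.smul_apply, bb_self, bb_apply, if_neg hji, zero_add,
      smul_eq_mul, mul_one]
  have hwd : w = w i • bb i + w j • bb j + md w := by
    funext a
    rw [Pi.add_apply, Pi.add_apply, Pi.smul_apply, Pi.smul_apply, bb_apply, bb_apply, md]
    by_cases ha : a = Fin.rev a
    · rw [if_neg (ne_of_mid hi ha), if_neg (ne_of_mid hj ha), if_pos ha]
      simp
    · rw [if_neg ha]
      by_cases hai : a = i
      · rw [hai, if_pos rfl, if_neg hji.symm]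
        simp
      · by_cases haj : a = j
        · rw [haj, if_neg hji, if_pos rfl]
          simp
        · rw [hw0 a ha hai haj, if_neg hai, if_neg haj]
          simp
  have hij : hf (bb i) (bb j : Fin N → F) = 0 := by rw [hf_bb, if_neg hji']
  have hmw : md w = 0 := by
    apply md_eq_zero
    have h1 := hw.iso
    rw [hwd] at h1
    have e1 := hf_md_o hi w
    have e2 := hf_md_o hj w
    simp only [hf_add_left, hf_add_right, hf_smul_left, hf_smul_right, bb_iso hi, bb_iso hj, hij,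
      hf_zero_symm hij, e1, e2, hf_zero_symm e1, hf_zero_symm e2, mul_zero, add_zero,
      zero_add] at h1
    exact h1
  rw [hmw, add_zero] at hwd
  set τ : F := w j / w i with hτ
  have hwτ : w = w i • (bb i + τ • bb j) := by
    rw [smul_add, smul_smul, hτ, mul_div_cancel₀ _ hwi]
    exact hwd
  have hτi := iso_add hi hj hji' τ
  have hβ : ∀ t, Sk t → β (mkU N F (T (bb i + l • bb j) t)) =
      mkU N F (T (bb i + τ • bb j) (nr (w i) * S t)) := by
    intro t ht
    rw [hw.eq ht]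
    conv_lhs => rw [hwτ]
    rw [T_smul _ hτi (hS t ht)]
    rfl
  have e3 : ∀ l : F, hf (bb i + l • bb j) (bb (Fin.rev i) : Fin N → F) = 1 := by
    intro l
    rw [hf_add_left, hf_smul_left, hf_bb, hf_bb, if_pos rfl, if_neg (rev_ne_rev hji).symm,
      mul_zero, add_zero]
  -- the parameter
  have hp : ∀ x, Sk x → x ≠ 0 → nr (w i) * S x * (nr (κ (Fin.rev i)) * S (-x⁻¹)) = -1 := by
    intro x hx hx0
    refine pair_eq h3 hv (bb_iso (rev_ne hi)) hτi (bb_iso (rev_ne hi)) (e3 l) (e3 τ)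
      (a := fun t => nr (w i) * S t) (b := fun t => nr (κ (Fin.rev i)) * S t)
      (fun t ht => ⟨(hS t ht).smul (bar_nr _), hβ t ht⟩)
      (fun t ht => ⟨(hS t ht).smul (bar_nr _), h.tr (rev_ne hi) ht⟩) ?_ hx hx0
    exact mul_ne_zero (nr_ne hwi)
      ((h.bs i hi).2.S_ne_zero h3 (bb_iso hi) (bb_ne_zero i) Sk.th th_ne)
  have hnw : nr (w i) = nr (κ i) := by
    have h1 := hp th Sk.th th_ne
    have h2 := h.pair h3 hi Sk.th th_ne
    have h4 : S th * (nr (κ (Fin.rev i)) * S (-th⁻¹)) ≠ 0 := by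
      intro h0
      have h5 : nr (w i) * S th * (nr (κ (Fin.rev i)) * S (-th⁻¹)) = 0 := by
        rw [mul_assoc, h0, mul_zero]
      rw [h5] at h1
      exact one_ne_zero (neg_eq_zero.mp h1.symm)
    apply mul_right_cancel₀ h4
    linear_combination h1 - h2
  refine ⟨τ, ?_, fun t ht => by rw [hβ t ht, hnw]⟩
  rw [hτ, div_eq_zero_iff, or_iff_left hwi, hwj]

theorem Nm.norm_tau (h3 : 3 ≤ N) (h : Nm β S κ) {i j : Fin N} (hi : i ≠ Fin.rev i)
    (hj : j ≠ Fin.rev j) (hji : j ≠ i) (hji' : j ≠ Fin.rev i) {l τ : F} (hτ0 : τ = 0 ↔ l = 0)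
    (hτ : ∀ t, Sk t → β (mkU N F (T (bb i + l • bb j) t)) =
      mkU N F (T (bb i + τ • bb j) (nr (κ i) * S t))) {x : F} (hx : Sk x) :
    nr (κ i) * S x * nr τ = nr (κ j) * S (nr l * x) := by
  have hS : ∀ t, Sk t → Sk (S t) := fun t ht => h.skS hi ht
  have hS0 : S 0 = 0 := (h.bs i hi).2.S_zero h3 (bb_iso hi)
  by_cases hl : l = 0
  · rw [hτ0.mpr hl, hl, nr, nr, zero_mul, zero_mul, hS0, mul_zero, mul_zero]
  by_cases hx0 : x = 0
  · rw [hx0, mul_zero, hS0, mul_zero, mul_zero, zero_mul]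
  have hτ1 : τ ≠ 0 := fun h' => hl (hτ0.mp h')
  have hSne : ∀ t, Sk t → t ≠ 0 → S t ≠ 0 := fun t ht ht0 =>
    (h.bs i hi).2.S_ne_zero h3 (bb_iso hi) (bb_ne_zero i) ht ht0
  have hrj := rev_ne hj
  have e1 : ∀ l : F, l ≠ 0 → hf (bb i + l • bb j) ((bar l)⁻¹ • bb (Fin.rev j) : Fin N → F) = 1 := by
    intro l hl
    rw [hf_smul_right, hf_add_left, hf_smul_left, hf_bb, hf_bb, if_pos rfl,
      if_neg (rev_ne_rev hji), map_inv₀, bar_bar]
    field_simp
    ring
  have e2 : ∀ c : F, hf (c • bb (Fin.rev j)) (c • bb (Fin.rev j) : Fin N → F) = 0 := by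
    intro c
    rw [hf_smul_left, hf_smul_right, bb_iso hrj, mul_zero, mul_zero]
  have e3 : ∀ l : F, l ≠ 0 → (bar l)⁻¹ * bar ((bar l)⁻¹) = (nr l)⁻¹ := by
    intro l hl
    rw [map_inv₀, bar_bar, nr, mul_inv, mul_comm]
  have hsk : ∀ t, Sk t → Sk ((nr l)⁻¹ * t) := fun t ht =>
    ht.smul (by rw [map_inv₀, bar_nr])
  have hb : ∀ t, Sk t → β (mkU N F (T ((bar l)⁻¹ • bb (Fin.rev j)) t)) =
      mkU N F (T ((bar τ)⁻¹ • bb (Fin.rev j))
        (nr τ * (nr (κ (Fin.rev j)) * S ((nr l)⁻¹ * t)))) := by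
    intro t ht
    rw [T_smul _ (bb_iso hrj) ht, e3 l hl, h.tr hrj (hsk t ht),
      T_smul _ (bb_iso hrj) (((hS _ (hsk t ht)).smul (bar_nr _)).smul (bar_nr _)), e3 τ hτ1,
      inv_mul_cancel_left₀ (nr_ne hτ1)]
  have h1 := pair_eq h3 (iso_add hi hj hji' l) (e2 _) (iso_add hi hj hji' τ) (e2 _) (e1 l hl)
      (e1 τ hτ1) (a := fun t => nr (κ i) * S t)
      (b := fun t => nr τ * (nr (κ (Fin.rev j)) * S ((nr l)⁻¹ * t)))
      (fun t ht => ⟨(hS t ht).smul (bar_nr _), hτ t ht⟩)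
      (fun t ht => ⟨((hS _ (hsk t ht)).smul (bar_nr _)).smul (bar_nr _), hb t ht⟩)
      (mul_ne_zero (nr_ne (h.bs i hi).1) (hSne _ Sk.th th_ne)) hx hx0
  have h2 := h.pair h3 hj (x := nr l * x) (hx.smul (bar_nr l)) (mul_ne_zero (nr_ne hl) hx0)
  have h4 : (nr l)⁻¹ * -x⁻¹ = -(nr l * x)⁻¹ := by
    rw [mul_inv, mul_neg]
  simp only [h4] at h1
  have h5 : nr (κ (Fin.rev j)) * S (-(nr l * x)⁻¹) ≠ 0 := by
    intro h0
    rw [h0, mul_zero] at h2
    exact one_ne_zero (neg_eq_zero.mp h2.symm)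
  apply mul_right_cancel₀ h5
  linear_combination h1 - h2

theorem E_eq_T {a b : Fin N → F} (ha : hf a a = 0) (hb : hf b b = 0) (hab : hf a b = 0) {t : F}
    (ht : Sk t) (l : F) : E a ((t * l) • b) 0 =
      T (a + l • b) t * T a (-t) * T b (-(nr l * t)) := by
  have h1 : EC a ((t * l) • b) 0 := ⟨ha, by rw [hf_smul_left, hf_zero_symm hab, mul_zero], by
    rw [hf_smul_left, hf_smul_right, hb]; simp⟩
  have h2 : hf (a + l • b) (a + l • b) = 0 := by
    simp only [hf_add_left, hf_add_right, hf_smul_left, hf_smul_right, ha, hb, hab,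
      hf_zero_symm hab, mul_zero, add_zero]
  have hba := hf_zero_symm hab
  apply su_ext
  intro x
  rw [ap_E h1, ap_mul, ap_mul, ap_T hb (ht.smul (bar_nr l)).neg, ap_T ha ht.neg, ap_T h2 ht]
  simp only [hf_add_left, hf_add_right, hf_smul_left, hf_smul_right, ha, hb, hab, hba, map_mul,
    mul_zero, add_zero, nr]
  rw [Sk] at ht
  rw [ht]
  module

/-- The action of a normalized automorphism on a root group. -/
theorem Nm.exists_A (h3 : 3 ≤ N) (h : Nm β S κ) {i j : Fin N} (hi : i ≠ Fin.rev i)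
    (hj : j ≠ Fin.rev j) (hji : j ≠ i) (hji' : j ≠ Fin.rev i) :
    ∃ A τ : F → F, (∀ m, β (mkU N F (E (bb i) (m • bb j) 0)) = mkU N F (E (bb i) (A m • bb j) 0)) ∧
      (∀ t l, Sk t → A (t * l) = nr (κ i) * S t * τ l) ∧
      (∀ x l, Sk x → nr (κ i) * S x * nr (τ l) = nr (κ j) * S (nr l * x)) ∧ A 1 ≠ 0 ∧
      ∀ m n, A (m + n) = A m + A n := by
  have hS : ∀ t, Sk t → Sk (S t) := fun t ht => h.skS hi ht
  have hij : hf (bb i) (bb j : Fin N → F) = 0 := by rw [hf_bb, if_neg hji']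
  choose τ hτ0 hτ using fun l => h.tau h3 hi hj hji hji' l
  have hτn : ∀ x l, Sk x → nr (κ i) * S x * nr (τ l) = nr (κ j) * S (nr l * x) := fun x l hx =>
    h.norm_tau h3 hi hj hji hji' (hτ0 l) (hτ l) hx
  have hSneg : ∀ t, Sk t → S (-t) = -S t := by
    intro t ht
    have h1 := (h.bs i hi).2.S_add h3 (bb_iso hi) ht ht.neg
    rw [add_neg_cancel, (h.bs i hi).2.S_zero h3 (bb_iso hi)] at h1
    exact eq_neg_of_add_eq_zero_right h1.symm
  have key : ∀ t l, Sk t → β (mkU N F (E (bb i) ((t * l) • bb j) 0)) =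
      mkU N F (E (bb i) ((nr (κ i) * S t * τ l) • bb j) 0) := by
    intro t l ht
    have hn : Sk (nr l * t) := ht.smul (bar_nr l)
    have hk : Sk (nr (κ i) * S t) := (hS t ht).smul (bar_nr _)
    rw [E_eq_T (bb_iso hi) (bb_iso hj) hij ht, map_mul, map_mul, map_mul, map_mul, hτ l t ht,
      h.tr hi ht.neg, h.tr hj hn.neg, hSneg t ht, hSneg _ hn, mul_neg, mul_neg, ← hτn t l ht,
      E_eq_T (bb_iso hi) (bb_iso hj) hij hk, map_mul, map_mul, mul_comm (nr (τ l))]
  have hinj : ∀ k l : F, mkU N F (E (bb i) (k • bb j) 0) = mkU N F (E (bb i) (l • bb j) 0) →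
      k = l := fun k l hkl => X_inj h3 (bb_iso hi) (bb_iso hj) hij (bb_ne_zero i) (bb_ne_zero j)
        (by
          intro c hc
          have h1 := congrFun hc j
          rw [bb_self, Pi.smul_apply, bb_apply, if_neg hji, smul_zero] at h1
          exact one_ne_zero h1) hkl
  have hth : (th : F) ≠ 0 := th_ne
  have hE : ∀ m n : F, E (bb i) ((m + n) • bb j) 0 =
      E (bb i) (m • bb j) 0 * E (bb i) (n • bb j : Fin N → F) 0 := by
    intro m n
    rw [E_mul (ec_bb0 hi hji' hj m) (ec_bb0 hi hji' hj n), ← add_smul, hf_smul_left,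
      hf_smul_right, bb_iso hj]
    simp
  refine ⟨fun m => nr (κ i) * S th * τ (m / th), τ, ?_, ?_, hτn, ?_, ?_⟩
  · intro m
    have := key th (m / th) Sk.th
    rwa [mul_div_cancel₀ _ hth] at this
  · intro t l ht
    apply hinj
    rw [← key t l ht]
    have := key th (t * l / th) Sk.th
    rw [mul_div_cancel₀ _ hth] at this
    exact this.symm
  · apply mul_ne_zero
    · exact mul_ne_zero (nr_ne (h.bs i hi).1)
        ((h.bs i hi).2.S_ne_zero h3 (bb_iso hi) (bb_ne_zero i) Sk.th th_ne)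
    · rw [Ne, hτ0]
      exact div_ne_zero one_ne_zero hth
  · intro m n
    apply hinj
    have hA : ∀ m, β (mkU N F (E (bb i) (m • bb j) 0)) =
        mkU N F (E (bb i) ((nr (κ i) * S th * τ (m / th)) • bb j) 0) := by
      intro m
      have := key th (m / th) Sk.th
      rwa [mul_div_cancel₀ _ hth] at this
    rw [← hA, hE, map_mul, map_mul, hA, hA, hE, map_mul]

end

/-- An additive map which is compatible with norms is a field automorphism. -/
theorem exists_ring [Finite F] (f : F → F) (hadd : ∀ x y, f (x + y) = f x + f y) (h1 : f 1 = 1)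
    (hu : ∀ u x, bar u = u → f (u * x) = f u * f x) (hb : ∀ u, bar u = u → bar (f u) = f u)
    (hN : ∀ x, nr (f x) = f (nr x)) :
    ∃ σ : F ≃+* F, (∀ x, σ x = f x) ∧ ∀ x, σ (bar x) = bar (σ x) := by
  have hbar : ∀ x, f (bar x) = bar (f x) := by
    intro x
    have h2 := hN (x + 1)
    have h3 : nr (x + 1) = nr x + (x + bar x + 1) := by
      rw [nr, nr, map_add, map_one]
      ring
    rw [h3, hadd, hadd, hadd, h1, ← hN x, nr, nr, map_add, map_one] at h2
    linear_combination -h2 - hadd x (bar x)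
  have hsq : ∀ x, f (x * x) = f x * f x := by
    intro x
    have h2 : x * x + nr x = (x + bar x) * x := by
      rw [nr]
      ring
    have h3 : bar (x + bar x) = x + bar x := by
      rw [map_add, bar_bar, add_comm]
    have h4 := congrArg f h2
    rw [hadd, hu _ _ h3, hadd, hbar, ← hN, nr] at h4
    linear_combination h4
  have hmul : ∀ x y, f (x * y) = f x * f y := by
    intro x y
    by_cases hx : bar x = x
    · exact hu x y hx
    · have hx' : x - bar x ≠ 0 := sub_ne_zero.mpr (Ne.symm hx)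
      set b : F := (y - bar y) / (x - bar x) with hb'
      have hbb : bar b = b := by
        rw [hb', map_div₀, map_sub, map_sub, bar_bar, bar_bar, ← neg_sub y, ← neg_sub x,
          neg_div_neg_eq]
      set a : F := y - b * x with ha
      have hbx : b * (x - bar x) = y - bar y := div_mul_cancel₀ _ hx'
      have haa : bar a = a := by
        rw [ha, map_sub, map_mul, hbb]
        linear_combination hbx
      have hy : y = a + b * x := by rw [ha]; ring
      have h2 : x * y = a * x + b * (x * x) := by rw [hy]; ring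
      rw [h2, hadd, hu a x haa, hu b _ hbb, hsq, hy, hadd, hu b x hbb]
      ring
  let σr : F →+* F :=
    { toFun := f
      map_one' := h1
      map_mul' := hmul
      map_zero' := by
        have := hadd 0 0
        rw [add_zero] at this
        exact left_eq_add.mp this
      map_add' := hadd }
  have hbij : Function.Bijective σr :=
    ⟨σr.injective, Finite.surjective_of_injective σr.injective⟩
  exact ⟨RingEquiv.ofBijective σr hbij, fun x => rfl, hbar⟩

section

variable {β : PSU N F ≃* PSU N F} {S : F → F} {κ : Fin N → F}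

/-- The field automorphism of a root group. -/
theorem Nm.exists_sigma [Finite F] (h3 : 3 ≤ N) (h : Nm β S κ) {i j : Fin N}
    (hi : i ≠ Fin.rev i) (hj : j ≠ Fin.rev j) (hji : j ≠ i) (hji' : j ≠ Fin.rev i) :
    ∃ (ρ : F) (σ : F ≃+* F), ρ ≠ 0 ∧ (∀ x, σ (bar x) = bar (σ x)) ∧
      (∀ m, β (mkU N F (E (bb i) (m • bb j) 0)) =
        mkU N F (E (bb i) ((ρ * σ m) • bb j) 0)) ∧
      (∀ t, Sk t → S t * σ th = S th * σ t) ∧
      nr ρ * σ th ^ 2 = nr (κ i) * nr (κ j) * S th ^ 2 := by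
  obtain ⟨A, τ, hA, hAτ, hτn, hA1, hadd⟩ := h.exists_A h3 hi hj hji hji'
  have hS : ∀ t, Sk t → Sk (S t) := fun t ht => h.skS hi ht
  have hSt : S th ≠ 0 := (h.bs i hi).2.S_ne_zero h3 (bb_iso hi) (bb_ne_zero i) Sk.th th_ne
  have hth : (th : F) ≠ 0 := th_ne
  have hki : nr (κ i) ≠ 0 := nr_ne (h.bs i hi).1
  -- semilinearity over the fixed field
  have hu : ∀ u m, bar u = u → A (u * m) * S th = S (u * th) * A m := by
    intro u m hu
    have h1 := hAτ (u * th) (m / th) (Sk.th.smul hu)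
    have h2 := hAτ th (m / th) Sk.th
    have e1 : u * th * (m / th) = u * m := by field_simp
    have e2 : th * (m / th) = m := mul_div_cancel₀ _ hth
    rw [e1] at h1
    rw [e2] at h2
    rw [h1, h2]
    ring
  set f : F → F := fun m => A m / A 1 with hf'
  have hfu : ∀ u, bar u = u → S (u * th) = f u * S th := by
    intro u hu'
    have h1 := hu u 1 hu'
    rw [mul_one] at h1
    rw [hf']
    simp only
    field_simp
    linear_combination -h1
  have hf1 : f 1 = 1 := div_self hA1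
  have hfu2 : ∀ u m, bar u = u → f (u * m) = f u * f m := by
    intro u m hu'
    have h1 := hu u m hu'
    rw [hfu u hu'] at h1
    have h2 : A (u * m) = f u * A m := by
      apply mul_right_cancel₀ hSt
      linear_combination h1
    change A (u * m) / A 1 = f u * (A m / A 1)
    rw [h2, mul_div_assoc]
  have hfb : ∀ u, bar u = u → bar (f u) = f u := by
    intro u hu'
    have h1 : f u = S (u * th) / S th := by
      rw [hfu u hu', mul_div_cancel_right₀ _ hSt]
    rw [h1]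
    exact (hS _ (Sk.th.smul hu')).div (hS _ Sk.th)
  have hnA : ∀ m, nr (A m) = (nr (κ i) * nr (S th) * nr (κ j) * f (nr th)⁻¹) * f (nr m) := by
    intro m
    have h2 := hAτ th (m / th) Sk.th
    rw [mul_div_cancel₀ _ hth] at h2
    have h4 := hτn th (m / th) Sk.th
    have e1 : nr (m / th) = (nr th)⁻¹ * nr m := by
      rw [nr, nr, nr, map_div₀]
      have := bar_ne_zero hth
      field_simp
    have e2 : bar ((nr (th : F))⁻¹ * nr m) = (nr th)⁻¹ * nr m := by
      rw [map_mul, map_inv₀, bar_nr, bar_nr]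
    have e3 : bar (nr (th : F))⁻¹ = (nr th)⁻¹ := by rw [map_inv₀, bar_nr]
    rw [e1, hfu _ e2, hfu2 _ _ e3] at h4
    have h5 : nr (A m) = nr (nr (κ i)) * nr (S th) * nr (τ (m / th)) := by
      rw [h2]
      simp only [nr, map_mul]
      ring
    have h6 : nr (nr (κ i)) = nr (κ i) * nr (κ i) := by
      conv_lhs => rw [nr, bar_nr]
    apply mul_right_cancel₀ hSt
    rw [h5, h6]
    linear_combination nr (κ i) * nr (S th) * h4
  have hfN : ∀ m, nr (f m) = f (nr m) := by
    intro m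
    have h1 : nr (f m) = nr (A m) / nr (A 1) := by
      change nr (A m / A 1) = _
      rw [nr, nr, nr, map_div₀]
      have := bar_ne_zero hA1
      field_simp
    have h2 := hnA 1
    have h4 : nr (1 : F) = 1 := by rw [nr, map_one, mul_one]
    rw [h4, hf1, mul_one] at h2
    rw [h1, hnA m, ← h2, mul_div_cancel_left₀ _ (nr_ne hA1)]
  obtain ⟨σ, hσ, hσb⟩ := exists_ring f (by
    intro x y
    change A (x + y) / A 1 = A x / A 1 + A y / A 1
    rw [hadd, add_div]) hf1 hfu2 hfb hfN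
  refine ⟨A 1, σ, hA1, hσb, ?_, ?_, ?_⟩
  · intro m
    rw [hA, hσ]
    change mkU N F (E (bb i) (A m • bb j) 0) = mkU N F (E (bb i) ((A 1 * (A m / A 1)) • bb j) 0)
    rw [mul_div_cancel₀ _ hA1]
  · intro t ht
    have h1 : bar (t / th) = t / th := ht.div Sk.th
    have h2 := hfu _ h1
    rw [div_mul_cancel₀ _ hth, ← hσ, map_div₀] at h2
    rw [h2]
    have : σ th ≠ 0 := by
      intro h0
      exact hth ((map_eq_zero σ).mp h0)
    field_simp
  · have h2 := hAτ th th⁻¹ Sk.th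
    rw [mul_inv_cancel₀ hth] at h2
    have h4 := hτn th th⁻¹ Sk.th
    have e1 : nr (th : F)⁻¹ * th = (-(th * th)⁻¹) * th := by
      rw [nr, map_inv₀, bar_th]
      field_simp
    have e2 : bar (-((th : F) * th)⁻¹) = -(th * th)⁻¹ := by
      rw [map_neg, map_inv₀, Sk.th.mul Sk.th]
    rw [e1, hfu _ e2, ← hσ, map_neg, map_inv₀, map_mul] at h4
    have hσt : σ th ≠ 0 := by
      intro h0
      exact hth ((map_eq_zero σ).mp h0)
    have h5 : nr (A 1) = nr (κ i) * nr (κ i) * (S th * -S th) * nr (τ th⁻¹) := by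
      have h6 : nr (nr (κ i)) = nr (κ i) * nr (κ i) := by
        conv_lhs => rw [nr, bar_nr]
      have h7 : nr (S th) = S th * -S th := by
        rw [nr, hS _ Sk.th]
      rw [← h6, ← h7, h2]
      simp only [nr, map_mul]
      ring
    rw [h5]
    have h8 : nr (κ i) * S th * nr (τ th⁻¹) * (σ th * σ th) = -(nr (κ j) * S th) := by
      rw [h4]
      field_simp
    linear_combination (-(nr (κ i)) * S th) * h8

/-- The field automorphisms of two root groups are the same. -/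
theorem Nm.same [Finite F] (h3 : 3 ≤ N) (h : Nm β S κ) {o k l : Fin N}
    (ho : o ≠ Fin.rev o) (hk : k ≠ Fin.rev k) (hl : l ≠ Fin.rev l) (hko : k ≠ o)
    (hko' : k ≠ Fin.rev o) (hlo : l ≠ o) (hlo' : l ≠ Fin.rev o) (hkl : l ≠ k)
    (hkl' : l ≠ Fin.rev k) {ρ ρ' : F} {σ σ' : F ≃+* F} (hρ0 : ρ ≠ 0) (hρ'0 : ρ' ≠ 0)
    (hρ : ∀ m, β (mkU N F (E (bb o) (m • bb k) 0)) =
        mkU N F (E (bb o) ((ρ * σ m) • bb k) 0))
    (hρ' : ∀ m, β (mkU N F (E (bb o) (m • bb l) 0)) =
        mkU N F (E (bb o) ((ρ' * σ' m) • bb l) 0)) : σ = σ' := by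
  obtain ⟨r, s, hr, -, hrs, -, -⟩ := h.exists_sigma h3 (i := Fin.rev k) (j := l) (rev_ne hk) hl
    hkl' (by rwa [Fin.rev_rev])
  have hkk : hf (bb k) (bb (Fin.rev k) : Fin N → F) = 1 := by rw [hf_bb, if_pos rfl]
  have hgo : ∀ m : F, ap (E (bb (Fin.rev k)) (m • bb l) 0) (bb o : Fin N → F) = bb o := by
    intro m
    rw [ap_E (ec_bb0 (rev_ne hk) (by rwa [Fin.rev_rev]) hl m), hf_smul_right, hf_bb, hf_bb,
      if_neg (rev_ne_rev hko), if_neg hlo']
    simp
  have hgk : ∀ m : F, ap (E (bb (Fin.rev k)) (m • bb l) 0) (bb k : Fin N → F) =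
      bb k + m • bb l := by
    intro m
    rw [ap_E (ec_bb0 (rev_ne hk) (by rwa [Fin.rev_rev]) hl m), hf_smul_right, hf_bb, hf_bb,
      if_pos rfl, if_neg hkl']
    simp
  have hkl0 : hf (bb l) (bb k : Fin N → F) = 0 := by
    rw [hf_bb, if_neg]
    intro h'
    apply hkl'
    rw [h', Fin.rev_rev]
  -- the relation
  have hrel : ∀ m n : F, E (bb (Fin.rev k)) (m • bb l) (0 : F) * E (bb o) (n • bb k) (0 : F) *
      (E (bb (Fin.rev k)) (m • bb l) (0 : F))⁻¹ =
      E (bb o) (n • bb k) (0 : F) * E (bb o) ((n * m) • bb l : Fin N → F) (0 : F) := by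
    intro m n
    rw [conj_E, ap_smul, hgo, hgk, E_mul (ec_bb0 ho hko' hk n) (ec_bb0 ho hlo' hl _), smul_add,
      smul_smul, hf_smul_left, hf_smul_right, hkl0]
    simp
  have h1 : ∀ m n : F, ρ' * σ' (n * m) = ρ * σ n * (r * s m) := by
    intro m n
    have h2 := congrArg (fun X => β (mkU N F X)) (hrel m n)
    simp only [map_mul, map_inv, hρ, hρ', hrs] at h2
    have h4 := congrArg (mkU N F) (hrel (r * s m) (ρ * σ n))
    simp only [map_mul, map_inv] at h4
    rw [h4] at h2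
    have h5 := mul_left_cancel h2
    have h6 := X_inj h3 (bb_iso ho) (bb_iso hl) (by rw [hf_bb, if_neg hlo']) (bb_ne_zero o)
      (bb_ne_zero l) (by
          intro c hc
          have h1 := congrFun hc l
          rw [bb_self, Pi.smul_apply, bb_apply, if_neg hlo, smul_zero] at h1
          exact one_ne_zero h1) h5
    rw [map_mul]
    exact h6.symm
  have h2 : ∀ n : F, ρ' * σ' n = ρ * σ n * r := by
    intro n
    have := h1 1 n
    rwa [mul_one, map_one, mul_one] at this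
  have h4 := h2 1
  rw [map_one, mul_one, map_one, mul_one] at h4
  apply RingEquiv.ext
  intro n
  have h5 := h2 n
  rw [h4] at h5
  apply mul_left_cancel₀ (mul_ne_zero hρ0 hr)
  linear_combination -h5

end

end MP7fH
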