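import Pool.Agent.Lib.MP_7f581e_ntH.Id

/-!
Eichler transformations generate the special unitary group, which is perfect.
-/

set_option autoImplicit false

namespace MP7fH

open Matrix

variable {F : Type*} [Field F] [HInv F] {N : ℕ}

theorem E_pow {e w : Fin N → F} {k : F} (H : EC e w k) (n : ℕ) :
    ∃ k', EC e ((n : F) • w) k' ∧ E e w k ^ n = E e ((n : F) • w) k' := by
  induction n with
  | zero =>
    refine ⟨0, ⟨H.1, ?_, ?_⟩, ?_⟩
    · rw [Nat.cast_zero, zero_smul, hf_zero_left]
    · rw [Nat.cast_zero, zero_smul, hf_zero_left, map_zero, add_zero, neg_zero]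
    · rw [pow_zero, Nat.cast_zero, zero_smul, E_zero]
  | succ n ih =>
    obtain ⟨k', h1, h2⟩ := ih
    have h3 : ((n + 1 : ℕ) : F) • w = (n : F) • w + w := by
      rw [Nat.cast_succ, add_smul, one_smul]
    rw [h3]
    exact ⟨_, h1.add H, by rw [pow_succ, h2, E_mul h1 H]⟩

theorem T_pow {v : Fin N → F} (hv : hf v v = 0) {t : F} (ht : Sk t) (n : ℕ) :
    T v t ^ n = T v ((n : F) * t) ∧ Sk ((n : F) * t) := by
  induction n with
  | zero =>
    rw [pow_zero, Nat.cast_zero, zero_mul, T_zero]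
    exact ⟨rfl, Sk.zero⟩
  | succ n ih =>
    have h3 : ((n + 1 : ℕ) : F) * t = (n : F) * t + t := by
      rw [Nat.cast_succ, add_mul, one_mul]
    rw [h3, pow_succ, ih.1, T_add hv ih.2 ht]
    exact ⟨rfl, ih.2.add ht⟩

theorem E_pow_p {p : ℕ} [CharP F p] {e w : Fin N → F} {k : F} (H : EC e w k) :
    E e w k ^ (p * p) = 1 := by
  obtain ⟨k', h1, h2⟩ := E_pow H p
  rw [CharP.cast_eq_zero F p, zero_smul] at h1 h2
  have h3 : Sk k' := by
    have h4 := h1.2.2
    rw [hf_zero_left, neg_zero] at h4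
    rw [Sk]
    linear_combination h4
  have h4 := (T_pow h1.1 h3 p).1
  rw [CharP.cast_eq_zero F p, zero_mul, T_zero] at h4
  rw [pow_mul, h2]
  exact h4

/-- The group generated by the Eichler transformations. -/
def K0 (N : ℕ) (F : Type*) [Field F] [HInv F] : Subgroup (SU N F) :=
  Subgroup.closure {g | ∃ e w k, EC e w k ∧ g = E e w k}

theorem E_mem {e w : Fin N → F} {k : F} (H : EC e w k) : E e w k ∈ K0 N F :=
  Subgroup.subset_closure ⟨e, w, k, H, rfl⟩

theorem cjU_mem (r : UU N F) {g : SU N F} (hg : g ∈ K0 N F) : cjU r g ∈ K0 N F := by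
  have h : K0 N F ≤ (K0 N F).comap (cjU r : SU N F →* SU N F) := by
    rw [K0, Subgroup.closure_le]
    rintro _ ⟨e, w, k, H, rfl⟩
    change cjU r (E e w k) ∈ K0 N F
    rw [cjU_E]
    exact E_mem ((EC.au r).mpr H)
  exact h hg

/-- The embedding into the general linear group. -/
def io (N : ℕ) (F : Type*) [Field F] [HInv F] : SU N F →* GL (Fin N) F :=
  SpecialLinearGroup.toGL.comp (SUg N F).subtype

theorem io_mulVec (g : SU N F) (x : Fin N → F) : (io N F g).1 *ᵥ x = ap g x := rfl

theorem gl_ext {g h : GL (Fin N) F} (H : ∀ x, g.1 *ᵥ x = h.1 *ᵥ x) : g = h :=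
  Units.ext (Matrix.mulVec_injective (funext H))

theorem io_inj : Function.Injective (io N F) := by
  intro g h H
  apply su_ext
  intro x
  rw [← io_mulVec, H, io_mulVec]

/-- Moving vectors by Eichler transformations. -/
theorem trans_E {x y v : Fin N → F} (hv : hf v v = 0) (hxy : hf x x = hf y y)
    (h : hf x v = hf y v) (h0 : hf x v ≠ 0) : ∃ g ∈ K0 N F, ap g x = y := by
  set α := hf x v with hα
  set w := α⁻¹ • (y - x) with hw
  have hy : y = x + α • w := by
    rw [hw, smul_smul, mul_inv_cancel₀ h0, one_smul, add_sub_cancel]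
  have hwv : hf w v = 0 := by
    rw [hw, hf_smul_left, hf_sub_left, ← h, ← hα, sub_self, mul_zero]
  have hb0 : bar α ≠ 0 := bar_ne_zero h0
  have h1 : bar α * hf x w + α * hf w x + α * bar α * hf w w = 0 := by
    have h2 := hxy
    rw [hy] at h2
    simp only [hf_add_left, hf_add_right, hf_smul_left, hf_smul_right] at h2
    linear_combination -h2
  have hEC : EC v w (hf x w / α) := by
    refine ⟨hv, hwv, ?_⟩
    rw [map_div₀, hf_swap]
    field_simp
    linear_combination h1
  refine ⟨E v w (hf x w / α), E_mem hEC, ?_⟩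
  rw [ap_E hEC, ← hα, hy, div_mul_cancel₀ _ h0]
  module

/-- The image of the diagonal matrices. -/
def dg (N : ℕ) (F : Type*) [Field F] : (Fin N → Fˣ) →* GL (Fin N) F :=
  (Units.map ((Matrix.diagonalRingHom (Fin N) F : (Fin N → F) →+* _) : (Fin N → F) →* _)).comp
    (MulEquiv.toMonoidHom (MulEquiv.piUnits (M := fun _ : Fin N => F)).symm)

omit [HInv F] in
theorem dg_coe (d : Fin N → Fˣ) : (dg N F d).1 = Matrix.diagonal (fun i => (d i : F)) := rfl

omit [HInv F] in
theorem dg_mulVec (d : Fin N → Fˣ) (x : Fin N → F) :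
    (dg N F d).1 *ᵥ x = fun i => (d i : F) * x i := by
  rw [dg_coe]
  funext i
  exact Matrix.mulVec_diagonal _ _ _

/-- Diagonal matrices with respect to a basis. -/
def cdg (P : GL (Fin N) F) : (Fin N → Fˣ) →* GL (Fin N) F :=
  (MulEquiv.toMonoidHom (MulAut.conj P)).comp (dg N F)

omit [HInv F] in
theorem cdg_mulVec (P : GL (Fin N) F) (d : Fin N → Fˣ) (x : Fin N → F) :
    (cdg P d).1 *ᵥ x = P.1 *ᵥ (fun i => (d i : F) * ((P⁻¹).1 *ᵥ x) i) := by
  have h1 : cdg P d = P * dg N F d * P⁻¹ := rfl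
  rw [h1, Units.val_mul, Units.val_mul, ← mulVec_mulVec, ← mulVec_mulVec, dg_mulVec]

theorem io_cjU (r : UU N F) (g : SU N F) : io N F (cjU r g) = r.1 * io N F g * (r.1)⁻¹ := by
  apply gl_ext
  intro x
  rw [io_mulVec, ap_cjU, Units.val_mul, Units.val_mul, ← mulVec_mulVec, ← mulVec_mulVec,
    io_mulVec]
  rfl

theorem center_le [Finite F] (h3 : 3 ≤ N) : Subgroup.center (SU N F) ≤ K0 N F := by
  intro z hz
  obtain ⟨c, hc0, hc⟩ := scalar_of_center h3 hz
  have hcc : c * bar c = 1 := by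
    have h1 := ap_hf z (bb ⟨0, by omega⟩) (bb (Fin.rev ⟨0, by omega⟩))
    rw [hc, hc, hf_smul_left, hf_smul_right, hf_bb, if_pos rfl, mul_one] at h1
    exact h1
  have hcN : c ^ N = 1 := by
    have h1 : sm z.1 = c • (1 : Matrix (Fin N) (Fin N) F) := by
      apply Matrix.mulVec_injective
      funext x
      rw [smul_mulVec, one_mulVec]
      exact hc x
    have h2 : (sm z.1).det = 1 := z.1.2
    rw [h1, det_smul, det_one, mul_one, Fintype.card_fin] at h2
    exact h2
  obtain ⟨P, hP⟩ := exists_isom (F := F) (N := N)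
  set u : Fˣ := Units.mk0 c hc0 with hu
  set v : Fin N → Fin N → F := fun i => P.1 *ᵥ bb i with hv
  have hvv : ∀ i j, hf (v i) (v j) = if i = j then 1 else 0 := by
    intro i j
    rw [hv, hP, idf_bb]
  obtain ⟨dP, hdP⟩ : ∃ dP : (Fin N → Fˣ) →* GL (Fin N) F,
      ∀ d x, (dP d).1 *ᵥ x = P.1 *ᵥ (fun i => (d i : F) * ((P⁻¹).1 *ᵥ x) i) :=
    ⟨cdg P, cdg_mulVec P⟩
  have hsingle : ∀ i x, (dP (Pi.mulSingle i u)).1 *ᵥ x = x + ((c - 1) * hf x (v i)) • v i := by
    intro i x
    rw [hdP]
    have h1 : ((P⁻¹).1 *ᵥ x) i = hf x (v i) := by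
      rw [hv]
      conv_rhs => rw [← gl_mulVec_inv P x, hP]
      rw [idf, Finset.sum_eq_single i]
      · rw [bb_self, map_one, mul_one]
      · intro k _ hk
        rw [bb_apply, if_neg hk, map_zero, mul_zero]
      · intro h
        exact absurd (Finset.mem_univ _) h
    have h2 : (fun j => ((Pi.mulSingle i u : Fin N → Fˣ) j : F) * ((P⁻¹).1 *ᵥ x) j) =
        (P⁻¹).1 *ᵥ x + ((c - 1) * hf x (v i)) • bb i := by
      funext j
      rw [Pi.add_apply, Pi.smul_apply, smul_eq_mul, bb_apply]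
      by_cases hj : j = i
      · subst hj
        rw [Pi.mulSingle_eq_same, if_pos rfl, hu, Units.val_mk0, h1]
        ring
      · rw [Pi.mulSingle_eq_of_ne hj, if_neg hj, Units.val_one]
        ring
    rw [h2, mulVec_add, gl_mulVec_inv, mulVec_smul]
  have hconst : dP (fun _ => u) = io N F z := by
    apply gl_ext
    intro x
    rw [hdP, io_mulVec, hc]
    have h2 : (fun j => (u : F) * ((P⁻¹).1 *ᵥ x) j) = c • ((P⁻¹).1 *ᵥ x) := rfl
    rw [h2, mulVec_smul, gl_mulVec_inv]
  set o : Fin N := ⟨0, by omega⟩ with ho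
  have hUU : ∀ i, dP (Pi.mulSingle i u) ∈ UU N F := by
    intro i x y
    rw [hsingle, hsingle]
    have h1 := hvv i i
    rw [if_pos rfl] at h1
    simp only [hf_add_left, hf_add_right, hf_smul_left, hf_smul_right, h1, map_mul, map_sub,
      map_one, hf_swap]
    linear_combination (hf x (v i) * hf (v i) y) * hcc
  -- the kernel
  have hi : ∀ i, Pi.mulSingle i u * (Pi.mulSingle o u)⁻¹ ∈ ((K0 N F).map (io N F)).comap dP := by
    intro i
    by_cases hio : i = o
    · rw [hio, mul_inv_cancel]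
      exact one_mem _
    -- a third index
    obtain ⟨j, hjo, hji⟩ : ∃ j : Fin N, j ≠ o ∧ j ≠ i := by
      by_cases h1 : i.val = 1
      · refine ⟨⟨2, by omega⟩, fun h => ?_, fun h => ?_⟩
        · have := congrArg Fin.val h
          simp only [ho] at this
          omega
        · have := congrArg Fin.val h
          simp only at this
          omega
      · refine ⟨⟨1, by omega⟩, fun h => ?_, fun h => ?_⟩
        · have := congrArg Fin.val h
          simp only [ho] at this
          omega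
        · exact h1 (congrArg Fin.val h).symm
    obtain ⟨β, hβ⟩ : ∃ β : F, β * bar β = -2 := by
      by_cases h2 : (2 : F) = 0
      · exact ⟨0, by rw [h2, neg_zero, zero_mul]⟩
      · exact norm_surj (by rw [map_neg, map_ofNat]) (neg_ne_zero.mpr h2)
    obtain ⟨n, hn, hn1⟩ : ∃ n ∈ K0 N F, ap n (v o) = v i := by
      have e1 := hvv o o
      have e2 := hvv i i
      have e3 := hvv j j
      have e4 := hvv o i
      have e5 := hvv o j
      have e6 := hvv i j
      have e7 := hvv i o
      have e8 := hvv j o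
      have e9 := hvv j i
      rw [if_pos rfl] at e1 e2 e3
      rw [if_neg (Ne.symm hio)] at e4
      rw [if_neg (Ne.symm hjo)] at e5
      rw [if_neg (Ne.symm hji)] at e6
      rw [if_neg hio] at e7
      rw [if_neg hjo] at e8
      rw [if_neg hji] at e9
      have e10 : hf (v o) (v o + v i + β • v j) = 1 := by
        simp only [hf_add_right, hf_smul_right, e1, e4, e5]
        ring
      have e11 : hf (v i) (v o + v i + β • v j) = 1 := by
        simp only [hf_add_right, hf_smul_right, e2, e7, e6]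
        ring
      have e12 : hf (v o + v i + β • v j) (v o + v i + β • v j) = 0 := by
        simp only [hf_add_left, hf_add_right, hf_smul_left, hf_smul_right, e1, e2, e3, e4, e5,
          e6, e7, e8, e9]
        linear_combination hβ
      exact trans_E e12 (e1.trans e2.symm) (e10.trans e11.symm) (by rw [e10]; exact one_ne_zero)
    set r : UU N F := ⟨dP (Pi.mulSingle o u), hUU o⟩ with hr
    have h4 : dP (Pi.mulSingle i u) = io N F n * dP (Pi.mulSingle o u) * (io N F n)⁻¹ := by
      apply gl_ext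
      intro x
      rw [hsingle, Units.val_mul, Units.val_mul, ← mulVec_mulVec, ← mulVec_mulVec, ← map_inv,
        io_mulVec, hsingle, io_mulVec, ap_add, ap_smul, hn1, ap_ap_inv]
      congr 3
      rw [← hn1, ← ap_hf n (ap n⁻¹ x), ap_ap_inv]
    rw [Subgroup.mem_comap, Subgroup.mem_map]
    refine ⟨n * cjU r n⁻¹, mul_mem hn (cjU_mem r (inv_mem hn)), ?_⟩
    rw [map_mul dP, map_inv dP, h4, map_mul (io N F), io_cjU, map_inv (io N F), hr]
    group
  have hprod : ∏ i : Fin N, (Pi.mulSingle i u * (Pi.mulSingle o u)⁻¹ : Fin N → Fˣ) ∈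
      ((K0 N F).map (io N F)).comap dP := prod_mem fun i _ => hi i
  rw [Finset.prod_mul_distrib] at hprod
  have h6 : ∏ i : Fin N, (Pi.mulSingle i u : Fin N → Fˣ) = fun _ => u :=
    Finset.univ_prod_mulSingle (fun _ => u)
  have huN : u ^ N = 1 := Units.ext hcN
  have h7 : ∏ _i : Fin N, ((Pi.mulSingle o u)⁻¹ : Fin N → Fˣ) = 1 := by
    rw [Finset.prod_const, Finset.card_univ, Fintype.card_fin, ← Pi.mulSingle_inv,
      ← Pi.mulSingle_pow, inv_pow, huN, inv_one, Pi.mulSingle_one]
  rw [h6, h7, mul_one, Subgroup.mem_comap, hconst, Subgroup.mem_map] at hprod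
  obtain ⟨z', hz', h9⟩ := hprod
  rw [← io_inj h9]
  exact hz'

/-- Noncommuting elements of `PSU`. -/
theorem exists_noncomm (h3 : 3 ≤ N) : ∃ a b : PSU N F, a * b ≠ b * a := by
  have hoo : (⟨0, by omega⟩ : Fin N) ≠ Fin.rev ⟨0, by omega⟩ := by
    intro h
    have := congrArg Fin.val h
    rw [Fin.val_rev] at this
    simp only at this
    omega
  refine ⟨mkU N F (T (bb ⟨0, by omega⟩) th), mkU N F (T (bb (Fin.rev ⟨0, by omega⟩)) th), ?_⟩
  intro h
  have h1 := hf_of_comm h3 (bb_iso hoo) (bb_iso (rev_ne hoo)) (bb_ne_zero _) (bb_ne_zero _)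
    Sk.th Sk.th th_ne th_ne h
  rw [hf_bb, if_pos (Fin.rev_rev _).symm] at h1
  exact one_ne_zero h1

/-- Normal subgroups which cover `PSU` are everything. -/
theorem eq_top_of_map [Finite F] (h3 : 3 ≤ N) {R : Subgroup (SU N F)} [R.Normal]
    (h2 : R.map (mkU N F) = ⊤) : R = ⊤ := by
  obtain ⟨p, hp⟩ := CharP.exists F
  have hpp : Fact p.Prime := ⟨CharP.char_is_prime F p⟩
  have h4 : ∀ x : SU N F, ∃ y ∈ R, ∃ z ∈ Subgroup.center (SU N F), x = y * z := by
    intro x
    have h5 : mkU N F x ∈ R.map (mkU N F) := by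
      rw [h2]
      exact Subgroup.mem_top _
    obtain ⟨y, hy, hxy⟩ := h5
    refine ⟨y, hy, y⁻¹ * x, ?_, by rw [mul_inv_cancel_left]⟩
    rw [← mkU_eq_one, map_mul, map_inv, hxy, inv_mul_cancel]
  have hcop : Nat.Coprime (p * p) (Nat.card Fˣ) := by
    apply Nat.Coprime.mul_left <;>
    · rw [Nat.Prime.coprime_iff_not_dvd hpp.out]
      intro hdvd
      obtain ⟨u, hu⟩ := exists_prime_orderOf_dvd_card' p hdvd
      have h5 : u ^ p = 1 := by rw [← hu, pow_orderOf_eq_one]
      have h6 : ((u : F) - 1) ^ p = 0 := by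
        rw [sub_pow_char, one_pow, ← Units.val_pow_eq_pow_val, h5, Units.val_one, sub_self]
      have h7 : u = 1 := Units.ext (sub_eq_zero.mp (eq_zero_of_pow_eq_zero h6))
      rw [h7, orderOf_one] at hu
      exact hpp.out.one_lt.ne hu
  have h5 : K0 N F ≤ R := by
    rw [K0, Subgroup.closure_le]
    rintro _ ⟨e, w, k, H, rfl⟩
    obtain ⟨y, hy, z, hz, hyz⟩ := h4 (E e w k)
    have h6 : ((QuotientGroup.mk' R) (E e w k)) ^ (p * p) = 1 := by
      rw [← map_pow, E_pow_p H, map_one]
    have h7 : z ^ Nat.card Fˣ = 1 := by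
      obtain ⟨c, hc0, hc⟩ := scalar_of_center h3 hz
      have h8 : ∀ (n : ℕ) (x : Fin N → F), ap (z ^ n) x = c ^ n • x := by
        intro n
        induction n with
        | zero => intro x; rw [pow_zero, pow_zero, ap_one, one_smul]
        | succ n ih => intro x; rw [pow_succ, ap_mul, hc, ih, pow_succ, smul_smul]
      apply su_ext
      intro x
      have h9 : (Units.mk0 c hc0) ^ Nat.card Fˣ = 1 := pow_card_eq_one'
      have h10 : c ^ Nat.card Fˣ = 1 := congrArg Units.val h9
      rw [h8, h10, one_smul, ap_one]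
    have h8 : ((QuotientGroup.mk' R) (E e w k)) ^ (Nat.card Fˣ) = 1 := by
      have h9 : (QuotientGroup.mk' R) y = 1 := (QuotientGroup.eq_one_iff y).mpr hy
      rw [hyz, map_mul, h9, one_mul, ← map_pow, h7, map_one]
    have h9 : (QuotientGroup.mk' R) (E e w k) = 1 := by
      have h10 := pow_gcd_eq_one.mpr ⟨h6, h8⟩
      rwa [hcop, pow_one] at h10
    exact (QuotientGroup.eq_one_iff _).mp h9
  rw [eq_top_iff]
  intro x _
  obtain ⟨y, hy, z, hz, rfl⟩ := h4 x
  exact mul_mem hy (h5 (center_le h3 hz))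

/-- The special unitary group is perfect. -/
theorem commutator_SU [Finite F] [IsSimpleGroup (PSU N F)] (h3 : 3 ≤ N) :
    commutator (SU N F) = ⊤ := by
  have h1 : commutator (PSU N F) = ⊤ := by
    rcases (inferInstance : (commutator (PSU N F)).Normal).eq_bot_or_eq_top with h | h
    · exfalso
      obtain ⟨a, b, hab⟩ := exists_noncomm (F := F) h3
      apply hab
      have h2 := Subgroup.commutator_mem_commutator (Subgroup.mem_top a) (Subgroup.mem_top b)
      rw [commutator] at h
      rw [h, Subgroup.mem_bot] at h2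
      exact commutatorElement_eq_one_iff_mul_comm.mp h2
    · exact h
  apply eq_top_of_map h3
  rw [commutator, Subgroup.map_commutator, ← MonoidHom.range_eq_map,
    MonoidHom.range_eq_top.mpr mkU_surj]
  exact h1

/-- The transvections generate the special unitary group. -/
theorem closure_T [Finite F] [IsSimpleGroup (PSU N F)] (h3 : 3 ≤ N) :
    Subgroup.closure {g : SU N F | ∃ v t, hf v v = 0 ∧ Sk t ∧ g = T v t} = ⊤ := by
  have hn : (Subgroup.closure {g : SU N F | ∃ v t, hf v v = 0 ∧ Sk t ∧ g = T v t}).Normal := by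
    constructor
    intro n hn g
    have h : Subgroup.closure {g : SU N F | ∃ v t, hf v v = 0 ∧ Sk t ∧ g = T v t} ≤
        (Subgroup.closure {g : SU N F | ∃ v t, hf v v = 0 ∧ Sk t ∧ g = T v t}).comap
          (MulEquiv.toMonoidHom (MulAut.conj g)) := by
      rw [Subgroup.closure_le]
      rintro _ ⟨v, t, hv, ht, rfl⟩
      change g * T v t * g⁻¹ ∈ Subgroup.closure _
      rw [conj_T]
      exact Subgroup.subset_closure ⟨ap g v, t, by rw [ap_hf, hv], ht, rfl⟩
    exact h hn
  apply eq_top_of_map h3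
  have hn2 : ((Subgroup.closure {g : SU N F | ∃ v t, hf v v = 0 ∧ Sk t ∧ g = T v t}).map
      (mkU N F)).Normal := Subgroup.Normal.map hn _ mkU_surj
  rcases hn2.eq_bot_or_eq_top with h | h
  · exfalso
    have hoo : (⟨0, by omega⟩ : Fin N) ≠ Fin.rev ⟨0, by omega⟩ := by
      intro h
      have := congrArg Fin.val h
      rw [Fin.val_rev] at this
      simp only at this
      omega
    have h1 : mkU N F (T (bb ⟨0, by omega⟩) th) ∈
        (Subgroup.closure {g : SU N F | ∃ v t, hf v v = 0 ∧ Sk t ∧ g = T v t}).map (mkU N F) :=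
      ⟨_, Subgroup.subset_closure ⟨bb ⟨0, by omega⟩, th, bb_iso hoo, Sk.th, rfl⟩, rfl⟩
    rw [h, Subgroup.mem_bot, ← map_one (mkU N F), ← T_zero (bb ⟨0, by omega⟩)] at h1
    have h2 := mkT_eq h3 (bb_iso hoo) (bb_iso hoo) Sk.th Sk.zero h1
    exact th_ne (T_inj (bb_iso hoo) (bb_ne_zero _) Sk.th Sk.zero h2)
  · exact h

/-- Hyperbolic partners. -/
theorem exists_partner {w : Fin N → F} (hw : hf w w = 0) (hw0 : w ≠ 0) :
    ∃ w', hf w' w' = 0 ∧ hf w' w = 1 := by
  obtain ⟨u, hu⟩ : ∃ u, hf u w ≠ 0 := by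
    by_contra hcon
    push Not at hcon
    exact hw0 (eq_zero_of_hf fun y => hf_zero_symm (hcon y))
  set u' := (hf u w)⁻¹ • u with hu'
  have h1 : hf u' w = 1 := by rw [hu', hf_smul_left, inv_mul_cancel₀ hu]
  have h2 : hf w u' = 1 := by rw [← hf_swap, h1, map_one]
  obtain ⟨l, hl⟩ := tr_surj (F := F) (c := -hf u' u') (by rw [map_neg, hf_swap])
  refine ⟨u' + l • w, ?_, ?_⟩
  · simp only [hf_add_left, hf_add_right, hf_smul_left, hf_smul_right, h1, h2, hw]
    linear_combination hl
  · rw [hf_add_left, hf_smul_left l, hw, h1, mul_zero, add_zero]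

end MP7fH
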