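import Pool.Agent.Lib.MP_7f581e_ntH.Perf
import Pool.Agent.Lib.MP_7f581e_ntH.AutP

/-!
Perfectness of the special unitary group of the antidiagonal form; noncommuting elements.
-/

set_option autoImplicit false

namespace MP7fH

open Matrix MP7fY

theorem hf_Jm {F : Type*} [Field F] [HInv F] {N : ℕ} (x y : Fin N → F) :
    hf x y = (fun i => bar (y i)) ⬝ᵥ (Jm N F *ᵥ x) := by
  rw [hf, dotProduct, ← Equiv.sum_comp Fin.revPerm]
  apply Finset.sum_congr rfl
  intro i _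
  rw [Fin.revPerm_apply, Fin.rev_rev, mul_comm]
  congr 1
  rw [mulVec, dotProduct, Finset.sum_eq_single (Fin.rev i)]
  · rw [Jm_apply, if_pos rfl, one_mul]
  · intro b _ hb
    rw [Jm_apply, if_neg hb, zero_mul]
  · intro h
    exact absurd (Finset.mem_univ _) h

theorem commutator_of_equiv {G H : Type*} [Group G] [Group H] (e : G ≃* H)
    (h : commutator G = ⊤) : commutator H = ⊤ := by
  have h1 : (commutator G).map (e : G →* H) = commutator H := by
    have h2 : (⊤ : Subgroup G).map (e : G →* H) = ⊤ :=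
      Subgroup.map_top_of_surjective _ e.surjective
    rw [commutator, Subgroup.map_commutator, h2]
    rfl
  rw [← h1, h]
  exact Subgroup.map_top_of_surjective _ e.surjective

section bar

variable {F : Type*} [Field F] [HInv F] {N : ℕ}

theorem perf_bar [Finite F] [IsSimpleGroup (PSG (bar : F →+* F) (Jm N F))] (h3 : 3 ≤ N) :
    commutator (SG (bar : F →+* F) (Jm N F)) = ⊤ := by
  haveI : IsSimpleGroup (PSU N F) := (isoPJ (N := N) (F := F)).isSimpleGroup
  exact commutator_of_equiv isoJ (commutator_SU h3)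

theorem noncomm_bar (h3 : 3 ≤ N) : ∃ a b : PSG (bar : F →+* F) (Jm N F), a * b ≠ b * a := by
  obtain ⟨a, b, h⟩ := exists_noncomm (F := F) h3
  refine ⟨isoPJ a, isoPJ b, fun h' => h ?_⟩
  apply isoPJ.injective
  rw [map_mul, map_mul, h']

/-- The elements `1 + a w w^*`. -/
theorem closure_tv_bar [Finite F] [IsSimpleGroup (PSG (bar : F →+* F) (Jm N F))] (h3 : 3 ≤ N)
    {P : GL (Fin N) F} (hP : (P.1.map (bar : F →+* F))ᵀ * Jm N F * P.1 = 1) :
    Subgroup.closure {g : SG (bar : F →+* F) (1 : Matrix (Fin N) (Fin N) F) | ∃ w a,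
      (fun i => (bar : F →+* F) (w i)) ⬝ᵥ w = 0 ∧ (bar : F →+* F) a = -a ∧
        g.1.1 = 1 + a • vecMulVec w (fun i => (bar : F →+* F) (w i))} = ⊤ := by
  haveI : IsSimpleGroup (PSU N F) := (isoPJ (N := N) (F := F)).isSimpleGroup
  have hid : ∀ x y : Fin N → F, hf (P.1 *ᵥ x) (P.1 *ᵥ y) = idf x y := by
    have h0 : ∀ x y : Fin N → F, hf x y = (fun i => bar (y i)) ⬝ᵥ (Jm N F *ᵥ x) := hf_Jm
    intro x y
    rw [h0]
    have h1 : (fun i => bar ((P.1 *ᵥ y) i)) = (P.1.map (bar : F →+* F)) *ᵥ (fun i => bar (y i)) := by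
      funext i
      exact RingHom.map_mulVec (bar : F →+* F) P.1 y i
    rw [h1, ← vecMul_transpose, ← dotProduct_mulVec, mulVec_mulVec, mulVec_mulVec, hP,
      one_mulVec, idf, dotProduct]
    apply Finset.sum_congr rfl
    intro i _
    rw [mul_comm]
  let e : SU N F ≃* SG (bar : F →+* F) (1 : Matrix (Fin N) (Fin N) F) := isoJ.trans (tr hP)
  have h1 : (Subgroup.closure {g : SU N F | ∃ v t, hf v v = 0 ∧ Sk t ∧ g = T v t}).map
      (MulEquiv.toMonoidHom e) = ⊤ := by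
    rw [closure_T h3]
    exact Subgroup.map_top_of_surjective _ e.surjective
  rw [eq_top_iff, ← h1, MonoidHom.map_closure, Subgroup.closure_le]
  rintro _ ⟨_, ⟨v, t, hv, ht, rfl⟩, rfl⟩
  apply Subgroup.subset_closure
  have hPw : P.1 *ᵥ ((P⁻¹).1 *ᵥ v) = v := gl_mulVec_inv P v
  refine ⟨(P⁻¹).1 *ᵥ v, t, ?_, ht, ?_⟩
  · have h2 := hid ((P⁻¹).1 *ᵥ v) ((P⁻¹).1 *ᵥ v)
    rw [hPw, hv] at h2
    rw [h2, idf, dotProduct]
    apply Finset.sum_congr rfl
    intro i _
    rw [mul_comm]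
  · apply Matrix.mulVec_injective
    funext x
    have h3 : (e (T v t)).1.1 = (P⁻¹).1 * (sm (T v t).1) * P.1 := rfl
    change (e (T v t)).1.1 *ᵥ x = _
    rw [h3, ← mulVec_mulVec, ← mulVec_mulVec]
    change (P⁻¹).1 *ᵥ (ap (T v t) (P.1 *ᵥ x)) = _
    rw [ap_T hv ht, mulVec_add, mulVec_smul, gl_inv_mulVec, add_mulVec, one_mulVec, smul_mulVec,
      vecMulVec_mulVec]
    have h4 : hf (P.1 *ᵥ x) v = (fun i => bar (((P⁻¹).1 *ᵥ v) i)) ⬝ᵥ x := by
      conv_lhs => rw [← hPw, hid]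
      rw [idf, dotProduct]
      apply Finset.sum_congr rfl
      intro i _
      rw [mul_comm]
    rw [h4, mul_smul, op_smul_eq_smul]

end bar

/-- The unitary transvections generate the special unitary group. -/
theorem closure_tv {F : Type*} [Field F] [Finite F] {N : ℕ} (s : F →+* F)
    (hs : ∀ x, s (s x) = x) (hne : ∃ x, s x ≠ x) [h : IsSimpleGroup (PSG s (Jm N F))] (h3 : 3 ≤ N)
    {P : GL (Fin N) F} (hP : (P.1.map s)ᵀ * Jm N F * P.1 = 1) :
    Subgroup.closure {g : SG s (1 : Matrix (Fin N) (Fin N) F) | ∃ w a,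
      (fun i => s (w i)) ⬝ᵥ w = 0 ∧ s a = -a ∧
        g.1.1 = 1 + a • vecMulVec w (fun i => s (w i))} = ⊤ :=
  @closure_tv_bar F _ ⟨s, hs, hne⟩ N _ h h3 P hP

/-- Hyperbolic partners. -/
theorem partner {F : Type*} [Field F] {N : ℕ} {s : F →+* F} (hs : ∀ x, s (s x) = x) {c : F}
    (hc : c + s c = 1) {w : Fin N → F} (hw : (fun i => s (w i)) ⬝ᵥ w = 0) (hw0 : w ≠ 0) :
    ∃ w' : Fin N → F, (fun i => s (w' i)) ⬝ᵥ w' = 0 ∧ (fun i => s (w i)) ⬝ᵥ w' = 1 := by
  obtain ⟨i, hi⟩ : ∃ i, w i ≠ 0 := by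
    by_contra hcon
    push Not at hcon
    exact hw0 (funext hcon)
  have hsi : s (w i) ≠ 0 := (map_ne_zero s).mpr hi
  set u : Fin N → F := Pi.single i (s (w i))⁻¹ with hu
  have h1 : (fun i => s (w i)) ⬝ᵥ u = 1 := by
    rw [hu, dotProduct_single, mul_inv_cancel₀ hsi]
  have h2 : (fun i => s (u i)) ⬝ᵥ w = 1 := by
    have h3 : (fun i => s (u i)) ⬝ᵥ w = s ((fun i => s (w i)) ⬝ᵥ u) := by
      rw [dotProduct, dotProduct, map_sum]
      apply Finset.sum_congr rfl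
      intro j _
      rw [map_mul, hs, mul_comm]
    rw [h3, h1, map_one]
  set q := (fun i => s (u i)) ⬝ᵥ u with hq
  have hsq : s q = q := by
    rw [hq, dotProduct, map_sum]
    apply Finset.sum_congr rfl
    intro j _
    rw [map_mul, hs, mul_comm]
  have h4 : (fun i => s ((u + (-(q * c)) • w) i)) = (fun i => s (u i)) +
      (-(q * s c)) • (fun i => s (w i)) := by
    funext j
    rw [Pi.add_apply, Pi.smul_apply, Pi.add_apply, Pi.smul_apply, smul_eq_mul, smul_eq_mul,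
      map_add, map_mul, map_neg, map_mul, hsq]
  refine ⟨u + (-(q * c)) • w, ?_, ?_⟩
  · rw [h4]
    simp only [add_dotProduct, dotProduct_add, smul_dotProduct, dotProduct_smul, h1, h2, hw,
      ← hq, smul_eq_mul]
    linear_combination (-q) * hc
  · rw [dotProduct_add, dotProduct_smul, h1, hw, smul_zero, add_zero]

/-- The special unitary group of the antidiagonal form is perfect. -/
theorem perf_J {F : Type*} [Field F] [Finite F] {N : ℕ} (s : F →+* F) (hs : ∀ x, s (s x) = x)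
    (hne : ∃ x, s x ≠ x) [h : IsSimpleGroup (PSG s (Jm N F))] (h3 : 3 ≤ N) :
    commutator (SG s (Jm N F)) = ⊤ :=
  @perf_bar F _ ⟨s, hs, hne⟩ N _ h h3

theorem noncomm_J {F : Type*} [Field F] {N : ℕ} (s : F →+* F) (hs : ∀ x, s (s x) = x)
    (hne : ∃ x, s x ≠ x) (h3 : 3 ≤ N) : ∃ a b : PSG s (Jm N F), a * b ≠ b * a :=
  @noncomm_bar F _ ⟨s, hs, hne⟩ N h3

section conj

variable {F : Type*} [Field F] {N : ℕ} {s : F →+* F} {Φ Ψ : Matrix (Fin N) (Fin N) F}

theorem perf_trans {P : GL (Fin N) F} (hP : (P.1.map s)ᵀ * Φ * P.1 = Ψ)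
    (h : commutator (SG s Φ) = ⊤) : commutator (SG s Ψ) = ⊤ :=
  commutator_of_equiv (tr hP) h

theorem noncomm_trans {P : GL (Fin N) F} (hP : (P.1.map s)ᵀ * Φ * P.1 = Ψ)
    (h : ∃ a b : PSG s Φ, a * b ≠ b * a) : ∃ a b : PSG s Ψ, a * b ≠ b * a := by
  obtain ⟨a, b, hab⟩ := h
  refine ⟨ptr hP a, ptr hP b, fun h' => hab ?_⟩
  apply (ptr hP).injective
  rw [map_mul, map_mul, h']

end conj

end MP7fH
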