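import Pool.Agent.Lib.MP_7f581e_ntP.SylCrit
import Pool.Agent.Lib.MP_7f581e_ntH.Basic

/-!
The unitriangular unitary matrices: Sylow subgroup and centre.
-/

set_option autoImplicit false

namespace MP7fH

open Matrix

variable {F : Type*} [Field F] [HInv F] {N : ℕ}

/-- The unitriangular group. -/
def uu (N : ℕ) (F : Type*) [Field F] [HInv F] [Finite F] : Subgroup (SU N F) :=
  (MP7fG.ut N F).comap (SUg N F).subtype

theorem mem_uu [Finite F] {g : SU N F} : g ∈ uu N F ↔
    ∀ a b, b ≤ a → ap g (bb b) a = if a = b then 1 else 0 := by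
  constructor
  · intro h a b hab
    have := MP7fG.mem_ut.mp h a b hab
    rw [← entry_eq]
    exact this
  · intro h
    change (SUg N F).subtype g ∈ MP7fG.ut N F
    rw [MP7fG.mem_ut]
    intro a b hab
    have := h a b hab
    rw [← entry_eq] at this
    exact this

theorem E_mem_uu [Finite F] {i : Fin N} (hi : i < Fin.rev i) {w : Fin N → F} {k : F}
    (H : EC (bb i) w k) (hw : ∀ a, Fin.rev i ≤ a → w a = 0) : E (bb i) w k ∈ uu N F := by
  rw [mem_uu]
  intro a b hab
  rw [ap_E H, hf_bb, hf_bb_left]
  simp only [Pi.add_apply, Pi.sub_apply, Pi.smul_apply, smul_eq_mul, bb_apply]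
  have h1 : (if i = Fin.rev b then (1 : F) else 0) * w a = 0 := by
    split_ifs with h
    · rw [hw a (by rw [h, Fin.rev_rev]; exact hab), mul_zero]
    · rw [zero_mul]
  have h2 : bar (w (Fin.rev b)) * (if a = i then (1 : F) else 0) = 0 := by
    split_ifs with h
    · rw [hw (Fin.rev b) (by rw [Fin.rev_le_rev, ← h]; exact hab), map_zero, zero_mul]
    · rw [mul_zero]
  have h3 : k * (if i = Fin.rev b then (1 : F) else 0) * (if a = i then (1 : F) else 0) = 0 := by
    split_ifs with h h'
    · exfalso
      rw [h, Fin.rev_rev] at hi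
      rw [h'] at hab
      rw [h] at hab
      exact absurd hi (not_lt.mpr hab)
    all_goals simp
  rw [h1, h2, h3]
  ring

theorem exists_skew_one : ∃ k : F, k + bar k = -1 := tr_surj (by rw [map_neg, map_one])

theorem ec_bb {i k : Fin N} (hi : i ≠ Fin.rev i) (hk : k ≠ Fin.rev i) (l : F) :
    ∃ c : F, EC (bb i) (l • bb k) c := by
  obtain ⟨c, hc⟩ := tr_surj (F := F) (c := -hf (l • bb k) (l • bb k : Fin N → F)) (by
    rw [map_neg, hf_swap])
  refine ⟨c, bb_iso hi, ?_, hc⟩
  rw [hf_smul_left, hf_bb, if_neg (fun h => hk (by rw [h, Fin.rev_rev])), mul_zero]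

theorem ec_bb0 {i k : Fin N} (hi : i ≠ Fin.rev i) (hk : k ≠ Fin.rev i) (hk' : k ≠ Fin.rev k)
    (l : F) : EC (bb i) (l • bb k) (0 : F) := by
  refine ⟨bb_iso hi, ?_, ?_⟩
  · rw [hf_smul_left, hf_bb, if_neg (fun h => hk (by rw [h, Fin.rev_rev])), mul_zero]
  · rw [hf_smul_left, hf_smul_right, bb_iso hk', mul_zero, mul_zero, map_zero, neg_zero, add_zero]

theorem T_mem_uu [Finite F] {i : Fin N} (hi : i < Fin.rev i) {t : F} (ht : Sk t) :
    T (bb i) t ∈ uu N F :=
  E_mem_uu hi (ec_T (bb_iso hi.ne) ht) fun _ _ => rfl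

theorem rich [Finite F] (j : ℕ) (x : Fin N → F) (_ : j < N)
    (h : ∀ g ∈ uu N F, ∀ a : Fin N, j ≤ a.val → (ap g x) a = x a)
    (a : Fin N) (ha : j < a.val) : x a = 0 := by
  obtain ⟨i, hi⟩ : ∃ i : Fin N, i.val + 1 = a.val := ⟨⟨a.val - 1, by omega⟩, by simp; omega⟩
  have hji : j ≤ i.val := by omega
  have hN := a.2
  have hia : i ≠ a := by
    intro h
    rw [h] at hi
    omega
  have hri : (Fin.rev i).val = N - (i.val + 1) := Fin.val_rev i
  have hra : (Fin.rev a).val = N - (a.val + 1) := Fin.val_rev a
  by_cases hA : i = Fin.rev i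
  · -- `i` is the middle index
    have h0 := congrArg Fin.val hA
    rw [hri] at h0
    have h1 : Fin.rev a < Fin.rev (Fin.rev a) := by
      rw [Fin.rev_rev, Fin.lt_def, hra]
      omega
    obtain ⟨c, hc⟩ := ec_bb (F := F) (k := i) (h1.ne) (by rw [Fin.rev_rev]; exact hia) 1
    have h2 := h _ (E_mem_uu h1 hc (by
      intro b hb
      rw [Fin.rev_rev] at hb
      rw [Pi.smul_apply, bb_apply, if_neg, smul_zero]
      rintro rfl
      rw [Fin.le_def] at hb
      omega)) i hji
    rw [ap_E hc] at h2
    simp only [Pi.add_apply, Pi.sub_apply, Pi.smul_apply, smul_eq_mul, bb_apply, hf_bb_right,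
      Fin.rev_rev, if_pos] at h2
    have h3 : i ≠ Fin.rev a := by
      intro h
      have := congrArg Fin.val h
      rw [hra] at this
      omega
    rw [if_neg h3] at h2
    linear_combination h2
  · by_cases hB : a = Fin.rev a
    · have h0 := congrArg Fin.val hB
      rw [hra] at h0
      have h1 : i < Fin.rev i := by
        rw [Fin.lt_def, hri]
        omega
      obtain ⟨c, hc⟩ := ec_bb (F := F) (k := a) (h1.ne) (by
        intro h
        have := congrArg Fin.val h
        rw [hri] at this
        omega) 1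
      have h2 := h _ (E_mem_uu h1 hc (by
        intro b hb
        rw [Pi.smul_apply, bb_apply, if_neg, smul_zero]
        rintro rfl
        rw [Fin.le_def, hri] at hb
        omega)) i hji
      have h4 := h _ (T_mem_uu h1 Sk.th) i hji
      rw [ap_E hc] at h2
      rw [ap_T (bb_iso hA) Sk.th] at h4
      simp only [Pi.add_apply, Pi.sub_apply, Pi.smul_apply, smul_eq_mul, bb_apply, hf_bb_right,
        hf_smul_right, map_one, if_pos, if_neg hia, ← hB] at h2 h4
      have h5 : x (Fin.rev i) = 0 := by
        have h6 : (th : F) * x (Fin.rev i) = 0 := by linear_combination h4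
        exact (mul_eq_zero.mp h6).resolve_left th_ne
      rw [h5] at h2
      linear_combination -h2
    · by_cases hC : i = Fin.rev a
      · -- a transvection
        have h1 : i < Fin.rev i := by
          rw [hC, Fin.rev_rev, Fin.lt_def, ← hC]
          omega
        have h4 := h _ (T_mem_uu h1 Sk.th) i hji
        rw [ap_T (bb_iso hA) Sk.th] at h4
        have h6 : Fin.rev i = a := by rw [hC, Fin.rev_rev]
        simp only [Pi.add_apply, Pi.smul_apply, smul_eq_mul, bb_apply, hf_bb_right, if_pos, h6]
          at h4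
        have h6 : (th : F) * x a = 0 := by linear_combination h4
        exact (mul_eq_zero.mp h6).resolve_left th_ne
      · by_cases hD : i < Fin.rev i
        · have hk1 : Fin.rev a ≠ Fin.rev i := fun h => hia (Fin.rev_injective h).symm
          have hc := ec_bb0 (F := F) (i := i) (k := Fin.rev a) hA hk1 (by
            rw [Fin.rev_rev]; exact Ne.symm hB) 1
          have h2 := h _ (E_mem_uu hD hc (by
            intro b hb
            rw [Pi.smul_apply, bb_apply, if_neg, smul_zero]
            rintro rfl
            rw [Fin.rev_le_rev, Fin.le_def] at hb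
            omega)) i hji
          rw [ap_E hc] at h2
          simp only [Pi.add_apply, Pi.sub_apply, Pi.smul_apply, smul_eq_mul, bb_apply, hf_bb_right,
            hf_smul_right, map_one, if_pos, if_neg hC, Fin.rev_rev] at h2
          linear_combination -h2
        · have hD' : Fin.rev a < Fin.rev (Fin.rev a) := by
            rw [Fin.rev_rev, Fin.lt_def, hra]
            rw [not_lt, Fin.le_def, hri] at hD
            have h9 : i.val ≠ (Fin.rev i).val := fun h => hA (Fin.ext h)
            rw [hri] at h9
            omega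
          have hc := ec_bb0 (F := F) (i := Fin.rev a) (k := i) hD'.ne (by
            rw [Fin.rev_rev]; exact hia) hA 1
          have h2 := h _ (E_mem_uu hD' hc (by
            intro b hb
            rw [Pi.smul_apply, bb_apply, if_neg, smul_zero]
            rintro rfl
            rw [Fin.rev_rev, Fin.le_def] at hb
            omega)) i hji
          rw [ap_E hc] at h2
          simp only [Pi.add_apply, Pi.sub_apply, Pi.smul_apply, smul_eq_mul, bb_apply, hf_bb_right,
            hf_smul_right, map_one, if_pos, if_neg hC, Fin.rev_rev] at h2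
          linear_combination h2

theorem exists_sylow [Finite F] {p : ℕ} [hp : Fact p.Prime] [CharP F p] :
    ∃ P : Sylow p (SU N F), (P : Subgroup (SU N F)) = uu N F :=
  MP7fP.sylow_crit (SUg N F).subtype (Subgroup.subtype_injective _)
    fun j x hj h a ha => rich j x hj h a ha

/-- The centre of the unitriangular group. -/
theorem centre_uu [Finite F] (h3 : 3 ≤ N) {z : SU N F} (hz : z ∈ uu N F)
    (hc : ∀ g ∈ uu N F, z * g * z⁻¹ = g) :
    ∃ t : F, Sk t ∧ z = T (bb ⟨0, by omega⟩) t := by
  set o : Fin N := ⟨0, by omega⟩ with ho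
  have hro : (Fin.rev o).val = N - 1 := by rw [Fin.val_rev]
  have holt : o < Fin.rev o := by rw [Fin.lt_def, hro]; simp only [ho]; omega
  have hoo : o ≠ Fin.rev o := holt.ne
  -- `z` fixes the first vector
  have hz0 : ap z (bb o) = bb o := by
    have h1 := hc _ (T_mem_uu holt Sk.th)
    rw [conj_T] at h1
    obtain ⟨c, -, hc1, -⟩ := T_eq (by rw [ap_hf, bb_iso hoo]) (ap_ne_zero z (bb_ne_zero o))
      (bb_iso hoo) Sk.th Sk.th th_ne h1
    have h4 : ap z (bb o) o = 1 := by
      rw [mem_uu.mp hz o o le_rfl, if_pos rfl]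
    rw [hc1, Pi.smul_apply, bb_self, smul_eq_mul, mul_one] at h4
    rw [hc1, h4, one_smul]
  -- `z` fixes the middle vectors
  have hzk : ∀ k, k ≠ o → k ≠ Fin.rev o → ap z (bb k) = bb k := by
    intro k hk hk'
    set w := ap z (bb k) - bb k with hw
    have hwz : ap z (bb k) = bb k + w := by rw [hw]; abel
    have key : ∀ l : F, l • w = (bar l * hf (bb (Fin.rev o)) w) • bb o := by
      intro l
      obtain ⟨c, hc'⟩ := ec_bb (F := F) (i := o) (k := k) hoo hk' l
      have h1 := hc _ (E_mem_uu holt hc' (by
        intro b hb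
        rw [Pi.smul_apply, bb_apply, if_neg, smul_zero]
        rintro rfl
        apply hk'
        apply le_antisymm _ hb
        rw [Fin.le_def, hro]
        have := b.2
        omega))
      rw [conj_E, hz0, ap_smul] at h1
      have h2 : ap (E (bb o) (l • ap z (bb k)) c) (bb (Fin.rev o)) =
        ap (E (bb o) (l • bb k) c) (bb (Fin.rev o)) := by rw [h1]
      have hc'' : EC (bb o) (l • ap z (bb k)) c := by
        have h5 := (EC.ap z).mpr hc'
        rwa [hz0, ap_smul] at h5
      rw [ap_E hc'', ap_E hc', hwz] at h2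
      have h3 : hf (bb (Fin.rev o)) (bb o : Fin N → F) = 1 := by
        rw [hf_bb, if_pos (Fin.rev_rev o).symm]
      simp only [h3, hf_smul_right, hf_add_right, smul_add, one_smul] at h2
      have h4 := sub_eq_zero.mpr h2
      rw [← sub_eq_zero, ← h4]
      module
    have h1 := key 1
    rw [one_smul, map_one, one_mul] at h1
    obtain ⟨l, hl⟩ := HInv.ne (F := F)
    set κ := hf (bb (Fin.rev o)) w with hκ
    have h2 := key l
    rw [h1, smul_smul, ← sub_eq_zero, ← sub_smul] at h2
    have h3 : l * κ - bar l * κ = 0 := (smul_eq_zero.mp h2).resolve_right (bb_ne_zero o)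
    have h4 : κ = 0 := by
      have h5 : (l - bar l) * κ = 0 := by linear_combination h3
      exact (mul_eq_zero.mp h5).resolve_left (sub_ne_zero.mpr (Ne.symm hl))
    rw [h4, zero_smul] at h1
    rw [hwz, h1, add_zero]
  -- the last vector
  set w := ap z (bb (Fin.rev o)) - bb (Fin.rev o) with hw
  have hwz : ap z (bb (Fin.rev o)) = bb (Fin.rev o) + w := by rw [hw]; abel
  have hwk : ∀ k, k ≠ Fin.rev o → hf w (bb k) = 0 := by
    intro k hk
    have h1 : ap z (bb k) = bb k := by
      by_cases hko : k = o
      · rw [hko, hz0]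
      · exact hzk k hko hk
    rw [hw, hf_sub_left]
    conv_lhs =>
      enter [1]
      rw [← h1]
    rw [ap_hf, sub_self]
  have hwt : w = w o • bb o := by
    apply ext_hf
    intro k
    by_cases hk : k = Fin.rev o
    · rw [hk, hf_bb_right, Fin.rev_rev, hf_smul_left, hf_bb, if_pos rfl, mul_one]
    · rw [hwk k hk, hf_smul_left, hf_bb, if_neg hk, mul_zero]
  set t := w o with ht
  have hfo : hf (bb (Fin.rev o)) (bb o : Fin N → F) = 1 := by
    rw [hf_bb, if_pos (Fin.rev_rev o).symm]
  have hof : hf (bb o) (bb (Fin.rev o) : Fin N → F) = 1 := by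
    rw [hf_bb, if_pos rfl]
  have hro' : Fin.rev o ≠ Fin.rev (Fin.rev o) := by rw [Fin.rev_rev]; exact hoo.symm
  have hskt : Sk t := by
    have h1 := ap_hf z (bb (Fin.rev o)) (bb (Fin.rev o))
    rw [hwz, hwt] at h1
    simp only [hf_add_left, hf_add_right, hf_smul_left, hf_smul_right, hfo, hof, bb_iso hoo,
      bb_iso hro'] at h1
    rw [Sk]
    linear_combination h1
  refine ⟨t, hskt, ?_⟩
  apply su_ext
  intro x
  have hT : ∀ k, ap (T (bb o) t) (bb k) = ap z (bb k) := by
    intro k
    by_cases hk : k = Fin.rev o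
    · rw [hk, ap_T (bb_iso hoo) hskt, hfo, mul_one, hwz, hwt]
    · have h1 : ap z (bb k) = bb k := by
        by_cases hko : k = o
        · rw [hko, hz0]
        · exact hzk k hko hk
      rw [h1, T_fix (bb_iso hoo) _ hskt]
      rw [hf_bb, if_neg]
      intro h
      apply hk
      rw [h, Fin.rev_rev]
  have hlin : ∀ (g : SU N F), ap g x = ∑ i, x i • ap g (bb i) := by
    intro g
    conv_lhs => rw [sum_bb x]
    change Matrix.mulVec _ _ = _
    rw [Matrix.mulVec_sum]
    apply Finset.sum_congr rfl
    intro i _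
    exact ap_smul g _ _
  rw [hlin, hlin]
  apply Finset.sum_congr rfl
  intro i _
  rw [hT]

/-- The transvections `T e₀ t` are central in the unitriangular group. -/
theorem T_centre_uu [Finite F] (h : 0 < N) {g : SU N F} (hg : g ∈ uu N F) (t : F) :
    g * T (bb ⟨0, h⟩) t * g⁻¹ = T (bb ⟨0, h⟩) t := by
  rw [conj_T]
  congr 1
  funext a
  rw [mem_uu.mp hg a ⟨0, h⟩ (Nat.zero_le _), bb_apply]

end MP7fH
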