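import Pool.Agent.Lib.MP_7f581e_ntP.Root
import Pool.Agent.Lib.MP_7f581e_ntH.Unip

/-!
The projective special unitary group; automorphisms map transvections to transvections.
-/

set_option autoImplicit false

namespace MP7fH

open Matrix

variable {F : Type*} [Field F] [HInv F] {N : ℕ}

/-- Central elements are scalar. -/
theorem scalar_of_center (h3 : 3 ≤ N) {g : SU N F} (hg : g ∈ Subgroup.center (SU N F)) :
    ∃ c : F, c ≠ 0 ∧ ∀ x, ap g x = c • x := by
  set o : Fin N := ⟨0, by omega⟩ with ho
  have hro : (Fin.rev o).val = N - 1 := by rw [Fin.val_rev]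
  have hoo : o ≠ Fin.rev o := by
    intro h
    have := congrArg Fin.val h
    rw [hro] at this
    simp only [ho] at this
    omega
  have hoo' : Fin.rev o ≠ Fin.rev (Fin.rev o) := by rw [Fin.rev_rev]; exact hoo.symm
  have h1 : ∀ v : Fin N → F, hf v v = 0 → ∃ c : F, ap g v = c • v := by
    intro v hv
    by_cases hv0 : v = 0
    · exact ⟨1, by rw [hv0, ap_zero, smul_zero]⟩
    · have h2 := conj_T g v th
      have h3 : g * T v th * g⁻¹ = T v th := by
        rw [← Subgroup.mem_center_iff.mp hg (T v th), mul_inv_cancel_right]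
      rw [h3] at h2
      obtain ⟨c, -, hc, -⟩ := T_eq (by rw [ap_hf, hv]) (ap_ne_zero g hv0) hv Sk.th Sk.th th_ne
        h2.symm
      exact ⟨c, hc⟩
  obtain ⟨c, hc⟩ := h1 (bb o) (bb_iso hoo)
  have hc0 : c ≠ 0 := by
    rintro rfl
    apply ap_ne_zero g (bb_ne_zero o)
    rw [hc, zero_smul]
  have hfo : hf (bb (Fin.rev o)) (bb o : Fin N → F) = 1 := by
    rw [hf_bb, if_pos (Fin.rev_rev o).symm]
  have hof : hf (bb o) (bb (Fin.rev o) : Fin N → F) = 1 := by
    rw [hf_bb, if_pos rfl]
  -- isotropic basis vectors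
  have h2 : ∀ i, i ≠ Fin.rev i → ap g (bb i) = c • bb i := by
    intro i hi
    by_cases hio : i = o
    · rw [hio, hc]
    · obtain ⟨e, he⟩ := h1 (bb i) (bb_iso hi)
      have h4 : ∀ l : F, l ≠ 0 → hf (bb o + l • bb i) (bb o + l • bb i : Fin N → F) = 0 →
          e = c := by
        intro l hl h
        obtain ⟨d, hd⟩ := h1 _ h
        rw [ap_add, ap_smul, hc, he] at hd
        have h5 := congrFun hd o
        have h6 := congrFun hd i
        simp only [Pi.add_apply, Pi.smul_apply, smul_eq_mul, bb_self, bb_apply, if_neg hio,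
          if_neg (Ne.symm hio)] at h5 h6
        have h7 : l * (e - c) = 0 := by linear_combination h6 - l * h5
        exact sub_eq_zero.mp ((mul_eq_zero.mp h7).resolve_left hl)
      have h5 : e = c := by
        by_cases hir : i = Fin.rev o
        · apply h4 th th_ne
          rw [hir]
          simp only [hf_add_left, hf_add_right, hf_smul_left, hf_smul_right, bb_iso hoo,
            bb_iso hoo', hfo, hof, bar_th]
          ring
        · apply h4 1 one_ne_zero
          have h6 : hf (bb o) (bb i : Fin N → F) = 0 := by rw [hf_bb, if_neg hir]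
          simp only [hf_add_left, hf_add_right, hf_smul_left, hf_smul_right, bb_iso hoo,
            bb_iso hi, h6, hf_zero_symm h6]
          ring
      rw [he, h5]
  have h4 : ∀ i, ap g (bb i) = c • bb i := by
    intro i
    by_cases hi : i = Fin.rev i
    · obtain ⟨k, hk⟩ := exists_skew_one (F := F)
      have hk0 : k ≠ 0 := by
        rintro rfl
        rw [map_zero, add_zero] at hk
        exact one_ne_zero (neg_eq_zero.mp hk.symm)
      have hio : i ≠ o := by
        rintro rfl
        exact hoo hi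
      have hir : i ≠ Fin.rev o := by
        intro h
        rw [h, Fin.rev_rev] at hi
        exact hoo hi.symm
      have e1 : hf (bb i) (bb i : Fin N → F) = 1 := by rw [hf_bb, if_pos hi]
      have e2 : hf (bb o) (bb i : Fin N → F) = 0 := by rw [hf_bb, if_neg hir]
      have e3 : hf (bb (Fin.rev o)) (bb i : Fin N → F) = 0 := by
        rw [hf_bb, Fin.rev_rev, if_neg hio]
      have h5 : hf (bb o + bb i + k • bb (Fin.rev o)) (bb o + bb i + k • bb (Fin.rev o) :
          Fin N → F) = 0 := by
        simp only [hf_add_left, hf_add_right, hf_smul_left, hf_smul_right, bb_iso hoo,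
          bb_iso hoo', hfo, hof, e1, e2, e3, hf_zero_symm e2, hf_zero_symm e3]
        linear_combination hk
      obtain ⟨d, hd⟩ := h1 _ h5
      rw [ap_add, ap_add, ap_smul, hc, h2 _ hoo'] at hd
      have h6 : ap g (bb i) = ((d - c) • bb o + ((d - c) * k) • bb (Fin.rev o)) + d • bb i := by
        have h7 := sub_eq_zero.mpr hd
        rw [← sub_eq_zero, ← h7]
        module
      have h7 := ap_hf g (bb i) (bb o)
      rw [h6, hc] at h7
      simp only [hf_add_left, hf_smul_left, hf_smul_right, bb_iso hoo, hfo,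
        hf_zero_symm e2] at h7
      have h8 : (d - c) * (k * bar c) = 0 := by linear_combination h7
      have h9 : d = c := by
        rcases mul_eq_zero.mp h8 with h10 | h10
        · exact sub_eq_zero.mp h10
        · exact absurd h10 (mul_ne_zero hk0 (bar_ne_zero hc0))
      rw [h6, h9, sub_self]
      module
    · exact h2 i hi
  refine ⟨c, hc0, fun x => ?_⟩
  have hlin : ap g x = ∑ i, x i • ap g (bb i) := by
    conv_lhs => rw [sum_bb x]
    change Matrix.mulVec _ _ = _
    rw [Matrix.mulVec_sum]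
    apply Finset.sum_congr rfl
    intro i _
    exact ap_smul g _ _
  rw [hlin]
  conv_rhs => rw [sum_bb x, Finset.smul_sum]
  apply Finset.sum_congr rfl
  intro i _
  rw [h4, smul_comm]

theorem center_of_scalar {g : SU N F} {c : F} (h : ∀ x, ap g x = c • x) :
    g ∈ Subgroup.center (SU N F) := by
  rw [Subgroup.mem_center_iff]
  intro x
  apply su_ext
  intro y
  rw [ap_mul, ap_mul, h, h, ap_smul]

/-- The projective special unitary group. -/
abbrev PSU (N : ℕ) (F : Type*) [Field F] [HInv F] := SU N F ⧸ Subgroup.center (SU N F)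

/-- The projection. -/
def mkU (N : ℕ) (F : Type*) [Field F] [HInv F] : SU N F →* PSU N F := QuotientGroup.mk' _

theorem mkU_surj : Function.Surjective (mkU N F) := QuotientGroup.mk'_surjective _

theorem mkU_eq_one {g : SU N F} : mkU N F g = 1 ↔ g ∈ Subgroup.center (SU N F) :=
  QuotientGroup.eq_one_iff g

theorem mkU_eq (h3 : 3 ≤ N) {g h : SU N F} (H : mkU N F g = mkU N F h) :
    ∃ c : F, c ≠ 0 ∧ ∀ x, ap g x = c • ap h x := by
  have h1 : g * h⁻¹ ∈ Subgroup.center (SU N F) := by
    rw [← mkU_eq_one, map_mul, map_inv, H, mul_inv_cancel]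
  obtain ⟨c, hc0, hc⟩ := scalar_of_center h3 h1
  refine ⟨c, hc0, fun x => ?_⟩
  have h2 := hc (ap h x)
  rwa [ap_mul, ap_inv_ap] at h2

theorem mkU_eq_of_smul {g h : SU N F} {c : F} (H : ∀ x, ap g x = c • ap h x) :
    mkU N F g = mkU N F h := by
  rw [← mul_inv_eq_one, ← map_inv, ← map_mul, mkU_eq_one]
  apply center_of_scalar (c := c)
  intro x
  rw [ap_mul, H, ap_ap_inv]

theorem uu_center [Finite F] (h3 : 3 ≤ N) {A : SU N F} (hA : A ∈ uu N F)
    (hc : A ∈ Subgroup.center (SU N F)) : A = 1 := by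
  obtain ⟨c, -, hc⟩ := scalar_of_center h3 hc
  have h1 := mem_uu.mp hA ⟨0, by omega⟩ ⟨0, by omega⟩ le_rfl
  rw [if_pos rfl, hc, Pi.smul_apply, bb_self, smul_eq_mul, mul_one] at h1
  apply su_ext
  intro x
  rw [hc, h1, one_smul, ap_one]

instance [Finite F] : Finite (SU N F) := by
  haveI : Finite (SpecialLinearGroup (Fin N) F) := inferInstance
  infer_instance

theorem finite_PSU [Finite F] : Finite (PSU N F) := Finite.of_surjective _ mkU_surj

/-- Every automorphism of `PSU(N, F)` maps the highest root group to a conjugate of itself. -/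
theorem exists_conj_T [Finite F] (h3 : 3 ≤ N) (α : PSU N F ≃* PSU N F) :
    ∃ g : SU N F, ∀ t, Sk t → ∃ s, Sk s ∧ α (mkU N F (T (bb ⟨0, by omega⟩) t)) =
      mkU N F (g * T (bb ⟨0, by omega⟩) s * g⁻¹) := by
  obtain ⟨p, hp⟩ := CharP.exists F
  have hpp : Fact p.Prime := ⟨CharP.char_is_prime F p⟩
  have := finite_PSU (F := F) (N := N)
  obtain ⟨P, hP⟩ := exists_sylow (F := F) (N := N) (p := p)
  obtain ⟨g', hg'⟩ := MP7fP.exists_conj_sylow (p := p) ((uu N F).map (mkU N F))
    (by rw [← hP]; exact P.isPGroup'.map _)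
    (by
      intro hd
      have h5 : ¬ p ∣ (uu N F).index := by
        rw [← hP]
        exact P.not_dvd_index
      exact h5 (hd.trans (Subgroup.index_map_dvd (uu N F) mkU_surj))) α
  obtain ⟨g, rfl⟩ := mkU_surj g'
  refine ⟨g, fun t ht => ?_⟩
  have hlt : (⟨0, by omega⟩ : Fin N) < Fin.rev ⟨0, by omega⟩ := by
    rw [Fin.lt_def, Fin.val_rev]
    simp only
    omega
  set x := α (mkU N F (T (bb ⟨0, by omega⟩) t)) with hx
  have h1 : (mkU N F g)⁻¹ * x * mkU N F g ∈ (uu N F).map (mkU N F) :=
    (hg' _).mp ⟨_, T_mem_uu hlt ht, rfl⟩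
  obtain ⟨z, hz, hz1⟩ := h1
  have hcom : ∀ A ∈ uu N F, z * A * z⁻¹ = A := by
    intro A hA
    have h2 : α.symm (mkU N F g * mkU N F A * (mkU N F g)⁻¹) ∈ (uu N F).map (mkU N F) := by
      rw [hg', MulEquiv.apply_symm_apply]
      have : (mkU N F g)⁻¹ * (mkU N F g * mkU N F A * (mkU N F g)⁻¹) * mkU N F g = mkU N F A := by
        group
      rw [this]
      exact ⟨A, hA, rfl⟩
    obtain ⟨B, hB, hB1⟩ := h2
    have h3' := congrArg (fun X => α (mkU N F X)) (T_centre_uu (by omega) hB t)
    simp only [map_mul, map_inv, hB1, MulEquiv.apply_symm_apply] at h3'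
    rw [← hx] at h3'
    have h5 : mkU N F (z * A * z⁻¹ * A⁻¹) = 1 := by
      simp only [map_mul, map_inv, hz1]
      set a := mkU N F A
      set b := mkU N F g
      calc b⁻¹ * x * b * a * (b⁻¹ * x * b)⁻¹ * a⁻¹ =
          b⁻¹ * x * (b * a * b⁻¹ * x * (b * a * b⁻¹)⁻¹)⁻¹ * b := by group
        _ = b⁻¹ * x * x⁻¹ * b := by rw [h3']
        _ = 1 := by group
    have h6 : z * A * z⁻¹ * A⁻¹ = 1 := by
      apply uu_center h3
      · exact mul_mem (mul_mem (mul_mem hz hA) (inv_mem hz)) (inv_mem hA)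
      · rw [← mkU_eq_one, h5]
    exact mul_inv_eq_one.mp h6
  obtain ⟨t', ht', hzt⟩ := centre_uu h3 hz hcom
  refine ⟨t', ht', ?_⟩
  rw [← hzt, map_mul, map_mul, hz1, map_inv]
  group

end MP7fH
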