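import Pool.Agent.Lib.MP_7f581e_ntH.Norm

/-!
The special unitary group in dimension three: unipotent and diagonal elements.
-/

set_option autoImplicit false

namespace MP7fH

open Matrix

variable {F : Type*} [Field F] [HInv F]

theorem hf3 (x y : Fin 3 → F) : hf x y = x 0 * bar (y 2) + x 1 * bar (y 1) + x 2 * bar (y 0) := by
  rw [hf, Fin.sum_univ_three]
  rfl

theorem ext3 {x y : Fin 3 → F} (h0 : x 0 = y 0) (h1 : x 1 = y 1) (h2 : x 2 = y 2) : x = y := by
  funext i
  fin_cases i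
  · exact h0
  · exact h1
  · exact h2

/-- The condition for unipotent elements. -/
def Ck (w k : F) : Prop := k + bar k = -(w * bar w)

/-- Unipotent elements. -/
noncomputable def AA (w k : F) : SU 3 F := E (bb 0) (w • bb 1) k

theorem iso0 : hf (bb 0 : Fin 3 → F) (bb 0) = 0 := bb_iso (by decide)

theorem iso2 : hf (bb 2 : Fin 3 → F) (bb 2) = 0 := bb_iso (by decide)

theorem hf02 : hf (bb 0 : Fin 3 → F) (bb 2) = 1 := by rw [hf_bb, if_pos (by decide)]

theorem hf20 : hf (bb 2 : Fin 3 → F) (bb 0) = 1 := by rw [hf_bb, if_pos (by decide)]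

theorem hf01 : hf (bb 0 : Fin 3 → F) (bb 1) = 0 := by rw [hf_bb, if_neg (by decide)]

theorem hf10 : hf (bb 1 : Fin 3 → F) (bb 0) = 0 := by rw [hf_bb, if_neg (by decide)]

theorem hf12 : hf (bb 1 : Fin 3 → F) (bb 2) = 0 := by rw [hf_bb, if_neg (by decide)]

theorem hf21 : hf (bb 2 : Fin 3 → F) (bb 1) = 0 := by rw [hf_bb, if_neg (by decide)]

theorem hf11 : hf (bb 1 : Fin 3 → F) (bb 1) = 1 := by rw [hf_bb, if_pos (by decide)]

theorem Ck.ec {w k : F} (h : Ck w k) : EC (bb 0 : Fin 3 → F) (w • bb 1) k := by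
  refine ⟨iso0, by rw [hf_smul_left, hf10, mul_zero], ?_⟩
  rw [hf_smul_left, hf_smul_right, hf11, mul_one]
  exact h

theorem exists_Ck (w : F) : ∃ k, Ck w k := tr_surj (by rw [map_neg, bar_norm])

theorem Ck.sk {w k k' : F} (h : Ck w k) (h' : Ck w k') : Sk (k' - k) := by
  rw [Sk, map_sub]
  rw [Ck] at h h'
  linear_combination h' - h

theorem Ck.add_sk {w k t : F} (h : Ck w k) (ht : Sk t) : Ck w (k + t) := by
  rw [Ck] at *
  rw [Sk] at ht
  rw [map_add, ht]
  linear_combination h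

theorem Ck.mul {w k w' k' : F} (h : Ck w k) (h' : Ck w' k') :
    Ck (w + w') (k + k' - w' * bar w) := by
  rw [Ck] at *
  simp only [map_sub, map_add, map_mul, bar_bar]
  linear_combination h + h'

theorem AA_mul {w k w' k' : F} (h : Ck w k) (h' : Ck w' k') :
    AA w k * AA w' k' = AA (w + w') (k + k' - w' * bar w) := by
  rw [AA, AA, AA, E_mul h.ec h'.ec, hf_smul_left, hf_smul_right, hf11, mul_one, add_smul]

theorem AA_zero (t : F) : AA 0 t = T (bb 0) t := by rw [AA, zero_smul]; rfl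

theorem Ck.zero {t : F} (ht : Sk t) : Ck 0 t := by
  rw [Ck, zero_mul, neg_zero, ht, add_neg_cancel]

theorem AA_add {w k t : F} (h : Ck w k) (ht : Sk t) : AA w (k + t) = AA w k * T (bb 0) t := by
  rw [← AA_zero, AA_mul h (Ck.zero ht), add_zero, zero_mul, sub_zero]

theorem ap_AA0 {w k : F} (h : Ck w k) : ap (AA w k) (bb 0) = bb 0 := by
  rw [AA, ap_E h.ec, iso0, hf_smul_right, hf01]
  simp

theorem ap_AA2 {w k : F} (h : Ck w k) : ap (AA w k) (bb 2) = bb 2 + w • bb 1 + k • bb 0 := by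
  rw [AA, ap_E h.ec, hf20, hf_smul_right, hf21]
  simp

theorem AA_inj {w k w' k' : F} (h : Ck w k) (h' : Ck w' k')
    (H : mkU 3 F (AA w k) = mkU 3 F (AA w' k')) : w = w' ∧ k = k' := by
  have h1 := eq_of_mk le_rfl H (bb_ne_zero 0) (ap_AA0 h) (ap_AA0 h')
  have h2 := congrArg (fun g => ap g (bb 2)) h1
  simp only [ap_AA2 h, ap_AA2 h'] at h2
  have h3 := congrFun h2 1
  have h4 := congrFun h2 0
  simp [bb_apply] at h3 h4
  exact ⟨h3, h4⟩

/-- Diagonal elements. -/
def hh (a : Fˣ) : SU 3 F :=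
  ⟨⟨Matrix.diagonal ![(a : F), bar (a : F) / a, (bar (a : F))⁻¹], by
    have h1 : (a : F) ≠ 0 := a.ne_zero
    have h2 : bar (a : F) ≠ 0 := bar_ne_zero h1
    rw [det_diagonal, Fin.prod_univ_three]
    simp only [Matrix.cons_val]
    field_simp⟩, by
    intro x y
    have h1 : (a : F) ≠ 0 := a.ne_zero
    have h2 : bar (a : F) ≠ 0 := bar_ne_zero h1
    change hf (Matrix.diagonal ![(a : F), bar (a : F) / a, (bar (a : F))⁻¹] *ᵥ x)
      (Matrix.diagonal ![(a : F), bar (a : F) / a, (bar (a : F))⁻¹] *ᵥ y) = hf x y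
    rw [hf3, hf3]
    simp only [mulVec_diagonal, Matrix.cons_val, map_mul, map_div₀, map_inv₀, bar_bar]
    field_simp⟩

theorem ap_hh (a : Fˣ) (x : Fin 3 → F) :
    ap (hh a) x = fun i => ![(a : F), bar (a : F) / a, (bar (a : F))⁻¹] i * x i := by
  funext i
  exact mulVec_diagonal _ _ _

theorem ap_hh0 (a : Fˣ) : ap (hh a) (bb 0) = (a : F) • bb 0 := by
  rw [ap_hh]
  apply ext3 <;> simp [bb_apply]

theorem ap_hh1 (a : Fˣ) : ap (hh a) (bb 1) = (bar (a : F) / a) • bb 1 := by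
  rw [ap_hh]
  apply ext3 <;> simp [bb_apply]

theorem ap_hh2 (a : Fˣ) : ap (hh a) (bb 2) = (bar (a : F))⁻¹ • bb 2 := by
  rw [ap_hh]
  apply ext3 <;> simp [bb_apply]

theorem su_ext3 {g h : SU 3 F} (h0 : ap g (bb 0) = ap h (bb 0)) (h1 : ap g (bb 1) = ap h (bb 1))
    (h2 : ap g (bb 2) = ap h (bb 2)) : g = h := by
  apply Subtype.ext
  apply Subtype.ext
  ext i j
  rw [entry_eq, entry_eq]
  fin_cases j
  · exact congrFun h0 i
  · exact congrFun h1 i
  · exact congrFun h2 i

theorem hh_of {g : SU 3 F} {a : Fˣ} {c : F} (h0 : ap g (bb 0) = (a : F) • bb 0)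
    (h2 : ap g (bb 2) = c • bb 2) : g = hh a := by
  have ha : (a : F) ≠ 0 := a.ne_zero
  have ha' : bar (a : F) ≠ 0 := bar_ne_zero ha
  have h3 : c = (bar (a : F))⁻¹ := by
    have h4 := ap_hf g (bb 2) (bb 0)
    rw [h0, h2, hf_smul_left, hf_smul_right, hf20, mul_one] at h4
    exact eq_inv_of_mul_eq_one_left h4
  have hc : c ≠ 0 := by rw [h3]; exact inv_ne_zero ha'
  have h4 : ap g (bb 1) = (ap g (bb 1) 1) • bb 1 := by
    have e1 := ap_hf g (bb 1) (bb 0)
    have e2 := ap_hf g (bb 1) (bb 2)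
    rw [h0, hf_smul_right, hf10] at e1
    rw [h2, hf_smul_right, hf12] at e2
    have e3 := (mul_eq_zero.mp e1).resolve_left ha'
    have e4 := (mul_eq_zero.mp e2).resolve_left (bar_ne_zero hc)
    rw [hf_bb_right] at e3 e4
    apply ext3
    · simp only [Pi.smul_apply, smul_eq_mul, bb_apply]
      rw [if_neg (by decide), mul_zero]
      exact e4
    · rw [Pi.smul_apply, smul_eq_mul, bb_self, mul_one]
    · simp only [Pi.smul_apply, smul_eq_mul, bb_apply]
      rw [if_neg (by decide), mul_zero]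
      exact e3
  set d := ap g (bb 1) 1 with hd
  have h5 : sm g.1 = Matrix.diagonal ![(a : F), d, c] := by
    ext i j
    have h6 : sm g.1 i j = ap g (bb j) i := entry_eq g i j
    rw [h6]
    fin_cases j
    · change ap g (bb 0) i = _
      rw [h0]
      fin_cases i <;> simp [bb_apply, Matrix.diagonal]
    · change ap g (bb 1) i = _
      rw [h4]
      fin_cases i <;> simp [bb_apply, Matrix.diagonal]
    · change ap g (bb 2) i = _
      rw [h2]
      fin_cases i <;> simp [bb_apply, Matrix.diagonal]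
  have h6 : (a : F) * d * c = 1 := by
    have h7 : (sm g.1).det = 1 := g.1.2
    rw [h5, det_diagonal, Fin.prod_univ_three] at h7
    exact h7
  have h7 : d = bar (a : F) / a := by
    rw [h3] at h6
    field_simp at h6 ⊢
    linear_combination h6
  apply su_ext3
  · rw [h0, ap_hh0]
  · rw [h4, ap_hh1, h7]
  · rw [h2, ap_hh2, h3]

/-- Elements which fix the first basis vector. -/
theorem fix_e0 {g : SU 3 F} (h : ap g (bb 0) = bb 0) : ∃ w k, Ck w k ∧ g = AA w k := by
  have h1 : (ap g (bb 2)) 2 = 1 := by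
    have h2 := ap_hf g (bb 2) (bb 0)
    rw [h, hf20, hf_bb_right] at h2
    exact h2
  have hC : Ck (ap g (bb 2) 1) (ap g (bb 2) 0) := by
    have h2 := ap_hf g (bb 2) (bb 2)
    rw [iso2, hf3, h1, map_one] at h2
    rw [Ck]
    linear_combination h2
  refine ⟨_, _, hC, ?_⟩
  have h2 : ap g (bb 2) = bb 2 + (ap g (bb 2) 1) • bb 1 + (ap g (bb 2) 0) • bb 0 := by
    apply ext3
    · simp [bb_apply]
    · simp [bb_apply]
    · simp [bb_apply, h1]
  have h3 : (AA (ap g (bb 2) 1) (ap g (bb 2) 0))⁻¹ * g = hh 1 := by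
    apply hh_of (c := 1)
    · rw [ap_mul, h, Units.val_one, one_smul]
      apply ap_inj (AA (ap g (bb 2) 1) (ap g (bb 2) 0))
      rw [ap_ap_inv, ap_AA0 hC]
    · rw [ap_mul, one_smul]
      apply ap_inj (AA (ap g (bb 2) 1) (ap g (bb 2) 0))
      rw [ap_ap_inv, ap_AA2 hC]
      exact h2
  have h4 : (hh 1 : SU 3 F) = 1 := by
    symm
    apply hh_of (c := 1)
    · rw [ap_one, Units.val_one, one_smul]
    · rw [ap_one, one_smul]
  rw [h4, inv_mul_eq_one] at h3
  exact h3.symm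

theorem E_scal' {e w : Fin 3 → F} {k : F} (H : EC e w k) {c : F} (hc : c ≠ 0) :
    E e (bar c • w) (c * bar c * k) = E (c • e) w k := by
  have h1 : EC e (bar c • w) (c * bar c * k) := by
    refine ⟨H.1, by rw [hf_smul_left, H.2.1, mul_zero], ?_⟩
    rw [hf_smul_left, hf_smul_right, map_mul, map_mul, bar_bar]
    linear_combination (c * bar c) * H.2.2
  have h2 : EC (c • e) w k := by
    refine ⟨by rw [hf_smul_left, hf_smul_right, H.1, mul_zero, mul_zero],
      by rw [hf_smul_right, H.2.1, mul_zero], H.2.2⟩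
  apply su_ext
  intro x
  rw [ap_E h1, ap_E h2, hf_smul_right, hf_smul_right, bar_bar]
  module

/-- The action of the torus. -/
def lam (a : F) : F := bar a * (bar a / a)

theorem lam_ck {w k : F} (h : Ck w k) {a : F} (ha : a ≠ 0) : Ck (lam a * w) (a * bar a * k) := by
  have ha' := bar_ne_zero ha
  rw [Ck] at *
  rw [lam]
  simp only [map_mul, map_div₀, bar_bar]
  field_simp
  linear_combination h

theorem hh_conj (a : Fˣ) {w k : F} (h : Ck w k) :
    hh a * AA w k * (hh a)⁻¹ = AA (lam (a : F) * w) ((a : F) * bar (a : F) * k) := by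
  have h1 : EC (bb 0 : Fin 3 → F) ((w * (bar (a : F) / a)) • bb 1) k := by
    have ha : (a : F) ≠ 0 := a.ne_zero
    have ha' : bar (a : F) ≠ 0 := bar_ne_zero ha
    apply Ck.ec
    rw [Ck] at *
    rw [h, map_mul, map_div₀, bar_bar]
    field_simp
  rw [AA, AA, conj_E, ap_smul, ap_hh0, ap_hh1, smul_smul, ← E_scal' h1 a.ne_zero, smul_smul]
  congr 2
  rw [lam]
  ring

theorem hh_conjT (a : Fˣ) {t : F} (ht : Sk t) :
    hh a * T (bb 0) t * (hh a)⁻¹ = T (bb 0) ((a : F) * bar (a : F) * t) := by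
  rw [conj_T, ap_hh0, T_smul _ iso0 ht]

theorem hh_conjT2 (a : Fˣ) {t : F} (ht : Sk t) :
    hh a * T (bb 2) t * (hh a)⁻¹ = T (bb 2) ((bar (a : F))⁻¹ * (a : F)⁻¹ * t) := by
  rw [conj_T, ap_hh2, T_smul _ iso2 ht, map_inv₀, bar_bar]

/-- Commuting with unipotent elements. -/
theorem comm_AA {w k w' k' : F} (h : Ck w k) (h' : Ck w' k')
    (H : mkU 3 F (AA w k) * mkU 3 F (AA w' k') = mkU 3 F (AA w' k') * mkU 3 F (AA w k)) :
    w' * bar w = w * bar w' := by
  rw [← map_mul, ← map_mul, AA_mul h h', AA_mul h' h, add_comm w' w] at H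
  have h2 := h'.mul h
  rw [add_comm w' w] at h2
  have h1 := (AA_inj (h.mul h') h2 H).2
  linear_combination -h1

end MP7fH
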