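import Pool.Agent.Lib.MP_7f581e_ntH.Perf
import Pool.Agent.Lib.MP_7f581e_ntH.Three1

/-!
Automorphisms of the projective special unitary group in dimension three: unipotent elements,
the torus, and the field automorphism.
-/

set_option autoImplicit false

namespace MP7fH

open Matrix

variable {F : Type*} [Field F] [HInv F]

/-- All isotropic vectors are conjugate. -/
theorem exists_trans3 {y : Fin 3 → F} (hy : hf y y = 0) (hy0 : y ≠ 0) :
    ∃ g : SU 3 F, ap g (bb 0) = y := by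
  by_cases h2 : y 2 = 0
  · have h1 : y 1 = 0 := by
      rw [hf3, h2] at hy
      simp only [map_zero, mul_zero, zero_mul, zero_add, add_zero] at hy
      exact norm_zero_iff.mp hy
    have h0 : y 0 ≠ 0 := by
      intro h0
      apply hy0
      exact ext3 h0 h1 h2
    refine ⟨hh (Units.mk0 _ h0), ?_⟩
    rw [ap_hh0]
    apply ext3
    · simp [bb_apply]
    · simp [bb_apply, h1]
    · simp [bb_apply, h2]
  · -- go from the first to the last basis vector
    have hn := ap_n (F := F) iso0 iso2 hf02 (x := th) (y := -th⁻¹) Sk.th Sk.th.inv.neg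
    rw [mul_neg, mul_inv_cancel₀ th_ne, add_neg_cancel, zero_smul, zero_add] at hn
    set n : SU 3 F := T (bb 0) th * T (bb 2) (-th⁻¹) * T (bb 0) th with hn'
    -- kill the other coordinates
    have hc : bar (y 2) ≠ 0 := bar_ne_zero h2
    have hC : Ck (y 1 / y 2) (y 0 / y 2) := by
      rw [hf3] at hy
      rw [Ck, map_div₀, map_div₀]
      field_simp
      linear_combination hy
    have h3 : ap (AA (y 1 / y 2) (y 0 / y 2)) (y 2 • bb 2) = y := by
      rw [ap_smul, ap_AA2 hC]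
      apply ext3
      · simp [bb_apply]
        field_simp
      · simp [bb_apply]
        field_simp
      · simp [bb_apply]
    have ha : (bar (y 2 * (-th)))⁻¹ ≠ 0 :=
      inv_ne_zero (bar_ne_zero (mul_ne_zero h2 (neg_ne_zero.mpr th_ne)))
    refine ⟨AA (y 1 / y 2) (y 0 / y 2) * hh (Units.mk0 _ ha) * n, ?_⟩
    rw [ap_mul, ap_mul, hn, ap_smul, ap_hh2, Units.val_mk0, smul_smul, map_inv₀, bar_bar, inv_inv]
    have h5 : -th⁻¹ * (y 2 * -th) = y 2 := by
      have := th_ne (F := F)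
      field_simp
    rw [h5, h3]

theorem exists_im3 [Finite F] (α : PSU 3 F ≃* PSU 3 F) :
    ∃ S : F → F, ∀ w, w ≠ 0 → hf w w = 0 → ∃ w', Im α S w w' := by
  obtain ⟨g, hg⟩ := exists_conj_T le_rfl α
  choose! S hSk hS using hg
  refine ⟨S, fun w hw hww => ?_⟩
  obtain ⟨h, hh⟩ := exists_trans3 hww hw
  obtain ⟨h', hh'⟩ := mkU_surj (α (mkU 3 F h))
  refine ⟨ap (h' * g) (bb 0), ap_ne_zero _ (bb_ne_zero _), by
    rw [ap_hf, iso0], fun t ht => ⟨hSk t ht, ?_⟩⟩
  rw [← hh, ← conj_T, ← conj_T]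
  have h1 : α (mkU 3 F (T (bb 0) t)) = mkU 3 F (g * T (bb 0) (S t) * g⁻¹) := hS t ht
  simp only [map_mul, map_inv, h1, hh', _root_.mul_inv_rev]
  group

theorem exists_frame3 [Finite F] (α : PSU 3 F ≃* PSU 3 F) :
    ∃ (g : UU 3 F) (S0 S2 : F → F), Im (cj g α) S0 (bb 0) (bb 0) ∧
      Im (cj g α) S2 (bb 2) (bb 2) := by
  obtain ⟨S, hS⟩ := exists_im3 α
  obtain ⟨v0, h0⟩ := hS (bb 0) (bb_ne_zero _) iso0
  obtain ⟨v2, h2⟩ := hS (bb 2) (bb_ne_zero _) iso2
  have hne : hf v0 v2 ≠ 0 := by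
    intro h
    have := (h0.hf_iff le_rfl iso0 iso2 (bb_ne_zero _) (bb_ne_zero _) h2).mpr h
    rw [hf02] at this
    exact one_ne_zero this
  set c := (bar (hf v0 v2))⁻¹ with hc
  have hc0 : c ≠ 0 := inv_ne_zero (bar_ne_zero hne)
  have h3 : hf v0 (c • v2) = 1 := by
    rw [hf_smul_right, hc, map_inv₀, bar_bar, inv_mul_cancel₀ hne]
  have h4 : hf (c • v2) v0 = 1 := by rw [← hf_swap, h3, map_one]
  obtain ⟨g, hg⟩ := exists_frame_iso (F := F) (N := 3) (fun i => if i = 2 then c • v2 else v0) (by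
    intro i j hi hj
    have h5 : ∀ i : Fin 3, i ≠ Fin.rev i → i = 0 ∨ i = 2 := by decide
    rcases h5 i hi with rfl | rfl <;> rcases h5 j hj with rfl | rfl
    · rw [if_neg (by decide), iso0, h0.iso]
    · rw [if_neg (by decide), if_pos rfl, hf02, h3]
    · rw [if_pos rfl, if_neg (by decide), hf20, h4]
    · rw [if_pos rfl, iso2, hf_smul_left, hf_smul_right, h2.iso, mul_zero, mul_zero])
  have hg0 := hg 0 (by decide)
  have hg2 := hg 2 (by decide)
  rw [if_neg (by decide)] at hg0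
  rw [if_pos rfl] at hg2
  have h5 : au g⁻¹ v0 = bb 0 := by rw [← hg0, au_inv_au]
  have h6 : au g⁻¹ v2 = c⁻¹ • bb 2 := by
    rw [← au_inv_au g (bb 2), hg2, au_smul, smul_smul, inv_mul_cancel₀ hc0, one_smul]
  refine ⟨g, S, fun t => c⁻¹ * bar c⁻¹ * S t, ?_, ?_⟩
  · have := h0.cj g
    rwa [h5] at this
  · have h7 := h2.cj g
    rw [h6] at h7
    refine ⟨bb_ne_zero _, iso2, fun t ht => ⟨(h7.sk ht).norm _, ?_⟩⟩
    rw [h7.eq ht, T_smul _ iso2 (h7.sk ht)]

section

variable {β : PSU 3 F ≃* PSU 3 F} {S0 S2 : F → F}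

theorem im_conj {v v' : Fin 3 → F} (hv : hf v v = 0) (hv0 : v ≠ 0) (H : Im β S0 v v')
    {g h : SU 3 F} (hg : β (mkU 3 F h) = mkU 3 F g) {c : F} (hc : ap h v = c • v) :
    ∃ d : F, d ≠ 0 ∧ ap g v' = d • v' ∧ S0 (c * bar c * th) = d * bar d * S0 th := by
  have hS := H.S_ne_zero le_rfl hv hv0 Sk.th th_ne
  have hsk : Sk (c * bar c * th) := Sk.th.norm c
  have h2 : mkU 3 F (T (ap g v') (S0 th)) = mkU 3 F (T v' (S0 (c * bar c * th))) := by
    rw [← conj_T, map_mul, map_mul, map_inv, ← hg, ← H.eq Sk.th, ← map_inv, ← map_mul, ← map_mul,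
      ← map_inv, ← map_mul, ← map_mul, conj_T, hc, T_smul _ hv Sk.th, H.eq hsk]
  have h4 := mkT_eq le_rfl (by rw [ap_hf, H.iso]) H.iso (H.sk Sk.th) (H.sk hsk) h2
  obtain ⟨d, hd0, hd, hd2⟩ := T_eq (by rw [ap_hf, H.iso]) (ap_ne_zero g H.ne) H.iso (H.sk Sk.th)
    (H.sk hsk) hS h4
  exact ⟨d, hd0, hd, hd2⟩

/-- Unipotent elements are mapped to unipotent elements. -/
theorem imA [Finite F] (H0 : Im β S0 (bb 0) (bb 0)) {w k : F} (h : Ck w k) :
    ∃ w' k', Ck w' k' ∧ β (mkU 3 F (AA w k)) = mkU 3 F (AA w' k') := by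
  obtain ⟨p, hp⟩ := CharP.exists F
  have hpp : Fact p.Prime := ⟨CharP.char_is_prime F p⟩
  obtain ⟨g, hg⟩ := mkU_surj (β (mkU 3 F (AA w k)))
  obtain ⟨c, hc0, hc, hc2⟩ := im_conj iso0 (bb_ne_zero _) H0 hg.symm (c := 1) (by
    rw [ap_AA0 h, one_smul])
  have hS := H0.S_ne_zero le_rfl iso0 (bb_ne_zero _) Sk.th th_ne
  have hcc : c * bar c = 1 := by
    rw [map_one, one_mul, one_mul] at hc2
    apply mul_right_cancel₀ hS
    rw [← hc2, one_mul]
  have hgp : g ^ (p * p) ∈ Subgroup.center (SU 3 F) := by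
    rw [← mkU_eq_one, map_pow, hg, ← map_pow, ← map_pow, AA, E_pow_p h.ec, map_one, map_one]
  obtain ⟨z, hz0, hz⟩ := scalar_of_center le_rfl hgp
  have hpow : ∀ n : ℕ, ap (g ^ n) (bb 0) = c ^ n • bb 0 := by
    intro n
    induction n with
    | zero => rw [pow_zero, pow_zero, ap_one, one_smul]
    | succ n ih => rw [pow_succ, ap_mul, hc, ap_smul, ih, pow_succ, smul_smul, mul_comm]
  have hz2 : c ^ (p * p) = z := by
    have h1 := hz (bb 0)
    rw [hpow] at h1
    have h2 := congrFun h1 0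
    rwa [Pi.smul_apply, Pi.smul_apply, bb_self, smul_eq_mul, smul_eq_mul, mul_one, mul_one] at h2
  have hz3 : z ^ 3 = 1 := by
    have h1 : sm (g ^ (p * p)).1 = z • (1 : Matrix (Fin 3) (Fin 3) F) := by
      apply Matrix.mulVec_injective
      funext x
      rw [smul_mulVec, one_mulVec]
      exact hz x
    have h2 : (sm (g ^ (p * p)).1).det = 1 := (g ^ (p * p)).1.2
    rw [h1, det_smul, det_one, mul_one, Fintype.card_fin] at h2
    exact h2
  have hc3 : c ^ 3 = 1 := by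
    have h1 : (c ^ 3 - 1) ^ (p * p) = 0 := by
      rw [pow_mul, sub_pow_char, one_pow, sub_pow_char, one_pow, ← pow_mul, ← pow_mul,
        mul_comm 3, pow_mul, hz2, hz3, sub_self]
    exact sub_eq_zero.mp (eq_zero_of_pow_eq_zero h1)
  have hbc : bar c = c⁻¹ := by
    rw [mul_comm] at hcc
    exact eq_inv_of_mul_eq_one_left hcc
  have hu : ∀ x, ap (hh (Units.mk0 c hc0)) x = c • x := by
    intro x
    rw [ap_hh]
    have h4 : c⁻¹ / c = c := by
      field_simp
      exact hc3.symm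
    apply ext3
    · simp
    · simp [hbc, h4]
    · simp [hbc]
  obtain ⟨w', k', hC, h5⟩ := fix_e0 (g := (hh (Units.mk0 c hc0))⁻¹ * g) (by
    rw [ap_mul, hc]
    apply ap_inj (hh (Units.mk0 c hc0))
    rw [ap_ap_inv, hu])
  refine ⟨w', k', hC, ?_⟩
  rw [← hg]
  apply mkU_eq_of_smul (c := c)
  intro x
  rw [← h5, ap_mul, ← hu, ap_ap_inv]

/-- The torus is mapped to the torus. -/
theorem imH (H0 : Im β S0 (bb 0) (bb 0)) (H2 : Im β S2 (bb 2) (bb 2)) (a : Fˣ) :
    ∃ a' : Fˣ, β (mkU 3 F (hh a)) = mkU 3 F (hh a') ∧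
      S0 ((a : F) * bar (a : F) * th) = (a' : F) * bar (a' : F) * S0 th := by
  obtain ⟨g, hg⟩ := mkU_surj (β (mkU 3 F (hh a)))
  obtain ⟨c, hc0, hc, hc2⟩ := im_conj iso0 (bb_ne_zero _) H0 hg.symm (ap_hh0 a)
  obtain ⟨d, hd0, hd, -⟩ := im_conj iso2 (bb_ne_zero _) H2 hg.symm (ap_hh2 a)
  refine ⟨Units.mk0 c hc0, ?_, hc2⟩
  rw [← hg, ← hh_of (g := g) (a := Units.mk0 c hc0) hc hd]

/-- The map on the unipotent group modulo its centre. -/
theorem exists_f [Finite F] (H0 : Im β S0 (bb 0) (bb 0)) :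
    ∃ f : F → F, ∀ w k, Ck w k → ∃ k', Ck (f w) k' ∧
      β (mkU 3 F (AA w k)) = mkU 3 F (AA (f w) k') := by
  have h1 : ∀ w, ∃ w', ∀ k, Ck w k → ∃ k', Ck w' k' ∧
      β (mkU 3 F (AA w k)) = mkU 3 F (AA w' k') := by
    intro w
    obtain ⟨k0, hk0⟩ := exists_Ck w
    obtain ⟨w', k0', hC, hβ⟩ := imA H0 hk0
    refine ⟨w', fun k hk => ?_⟩
    have hsk := hk0.sk hk
    have h2 : k = k0 + (k - k0) := by ring
    refine ⟨k0' + S0 (k - k0), hC.add_sk (H0.sk hsk), ?_⟩
    rw [AA_add hC (H0.sk hsk), map_mul, ← hβ, ← H0.eq hsk, ← map_mul, ← map_mul, ← AA_add hk0 hsk,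
      ← h2]
  choose f hf using h1
  exact ⟨f, hf⟩

theorem f_add {f : F → F} (hf : ∀ w k, Ck w k → ∃ k', Ck (f w) k' ∧
    β (mkU 3 F (AA w k)) = mkU 3 F (AA (f w) k')) (x y : F) : f (x + y) = f x + f y := by
  obtain ⟨k, hk⟩ := exists_Ck x
  obtain ⟨l, hl⟩ := exists_Ck y
  obtain ⟨k', hk', h1⟩ := hf x k hk
  obtain ⟨l', hl', h2⟩ := hf y l hl
  obtain ⟨m', hm', h3⟩ := hf _ _ (hk.mul hl)
  rw [← AA_mul hk hl, map_mul, map_mul, h1, h2, ← map_mul, AA_mul hk' hl'] at h3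
  exact (AA_inj (hk'.mul hl') hm' h3).1.symm

theorem f_inj {f : F → F} (hf : ∀ w k, Ck w k → ∃ k', Ck (f w) k' ∧
    β (mkU 3 F (AA w k)) = mkU 3 F (AA (f w) k')) {w : F} (h : f w = 0) : w = 0 := by
  obtain ⟨y, hy⟩ := HInv.ne (F := F)
  by_contra hw
  obtain ⟨k, hk⟩ := exists_Ck w
  obtain ⟨l, hl⟩ := exists_Ck (y * w)
  obtain ⟨k', hk', h1⟩ := hf w k hk
  obtain ⟨l', hl', h2⟩ := hf _ _ hl
  rw [h] at hk' h1
  have h3 : Sk k' := by
    rw [Ck, zero_mul, neg_zero] at hk'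
    rw [Sk]
    linear_combination hk'
  have h4 : AA 0 k' * AA (f (y * w)) l' = AA (f (y * w)) l' * AA 0 k' := by
    rw [AA_mul hk' hl', AA_mul hl' hk', map_zero, mul_zero, zero_mul, zero_add, add_zero,
      add_comm k']
  have h5 := comm_AA hk hl (by
    apply β.injective
    rw [map_mul, map_mul, h1, h2, ← map_mul, ← map_mul, h4])
  apply hy
  rw [map_mul] at h5
  have h6 : (y - bar y) * (w * bar w) = 0 := by linear_combination h5
  exact (sub_eq_zero.mp ((mul_eq_zero.mp h6).resolve_right (norm_ne hw))).symm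

theorem f_lam {f : F → F} (hf : ∀ w k, Ck w k → ∃ k', Ck (f w) k' ∧
    β (mkU 3 F (AA w k)) = mkU 3 F (AA (f w) k')) {a a' : Fˣ}
    (ha : β (mkU 3 F (hh a)) = mkU 3 F (hh a')) (w : F) :
    f (lam (a : F) * w) = lam (a' : F) * f w := by
  obtain ⟨k, hk⟩ := exists_Ck w
  obtain ⟨k', hk', h1⟩ := hf w k hk
  obtain ⟨l', hl', h2⟩ := hf _ _ (lam_ck hk a.ne_zero)
  rw [← hh_conj a hk, map_mul, map_mul, map_inv, map_mul, map_mul, map_inv, h1, ha, ← map_inv,
    ← map_mul, ← map_mul, hh_conj a' hk'] at h2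
  exact (AA_inj (lam_ck hk' a'.ne_zero) hl' h2).1.symm

end

/-- Elements whose cube is not symmetric. -/
theorem exists_cube (hq : ∃ t : F, bar t = t ∧ t ≠ 0 ∧ t ≠ 1) :
    ∃ a : F, a ≠ 0 ∧ a ^ 3 ≠ (bar a) ^ 3 := by
  by_contra hcon
  push Not at hcon
  obtain ⟨t, ht, ht0, ht1⟩ := hq
  obtain ⟨a, ha⟩ := HInv.ne (F := F)
  have h1 : ∀ x : F, x ^ 3 = (bar x) ^ 3 := by
    intro x
    by_cases hx : x = 0
    · rw [hx, map_zero]
    · exact hcon x hx
  have h2 : ∀ s : F, bar s = s → s ≠ 0 → 3 * (a + bar a + s) = 0 := by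
    intro s hs hs0
    have h3 := h1 (a + s)
    rw [map_add, hs] at h3
    have h4 := h1 a
    have h5 : (s * (a - bar a)) * (3 * (a + bar a + s)) = 0 := by linear_combination h3 - h4
    exact (mul_eq_zero.mp h5).resolve_left (mul_ne_zero hs0 (sub_ne_zero.mpr (Ne.symm ha)))
  have h3 := h2 1 (map_one _) one_ne_zero
  have h4 := h2 t ht ht0
  have h5 : (3 : F) = 0 := by
    have h6 : 3 * (t - 1) = 0 := by linear_combination h4 - h3
    exact (mul_eq_zero.mp h6).resolve_right (sub_ne_zero.mpr ht1)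
  apply ha
  change bar a = a
  have h6 : (a - bar a) ^ 3 = 0 := by
    linear_combination h1 a - (a ^ 2 * bar a - a * (bar a) ^ 2) * h5
  exact (sub_eq_zero.mp (eq_zero_of_pow_eq_zero h6)).symm

/-- Additive maps which are semilinear for the torus are semilinear. -/
theorem exists_sigma3 [Finite F] (hq : ∃ t : F, bar t = t ∧ t ≠ 0 ∧ t ≠ 1) {f : F → F}
    (hadd : ∀ x y, f (x + y) = f x + f y) (hinj : ∀ x, f x = 0 → x = 0)
    (hlam : ∀ a : Fˣ, ∃ y, ∀ w, f (lam (a : F) * w) = y * f w) :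
    ∃ σ : F ≃+* F, ∀ w, f w = σ w * f 1 := by
  have h0 : f 0 = 0 := by
    have := hadd 0 0
    rw [add_zero] at this
    exact left_eq_add.mp this
  have hneg : ∀ x, f (-x) = -f x := by
    intro x
    have := hadd x (-x)
    rw [add_neg_cancel, h0] at this
    exact (neg_eq_of_add_eq_zero_right this.symm).symm
  have hf1 : f 1 ≠ 0 := fun h => one_ne_zero (hinj 1 h)
  -- the multiplier ring
  have hS : ∀ x, bar x = x → ∃ y, ∀ w, f (x * w) = y * f w := by
    intro x hx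
    by_cases hx0 : x = 0
    · exact ⟨0, fun w => by rw [hx0, zero_mul, zero_mul, h0]⟩
    · have h1 := hlam (Units.mk0 x hx0)
      rw [Units.val_mk0, lam, hx, div_self hx0, mul_one] at h1
      exact h1
  obtain ⟨a, ha0, ha⟩ := exists_cube hq
  have ha' := bar_ne_zero ha0
  obtain ⟨z, hz⟩ := hlam (Units.mk0 a ha0)
  rw [Units.val_mk0] at hz
  set b := lam a with hb
  have hbb : b - bar b ≠ 0 := by
    intro h
    apply ha
    rw [hb, lam] at h
    simp only [map_mul, map_div₀, bar_bar] at h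
    field_simp at h
    linear_combination -h
  have hall : ∀ x, ∃ y, ∀ w, f (x * w) = y * f w := by
    intro x
    set v := (x - bar x) / (b - bar b) with hv
    have hv' : bar v = v := by
      rw [hv, map_div₀, map_sub, map_sub, bar_bar, bar_bar, ← neg_sub x, ← neg_sub b,
        neg_div_neg_eq]
    set u := x - v * b with hu
    have hvb : v * (b - bar b) = x - bar x := by rw [hv, div_mul_cancel₀ _ hbb]
    have hu' : bar u = u := by
      rw [hu, map_sub, map_mul, hv']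
      linear_combination hvb
    obtain ⟨y1, h1⟩ := hS u hu'
    obtain ⟨y2, h2⟩ := hS v hv'
    refine ⟨y1 + y2 * z, fun w => ?_⟩
    have h3 : x * w = u * w + v * (b * w) := by rw [hu]; ring
    rw [h3, hadd, h1, h2, hz]
    ring
  choose s hs using hall
  have hs1 : ∀ x, f x = s x * f 1 := fun x => by
    have := hs x 1
    rwa [mul_one] at this
  have hsx : ∀ x y, s x * f 1 = y * f 1 → s x = y := fun x y h => mul_right_cancel₀ hf1 h
  let σ : F →+* F :=
    { toFun := s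
      map_one' := hsx _ _ (by rw [← hs1, one_mul])
      map_zero' := hsx _ _ (by rw [← hs1, h0, zero_mul])
      map_mul' := fun x y => hsx _ _ (by rw [← hs1, hs, hs1 y, mul_assoc])
      map_add' := fun x y => hsx _ _ (by rw [← hs1, hadd, hs1 x, hs1 y, add_mul]) }
  refine ⟨RingEquiv.ofBijective σ (Finite.injective_iff_bijective.mp σ.injective), fun w => hs1 w⟩

/-- Endomorphisms of a finite field commute. -/
theorem comm_finite {F : Type*} [Field F] [Finite F] (σ τ : F →+* F) (x : F) :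
    σ (τ x) = τ (σ x) := by
  by_cases hx : x = 0
  · rw [hx, map_zero, map_zero, map_zero]
  obtain ⟨g, hg⟩ := IsCyclic.exists_generator (α := Fˣ)
  obtain ⟨n, hn⟩ := Subgroup.mem_zpowers_iff.mp (hg (Units.mk0 x hx))
  obtain ⟨i, hi⟩ := Subgroup.mem_zpowers_iff.mp (hg (Units.map (σ : F →* F) g))
  obtain ⟨j, hj⟩ := Subgroup.mem_zpowers_iff.mp (hg (Units.map (τ : F →* F) g))
  have h1 : Units.map (σ : F →* F) (Units.map (τ : F →* F) g) =
      Units.map (τ : F →* F) (Units.map (σ : F →* F) g) := by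
    rw [← hi, ← hj, map_zpow, map_zpow, ← hi, ← hj, ← _root_.zpow_mul, ← _root_.zpow_mul,
      mul_comm]
  have h2 : Units.map (σ : F →* F) (Units.map (τ : F →* F) (Units.mk0 x hx)) =
      Units.map (τ : F →* F) (Units.map (σ : F →* F) (Units.mk0 x hx)) := by
    rw [← hn, map_zpow, map_zpow, map_zpow, map_zpow, h1]
  exact congrArg Units.val h2

end MP7fH
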