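import Pool.Agent.Lib.MP_7f581e_ntH.Three2

/-!
Automorphisms of the projective special unitary group in dimension three.
-/

set_option autoImplicit false

namespace MP7fH

open Matrix

variable {F : Type*} [Field F] [HInv F]

theorem T_scal {N : ℕ} {v : Fin N → F} (hv : hf v v = 0) {t : F} (ht : Sk t) {c : F}
    (hc : c ≠ 0) : T v t = T (c • v) ((c * bar c)⁻¹ * t) := by
  have h1 : Sk ((c * bar c)⁻¹ * t) := ht.smul (by rw [map_inv₀, bar_norm])
  rw [T_smul c hv h1, mul_inv_cancel_left₀ (norm_ne hc)]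

/-- Normalized automorphisms are trivial. -/
theorem norm_id [Finite F] [IsSimpleGroup (PSU 3 F)] (hq : ∃ t : F, bar t = t ∧ t ≠ 0 ∧ t ≠ 1)
    {β : PSU 3 F ≃* PSU 3 F} {S0 S2 : F → F} (H0 : Im β S0 (bb 0) (bb 0))
    (H2 : Im β S2 (bb 2) (bb 2))
    (hA : ∀ w k, Ck w k → ∃ k', Ck w k' ∧ β (mkU 3 F (AA w k)) = mkU 3 F (AA w k'))
    (x : PSU 3 F) : β x = x := by
  -- the centre of the unipotent group
  have h1 : ∀ t, Sk t → S0 t = t := by
    intro t ht
    obtain ⟨y, hy⟩ := HInv.ne (F := F)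
    have hy' : y - bar y ≠ 0 := sub_ne_zero.mpr (Ne.symm hy)
    set w := t / (y - bar y) with hw
    have hwb : bar w = w := by
      rw [hw, map_div₀, ht, map_sub, bar_bar, ← neg_sub y, neg_div_neg_eq]
    have htw : t = y * w - w * bar y := by
      rw [hw]
      field_simp
    obtain ⟨k, hk⟩ := exists_Ck y
    obtain ⟨l, hl⟩ := exists_Ck w
    obtain ⟨k', hk', e1⟩ := hA y k hk
    obtain ⟨l', hl', e2⟩ := hA w l hl
    have key : ∀ k l, Ck y k → Ck w l →
        (AA w l * AA y k)⁻¹ * (AA y k * AA w l) = T (bb 0) t := by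
      intro k l hk hl
      rw [inv_mul_eq_iff_eq_mul, AA_mul hk hl, AA_mul hl hk, add_comm w y]
      have h2 : Ck (y + w) (l + k - y * bar w) := by
        have := hl.mul hk
        rwa [add_comm w y] at this
      rw [← AA_add h2 ht, hwb, htw]
      congr 1
      ring
    have h3 := H0.eq ht
    rw [← key k l hk hl, map_mul, map_inv, map_mul, map_mul, map_mul, map_inv, map_mul, map_mul,
      e1, e2, ← map_mul, ← map_mul, ← map_inv, ← map_mul, key k' l' hk' hl'] at h3
    exact (T_inj iso0 (bb_ne_zero _) ht (H0.sk ht)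
      (mkT_eq le_rfl iso0 iso0 ht (H0.sk ht) h3)).symm
  have h2 : ∀ t, Sk t → β (mkU 3 F (T (bb 0) t)) = mkU 3 F (T (bb 0) t) := by
    intro t ht
    rw [H0.eq ht, h1 t ht]
  -- the unipotent group
  have h3 : ∀ w, ∃ δ, Sk δ ∧ ∀ k, Ck w k → β (mkU 3 F (AA w k)) = mkU 3 F (AA w (k + δ)) := by
    intro w
    obtain ⟨k0, hk0⟩ := exists_Ck w
    obtain ⟨k', hC, e1⟩ := hA w k0 hk0
    refine ⟨k' - k0, hk0.sk hC, fun k hk => ?_⟩
    have hsk := hk0.sk hk
    have e2 : k = k0 + (k - k0) := by ring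
    have e3 : k + (k' - k0) = k' + (k - k0) := by ring
    rw [e3, AA_add hC hsk, map_mul, ← e1, ← h2 _ hsk, ← map_mul, ← map_mul, ← AA_add hk0 hsk, ← e2]
  choose δ hδ hδ2 using h3
  have hδadd : ∀ x y, δ (x + y) = δ x + δ y := by
    intro x y
    obtain ⟨k, hk⟩ := exists_Ck x
    obtain ⟨l, hl⟩ := exists_Ck y
    have e1 := hδ2 _ _ (hk.mul hl)
    rw [← AA_mul hk hl, map_mul, map_mul, hδ2 x k hk, hδ2 y l hl, ← map_mul,
      AA_mul (hk.add_sk (hδ x)) (hl.add_sk (hδ y))] at e1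
    have e2 := (AA_inj ((hk.add_sk (hδ x)).mul (hl.add_sk (hδ y)))
      ((hk.mul hl).add_sk (hδ (x + y))) e1).2
    linear_combination -e2
  -- a torus element
  obtain ⟨a, ha0, ha3⟩ := exists_cube hq
  have ha0' := bar_ne_zero ha0
  set b : Fˣ := Units.mk0 (a / bar a) (div_ne_zero ha0 ha0') with hb
  have hbb : (b : F) * bar (b : F) = 1 := by
    rw [hb, Units.val_mk0, map_div₀, bar_bar]
    field_simp
  have hlam : lam (b : F) ≠ 1 := by
    intro h
    rw [hb, Units.val_mk0, lam, map_div₀, bar_bar] at h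
    field_simp at h
    apply ha3
    linear_combination -h
  obtain ⟨b', hb1, hb2⟩ := imH H0 H2 b
  have hbb' : (b' : F) * bar (b' : F) = 1 := by
    rw [hbb, one_mul, h1 _ Sk.th] at hb2
    apply mul_right_cancel₀ (th_ne (F := F))
    rw [← hb2, one_mul]
  have hδlam : ∀ w, δ (lam (b : F) * w) = δ w := by
    intro w
    obtain ⟨k, hk⟩ := exists_Ck w
    have e1 := hδ2 _ _ (lam_ck hk b.ne_zero)
    have hC := hk.add_sk (hδ w)
    rw [← hh_conj b hk, map_mul, map_mul, map_inv, map_mul, map_mul, map_inv, hδ2 w k hk, hb1,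
      ← map_inv, ← map_mul, ← map_mul, hh_conj b' hC] at e1
    have e2 := (AA_inj (lam_ck hC b'.ne_zero) ((lam_ck hk b.ne_zero).add_sk (hδ _)) e1).2
    rw [hbb, hbb'] at e2
    linear_combination -e2
  have hδ0 : ∀ w, δ w = 0 := by
    intro w
    have hne : lam (b : F) - 1 ≠ 0 := sub_ne_zero.mpr hlam
    set v := w / (lam (b : F) - 1) with hv
    have e1 : lam (b : F) * v = v + w := by
      rw [hv]
      field_simp
      ring
    have e2 := hδlam v
    rw [e1, hδadd] at e2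
    exact add_eq_left.mp e2
  have h4 : ∀ w k, Ck w k → β (mkU 3 F (AA w k)) = mkU 3 F (AA w k) := by
    intro w k hk
    rw [hδ2 w k hk, hδ0, add_zero]
  -- the opposite group
  have h5 : ∀ t, Sk t → β (mkU 3 F (T (bb 2) t)) = mkU 3 F (T (bb 2) t) := by
    intro t ht
    by_cases ht0 : t = 0
    · rw [ht0, T_zero, map_one, map_one]
    have hx : Sk (-t⁻¹) := ht.inv.neg
    have hx0 : -t⁻¹ ≠ 0 := neg_ne_zero.mpr (inv_ne_zero ht0)
    have e1 := pair_eq (α := β) le_rfl iso0 iso2 iso0 iso2 hf02 hf02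
      (a := fun t => t) (b := S2) (fun t ht => ⟨ht, h2 t ht⟩) H2.2.2 th_ne hx hx0
    have e2 : -(-t⁻¹)⁻¹ = t := by rw [inv_neg, inv_inv, neg_neg]
    rw [e2] at e1
    have e3 : S2 t = t := by
      field_simp at e1
      linear_combination -e1
    rw [H2.eq ht, e3]
  -- all transvections are fixed
  have h6 : ∀ v, hf v v = 0 → ∀ t, Sk t → β (mkU 3 F (T v t)) = mkU 3 F (T v t) := by
    intro v hv t ht
    by_cases hv0 : v = 0
    · rw [hv0, T_zero_vec, map_one, map_one]
    by_cases hv2 : v 2 = 0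
    · have hv1 : v 1 = 0 := by
        rw [hf3, hv2] at hv
        simp only [map_zero, mul_zero, zero_mul, zero_add, add_zero] at hv
        exact norm_zero_iff.mp hv
      have e1 : v = v 0 • bb 0 := by
        apply ext3
        · simp [bb_apply]
        · simp [bb_apply, hv1]
        · simp [bb_apply, hv2]
      rw [e1, T_smul _ iso0 ht, h2 _ (ht.norm _)]
    · have hC : Ck (v 1 / v 2) (v 0 / v 2) := by
        have hc : bar (v 2) ≠ 0 := bar_ne_zero hv2
        rw [hf3] at hv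
        rw [Ck, map_div₀, map_div₀]
        field_simp
        linear_combination hv
      have e1 : v = v 2 • ap (AA (v 1 / v 2) (v 0 / v 2)) (bb 2) := by
        rw [ap_AA2 hC]
        apply ext3
        · simp [bb_apply]
          field_simp
        · simp [bb_apply]
          field_simp
        · simp [bb_apply]
      rw [e1, T_smul _ (by rw [ap_hf, iso2]) ht, ← conj_T, map_mul, map_mul, map_inv, map_mul,
        map_mul, map_inv, h4 _ _ hC, h5 _ (ht.norm _)]
  have h7 : ((MonoidHom.eqLocus (MulEquiv.toMonoidHom β) (MonoidHom.id _)).comap (mkU 3 F)) = ⊤ := by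
    rw [eq_top_iff, ← closure_T (F := F) (N := 3) le_rfl, Subgroup.closure_le]
    rintro _ ⟨v, t, hv, ht, rfl⟩
    exact h6 v hv t ht
  obtain ⟨A, rfl⟩ := mkU_surj x
  have h8 : A ∈ (MonoidHom.eqLocus (MulEquiv.toMonoidHom β) (MonoidHom.id _)).comap (mkU 3 F) := by
    rw [h7]
    exact Subgroup.mem_top _
  exact h8

/-- Field automorphisms on the special unitary group. -/
def mapE {N : ℕ} {σ : F ≃+* F} (hσ : ∀ x, σ (bar x) = bar (σ x)) : SU N F ≃* SU N F :=
  { toFun := mapU hσ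
    invFun := mapU (σ := σ.symm) (fun x => by
      rw [RingEquiv.symm_apply_eq, hσ, RingEquiv.apply_symm_apply])
    left_inv := fun A => by
      apply su_ext
      intro x
      have h1 : sv σ.symm (sv σ x) = x := funext fun i => σ.symm_apply_apply _
      conv_lhs => rw [← h1]
      rw [ap_mapU, ap_mapU]
      exact funext fun i => σ.symm_apply_apply _
    right_inv := fun A => by
      apply su_ext
      intro x
      have h1 : sv σ (sv σ.symm x) = x := funext fun i => σ.apply_symm_apply _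
      conv_lhs => rw [← h1]
      rw [ap_mapU, ap_mapU]
      exact funext fun i => σ.apply_symm_apply _
    map_mul' := fun A B => map_mul (mapU hσ) A B }

theorem mapE_apply {N : ℕ} {σ : F ≃+* F} (hσ : ∀ x, σ (bar x) = bar (σ x)) (A : SU N F) :
    mapE hσ A = mapU hσ A := rfl

/-- **Automorphisms of the projective special unitary groups in dimension three.** -/
theorem aut_psu3 [Finite F] [IsSimpleGroup (PSU 3 F)] (hq : ∃ t : F, bar t = t ∧ t ≠ 0 ∧ t ≠ 1)
    (α : PSU 3 F ≃* PSU 3 F) :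
    ∃ (g : UU 3 F) (σ : F ≃+* F) (hσ : ∀ x, σ (bar x) = bar (σ x)), ∀ A : SU 3 F,
      α (mkU 3 F A) = mkU 3 F (cjU g (mapU hσ A)) := by
  obtain ⟨g0, S0, S2, H0, H2⟩ := exists_frame3 α
  obtain ⟨f, hf⟩ := exists_f H0
  obtain ⟨σ, hσf⟩ := exists_sigma3 hq (f_add hf) (fun w => f_inj hf) (fun a => by
    obtain ⟨a', ha, -⟩ := imH H0 H2 a
    exact ⟨lam (a' : F), fun w => f_lam hf ha w⟩)
  have hσ : ∀ x, σ (bar x) = bar (σ x) := fun x => comm_finite (σ : F →+* F) bar x
  have hf1 : f 1 ≠ 0 := fun h => one_ne_zero (f_inj hf h)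
  set c := f 1 with hc
  -- the diagonal element
  obtain ⟨D, hD⟩ := exists_diag (F := F) (N := 3)
    (fun i => if i = 0 then bar c else if i = 1 then 1 else c⁻¹) (by
    intro i
    fin_cases i
    · change bar c * bar c⁻¹ = 1
      rw [← map_mul, mul_inv_cancel₀ hf1, map_one]
    · change (1 : F) * bar 1 = 1
      rw [map_one, mul_one]
    · change c⁻¹ * bar (bar c) = 1
      rw [bar_bar, inv_mul_cancel₀ hf1])
  have hD0 : au D (bb 0) = bar c • bb 0 := hD 0
  have hD1 : au D (bb 1) = (1 : F) • bb 1 := hD 1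
  have hD2 : au D (bb 2) = c⁻¹ • bb 2 := hD 2
  rw [one_smul] at hD1
  -- the automorphism
  let γ : PSU 3 F ≃* PSU 3 F := pm ((mapE hσ).trans (cjU D))
  have hγ : ∀ A, γ (mkU 3 F A) = mkU 3 F (cjU D (mapU hσ A)) := fun A => rfl
  have hbc : bar c ≠ 0 := bar_ne_zero hf1
  have hγA : ∀ w k, Ck w k → γ (mkU 3 F (AA w k)) = mkU 3 F (AA (σ w * c) (bar c * c * σ k)) := by
    intro w k hk
    have hk' : Ck (σ w) (σ k) := by
      rw [Ck] at *
      rw [← hσ, ← hσ, ← map_add, hk, map_neg, map_mul]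
    rw [hγ, AA, mapU_E, sv_smul, sv_bb, sv_bb, cjU_E, hD0, au_smul, hD1, ← E_scal' hk'.ec hbc,
      bar_bar, smul_smul, AA, mul_comm c (σ w)]
  have hγ0 : ∀ t, Sk t → γ (mkU 3 F (T (bb 0) t)) = mkU 3 F (T (bb 0) (bar c * c * σ t)) := by
    intro t ht
    rw [hγ, mapU_T, sv_bb, cjU_T, hD0, T_smul _ iso0 (Sk.map hσ ht), bar_bar]
  have hγ2 : ∀ t, Sk t → γ (mkU 3 F (T (bb 2) t)) =
      mkU 3 F (T (bb 2) (c⁻¹ * bar c⁻¹ * σ t)) := by
    intro t ht
    rw [hγ, mapU_T, sv_bb, cjU_T, hD2, T_smul _ iso2 (Sk.map hσ ht)]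
  -- the normalized automorphism
  have hsk : ∀ t, Sk t → Sk (σ.symm t) := by
    intro t ht
    rw [Sk] at *
    apply σ.injective
    rw [hσ, σ.apply_symm_apply, map_neg, σ.apply_symm_apply, ht]
  have hid : ∀ x, ((cj g0 α).trans γ.symm) x = x := by
    refine norm_id hq (S0 := fun t => σ.symm ((bar c * c)⁻¹ * S0 t))
      (S2 := fun t => σ.symm ((c⁻¹ * bar c⁻¹)⁻¹ * S2 t)) ?_ ?_ ?_
    · refine ⟨bb_ne_zero _, iso0, fun t ht => ?_⟩
      have h1 : Sk ((bar c * c)⁻¹ * S0 t) := (H0.sk ht).smul (by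
        rw [map_inv₀, map_mul, bar_bar, mul_comm])
      refine ⟨hsk _ h1, ?_⟩
      change γ.symm (cj g0 α (mkU 3 F (T (bb 0) t))) = _
      rw [MulEquiv.symm_apply_eq, hγ0 _ (hsk _ h1), σ.apply_symm_apply,
        mul_inv_cancel_left₀ (mul_ne_zero hbc hf1), H0.eq ht]
    · refine ⟨bb_ne_zero _, iso2, fun t ht => ?_⟩
      have h1 : Sk ((c⁻¹ * bar c⁻¹)⁻¹ * S2 t) := (H2.sk ht).smul (by
        rw [map_inv₀, bar_norm])
      refine ⟨hsk _ h1, ?_⟩
      change γ.symm (cj g0 α (mkU 3 F (T (bb 2) t))) = _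
      rw [MulEquiv.symm_apply_eq, hγ2 _ (hsk _ h1), σ.apply_symm_apply,
        mul_inv_cancel_left₀ (norm_ne (inv_ne_zero hf1)), H2.eq ht]
    · intro w k hk
      obtain ⟨k', hk', h1⟩ := hf w k hk
      have hC : Ck w (σ.symm ((bar c * c)⁻¹ * k')) := by
        rw [Ck] at *
        apply σ.injective
        rw [map_add, hσ, σ.apply_symm_apply, map_neg, map_mul σ, hσ, map_mul bar, map_inv₀,
          map_mul bar, bar_bar, mul_comm c (bar c)]
        have h2 : f w = σ w * c := hσf w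
        rw [h2, map_mul] at hk'
        rw [← mul_add, hk']
        field_simp
      refine ⟨_, hC, ?_⟩
      change γ.symm (cj g0 α (mkU 3 F (AA w k))) = _
      rw [MulEquiv.symm_apply_eq, hγA _ _ hC, σ.apply_symm_apply,
        mul_inv_cancel_left₀ (mul_ne_zero hbc hf1), h1, hσf w]
  refine ⟨g0 * D, σ, hσ, fun A => ?_⟩
  have h1 := hid (mkU 3 F A)
  change γ.symm (cj g0 α (mkU 3 F A)) = _ at h1
  rw [MulEquiv.symm_apply_eq, hγ, cj_apply] at h1
  have h2 := congrArg (pm (cjU g0)) h1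
  rw [pm_mk, ← cjU_mul] at h2
  rw [← h2]
  obtain ⟨B, hB⟩ := mkU_surj (α (mkU 3 F A))
  rw [← hB, pm_mk, pm_mk, cjU_inv]

end MP7fH
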